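import Pool.Agent.HB.Pl.Defs

/-!
# PL-Basic: elementary properties of orders and values at a place

Plan.  `R := w.toSubring` is a discrete valuation ring by `hw.dvr` (use `haveI := hw.dvr`), and every
element of `M` is a quotient of two elements of `R` (`x ∈ w` or `x⁻¹ ∈ w`).  `Ring.ord R a` is the
additive valuation of `a` (`Ring.ord_eq_addVal`, `Ring.ord_mul`, `Ring.ord_ne_top` with
`Ring.KrullDimLE 1 R`, `IsDiscreteValuationRing.addVal`), it is finite for `a ≠ 0`, additive, `0` exactly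
for units.
First prove `ow_frac`: for `a b ∈ R` nonzero, `ow w (a / b) = (Ring.ord R a).toNat - (Ring.ord R b).toNat`
(unfold `ordS`, the chosen pair `(a', b')` satisfies `a' b = a b'`, take orders).  Then everything follows
from additivity: `ow_mul`, `mem_iff` (`x ∈ w`: `x = x/1`; `x ∉ w`: `x⁻¹ ∈ w` is a nonunit of `R`, so
`ow w x⁻¹ > 0`), `nonunit_iff` by `ValuationSubring.mem_nonunits_iff_or`, `ow_add`: dividing by `τ ^ n`
(`τ` a uniformiser) the claim becomes: `w` is closed under addition.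
Values: `ev k w x` is the unique constant `c` with `x - c ∈ w.nonunits` (a nonzero constant is a unit of
`w`), and `w.nonunits` is an ideal of `w`.
-/

set_option autoImplicit false
namespace HB.Pl

universe u

variable {k : Type u} {M : Type u} [Field k] [Field M] [Algebra k M] {w : ValuationSubring M}

private theorem ow_frac (hw : IsPl k w) {a b : w.toSubring} (ha : a ≠ 0) (hb : b ≠ 0) :
    ow w ((a : M) / (b : M)) =
      ((Ring.ord w.toSubring a).toNat : ℤ) - ((Ring.ord w.toSubring b).toNat : ℤ) := by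
  have := hw.dvr
  have ha' : (a : M) ≠ 0 := fun h => ha (Subtype.ext h)
  have hb' : (b : M) ≠ 0 := fun h => hb (Subtype.ext h)
  have hex : ∃ p : w.toSubring × w.toSubring, (p.1 : M) ≠ 0 ∧ (p.2 : M) ≠ 0 ∧
      (a : M) / (b : M) = (p.1 : M) / (p.2 : M) := ⟨(a, b), ha', hb', rfl⟩
  unfold ow ordS
  rw [dif_pos hex]
  obtain ⟨h1, h2, h3⟩ := hex.choose_spec
  set p := hex.choose with hp
  have hp1 : p.1 ≠ 0 := fun h => h1 (by rw [h]; rfl)
  have hp2 : p.2 ≠ 0 := fun h => h2 (by rw [h]; rfl)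
  have h4 : a * p.2 = p.1 * b := by
    apply Subtype.ext
    show (a : M) * (p.2 : M) = (p.1 : M) * (b : M)
    exact (div_eq_div_iff hb' h2).1 h3
  have key : ∀ {x : w.toSubring}, x ≠ 0 → Ring.ord w.toSubring x ≠ ⊤ := by
    intro x hx
    rw [Ring.ord_eq_addVal]
    intro h
    exact hx (IsDiscreteValuationRing.addVal_eq_top_iff.1 h)
  have h5 : Ring.ord w.toSubring a + Ring.ord w.toSubring p.2 =
      Ring.ord w.toSubring p.1 + Ring.ord w.toSubring b := by
    simp only [Ring.ord_eq_addVal]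
    rw [← IsDiscreteValuationRing.addVal_mul, ← IsDiscreteValuationRing.addVal_mul, h4]
  have h6 := congrArg ENat.toNat h5
  rw [ENat.toNat_add (key ha) (key hp2), ENat.toNat_add (key hp1) (key hb)] at h6
  have h7 : ((Ring.ord w.toSubring a).toNat : ℤ) + ((Ring.ord w.toSubring p.2).toNat : ℤ) =
      ((Ring.ord w.toSubring p.1).toNat : ℤ) + ((Ring.ord w.toSubring b).toNat : ℤ) := by
    exact_mod_cast h6
  linarith

private def Un (w : ValuationSubring M) (x : M) : Prop := x ≠ 0 ∧ x ∈ w ∧ x⁻¹ ∈ w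

private theorem un_mul {x y : M} (hx : Un w x) (hy : Un w y) : Un w (x * y) :=
  ⟨mul_ne_zero hx.1 hy.1, w.mul_mem _ _ hx.2.1 hy.2.1, by
    rw [mul_inv]; exact w.mul_mem _ _ hx.2.2 hy.2.2⟩

private theorem un_unit (u : w.toSubringˣ) : Un w ((u : w.toSubring) : M) := by
  have h1 : ((u : w.toSubring) : M) * ((u⁻¹ : w.toSubringˣ) : w.toSubring) = 1 := by
    have := congrArg (fun z : w.toSubring => (z : M)) (Units.mul_inv u)
    exact this
  have h0 : ((u : w.toSubring) : M) ≠ 0 := left_ne_zero_of_mul_eq_one h1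
  refine ⟨h0, (u : w.toSubring).2, ?_⟩
  have h2 : ((u : w.toSubring) : M)⁻¹ = ((u⁻¹ : w.toSubringˣ) : w.toSubring) :=
    inv_eq_of_mul_eq_one_right h1
  rw [h2]
  exact ((u⁻¹ : w.toSubringˣ) : w.toSubring).2

private theorem ord_un (hw : IsPl k w) {x : M} (hx : Un w x) :
    (Ring.ord w.toSubring (⟨x, hx.2.1⟩ : w.toSubring)).toNat = 0 := by
  have := hw.dvr
  have h1 : IsUnit (⟨x, hx.2.1⟩ : w.toSubring) := by
    refine IsUnit.of_mul_eq_one (⟨x⁻¹, hx.2.2⟩ : w.toSubring) ?_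
    apply Subtype.ext
    show x * x⁻¹ = 1
    exact mul_inv_cancel₀ hx.1
  obtain ⟨u, hu⟩ := h1
  rw [← hu, Ring.ord_eq_addVal, IsDiscreteValuationRing.addVal_eq_zero_of_unit]
  rfl

private theorem ow_unz (hw : IsPl k w) {ϖ : w.toSubring} (hϖ : Irreducible ϖ) {x : M}
    (hx : Un w x) (n : ℤ) : ow w (x * (ϖ : M) ^ n) = n := by
  have := hw.dvr
  have hϖ0 : (ϖ : M) ≠ 0 := fun h => hϖ.ne_zero (Subtype.ext h)
  have hp : ∀ m : ℕ, ϖ ^ m ≠ 0 := fun m => pow_ne_zero m hϖ.ne_zero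
  have hord : ∀ m : ℕ, (Ring.ord w.toSubring (ϖ ^ m)).toNat = m := by
    intro m
    rw [Ring.ord_eq_addVal, hϖ.addVal_pow]
    rfl
  have hx0 : (⟨x, hx.2.1⟩ : w.toSubring) ≠ 0 := fun h => hx.1 (congrArg Subtype.val h)
  obtain ⟨m, rfl | rfl⟩ := n.eq_nat_or_neg
  · have h1 : x * (ϖ : M) ^ (m : ℤ) =
        (((⟨x, hx.2.1⟩ : w.toSubring) * ϖ ^ m : w.toSubring) : M) / ((1 : w.toSubring) : M) := by
      rw [zpow_natCast]
      show x * (ϖ : M) ^ m = (x * (ϖ : M) ^ m) / 1
      rw [div_one]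
    rw [h1, ow_frac hw (mul_ne_zero hx0 (hp m)) one_ne_zero]
    have h2 : (Ring.ord w.toSubring ((⟨x, hx.2.1⟩ : w.toSubring) * ϖ ^ m)).toNat = m := by
      have h3 := ord_un hw hx
      have h4 := hord m
      rw [Ring.ord_eq_addVal] at h3 h4 ⊢
      rw [IsDiscreteValuationRing.addVal_mul, ENat.toNat_add, h3, h4, zero_add]
      · intro h
        exact hx0 (IsDiscreteValuationRing.addVal_eq_top_iff.1 h)
      · intro h
        exact hp m (IsDiscreteValuationRing.addVal_eq_top_iff.1 h)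
    have h5 : (Ring.ord w.toSubring (1 : w.toSubring)).toNat = 0 := by
      have := hord 0
      rwa [pow_zero] at this
    rw [h2, h5]
    simp
  · have h1 : x * (ϖ : M) ^ (-(m : ℤ)) =
        ((⟨x, hx.2.1⟩ : w.toSubring) : M) / ((ϖ ^ m : w.toSubring) : M) := by
      rw [zpow_neg, zpow_natCast]
      show x * ((ϖ : M) ^ m)⁻¹ = x / ((ϖ : M) ^ m)
      rw [div_eq_mul_inv]
    rw [h1, ow_frac hw hx0 (hp m), ord_un hw hx, hord m]
    simp

private theorem rep (hw : IsPl k w) {ϖ : w.toSubring} (hϖ : Irreducible ϖ) {a : M} (ha : a ≠ 0) :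
    ∃ x : M, Un w x ∧ a = x * (ϖ : M) ^ (ow w a) := by
  have := hw.dvr
  have h1 : ∃ (x : M) (n : ℤ), Un w x ∧ a = x * (ϖ : M) ^ n := by
    rcases w.mem_or_inv_mem a with h | h
    · have h2 : (⟨a, h⟩ : w.toSubring) ≠ 0 := fun h3 => ha (congrArg Subtype.val h3)
      obtain ⟨n, u, hu⟩ := IsDiscreteValuationRing.eq_unit_mul_pow_irreducible h2 hϖ
      refine ⟨((u : w.toSubring) : M), n, un_unit u, ?_⟩
      have h4 := congrArg (fun z : w.toSubring => (z : M)) hu
      rw [zpow_natCast]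
      exact h4
    · have h2 : (⟨a⁻¹, h⟩ : w.toSubring) ≠ 0 :=
        fun h3 => inv_ne_zero ha (congrArg Subtype.val h3)
      obtain ⟨n, u, hu⟩ := IsDiscreteValuationRing.eq_unit_mul_pow_irreducible h2 hϖ
      have hun := un_unit u
      refine ⟨((u : w.toSubring) : M)⁻¹, -n, ⟨inv_ne_zero hun.1, hun.2.2, ?_⟩, ?_⟩
      · rw [inv_inv]; exact hun.2.1
      have h4 : a⁻¹ = ((u : w.toSubring) : M) * (ϖ : M) ^ n :=
        congrArg (fun z : w.toSubring => (z : M)) hu
      rw [zpow_neg, zpow_natCast, ← mul_inv, ← h4, inv_inv]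
  obtain ⟨x, n, hx, hn⟩ := h1
  have h2 : ow w a = n := by rw [hn, ow_unz hw hϖ hx]
  exact ⟨x, hx, by rw [h2]; exact hn⟩

private theorem exϖ (hw : IsPl k w) : ∃ ϖ : w.toSubring, Irreducible ϖ := by
  have := hw.dvr
  exact IsDiscreteValuationRing.exists_irreducible w.toSubring

private theorem ow_un (hw : IsPl k w) {x : M} (hx : Un w x) : ow w x = 0 := by
  obtain ⟨ϖ, hϖ⟩ := exϖ hw
  have := ow_unz hw hϖ hx 0
  rwa [zpow_zero, mul_one] at this

theorem ow_zero : ow w 0 = 0 := by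
  unfold ow ordS
  rw [dif_neg]
  rintro ⟨p, h1, h2, h3⟩
  exact div_ne_zero h1 h2 h3.symm

theorem ow_mul (hw : IsPl k w) {a b : M} (ha : a ≠ 0) (hb : b ≠ 0) :
    ow w (a * b) = ow w a + ow w b := by
  obtain ⟨ϖ, hϖ⟩ := exϖ hw
  have hϖ0 : (ϖ : M) ≠ 0 := fun h => hϖ.ne_zero (Subtype.ext h)
  obtain ⟨x, hx, h1⟩ := rep hw hϖ ha
  obtain ⟨y, hy, h2⟩ := rep hw hϖ hb
  have h3 : a * b = (x * y) * (ϖ : M) ^ (ow w a + ow w b) := by
    rw [zpow_add₀ hϖ0]
    calc a * b = (x * (ϖ : M) ^ (ow w a)) * (y * (ϖ : M) ^ (ow w b)) := by rw [← h1, ← h2]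
      _ = _ := by ring
  rw [h3, ow_unz hw hϖ (un_mul hx hy)]

theorem ow_one (hw : IsPl k w) : ow w 1 = 0 :=
  ow_un hw ⟨one_ne_zero, w.one_mem, by rw [inv_one]; exact w.one_mem⟩

theorem ow_inv (hw : IsPl k w) {a : M} (ha : a ≠ 0) : ow w a⁻¹ = - ow w a := by
  have h := ow_mul hw ha (inv_ne_zero ha)
  rw [mul_inv_cancel₀ ha, ow_one hw] at h
  linarith

theorem ow_div (hw : IsPl k w) {a b : M} (ha : a ≠ 0) (hb : b ≠ 0) :
    ow w (a / b) = ow w a - ow w b := by
  rw [div_eq_mul_inv, ow_mul hw ha (inv_ne_zero hb), ow_inv hw hb, sub_eq_add_neg]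

theorem ow_pow (hw : IsPl k w) {a : M} (ha : a ≠ 0) (n : ℕ) : ow w (a ^ n) = n * ow w a := by
  induction n with
  | zero => simp [ow_one hw]
  | succ n ih =>
    rw [pow_succ, ow_mul hw (pow_ne_zero n ha) ha, ih]
    push_cast
    ring

theorem ow_zpow (hw : IsPl k w) {a : M} (ha : a ≠ 0) (n : ℤ) : ow w (a ^ n) = n * ow w a := by
  obtain ⟨m, rfl | rfl⟩ := n.eq_nat_or_neg
  · rw [zpow_natCast, ow_pow hw ha]
  · rw [zpow_neg, zpow_natCast, ow_inv hw (pow_ne_zero m ha), ow_pow hw ha]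
    ring

theorem ow_neg (hw : IsPl k w) (a : M) : ow w (-a) = ow w a := by
  by_cases ha : a = 0
  · rw [ha, neg_zero]
  have h1 : ow w (-1 : M) = 0 := by
    refine ow_un hw ⟨neg_ne_zero.2 one_ne_zero, w.neg_mem _ w.one_mem, ?_⟩
    rw [inv_neg, inv_one]
    exact w.neg_mem _ w.one_mem
  have h2 : -a = (-1) * a := by ring
  rw [h2, ow_mul hw (neg_ne_zero.2 one_ne_zero) ha, h1, zero_add]

theorem mem_iff (hw : IsPl k w) {a : M} (ha : a ≠ 0) : a ∈ w ↔ 0 ≤ ow w a := by
  obtain ⟨ϖ, hϖ⟩ := exϖ hw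
  constructor
  · intro h
    have h2 : (⟨a, h⟩ : w.toSubring) ≠ 0 := fun h3 => ha (congrArg Subtype.val h3)
    have h3 := ow_frac hw h2 (one_ne_zero (α := w.toSubring))
    have h5 : (Ring.ord w.toSubring (1 : w.toSubring)).toNat = 0 := by
      have h6 := ord_un hw (w := w) (x := 1)
        ⟨one_ne_zero, w.one_mem, by rw [inv_one]; exact w.one_mem⟩
      exact h6
    rw [h5] at h3
    have h4 : (((⟨a, h⟩ : w.toSubring) : M) / ((1 : w.toSubring) : M)) = a := by
      show a / 1 = a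
      rw [div_one]
    rw [h4] at h3
    rw [h3]
    simp
  · intro h
    obtain ⟨x, hx, h1⟩ := rep hw hϖ ha
    obtain ⟨m, hm⟩ := Int.eq_ofNat_of_zero_le h
    rw [hm, zpow_natCast] at h1
    rw [h1]
    exact w.mul_mem _ _ hx.2.1 (pow_mem ϖ.2 m)

theorem nonunit_iff (hw : IsPl k w) {a : M} (ha : a ≠ 0) : a ∈ w.nonunits ↔ 0 < ow w a := by
  rw [ValuationSubring.mem_nonunits_iff_or, mem_iff hw (inv_ne_zero ha), ow_inv hw ha]
  constructor
  · rintro (h | h)
    · exact absurd h ha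
    · linarith [not_le.1 h]
  · intro h
    right
    intro h2
    linarith

theorem ow_add (hw : IsPl k w) {a b : M} {n : ℤ} (ha : a = 0 ∨ n ≤ ow w a)
    (hb : b = 0 ∨ n ≤ ow w b) : a + b = 0 ∨ n ≤ ow w (a + b) := by
  obtain ⟨ϖ, hϖ⟩ := exϖ hw
  have hϖ0 : (ϖ : M) ≠ 0 := fun h => hϖ.ne_zero (Subtype.ext h)
  have hτ : ∀ m : ℤ, ow w ((ϖ : M) ^ m) = m := by
    intro m
    have := ow_unz hw hϖ (x := 1) ⟨one_ne_zero, w.one_mem, by rw [inv_one]; exact w.one_mem⟩ m
    rwa [one_mul] at this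
  have key : ∀ c : M, (c = 0 ∨ n ≤ ow w c) ↔ c * (ϖ : M) ^ (-n) ∈ w := by
    intro c
    by_cases hc : c = 0
    · rw [hc, zero_mul]
      exact ⟨fun _ => w.zero_mem, fun _ => Or.inl rfl⟩
    · rw [mem_iff hw (mul_ne_zero hc (zpow_ne_zero _ hϖ0)), ow_mul hw hc (zpow_ne_zero _ hϖ0), hτ]
      constructor
      · rintro (h | h)
        · exact absurd h hc
        · linarith
      · intro h
        right
        linarith
  rw [key] at ha hb ⊢
  rw [add_mul]
  exact w.add_mem _ _ ha hb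

theorem ow_sub (hw : IsPl k w) {a b : M} {n : ℤ} (ha : a = 0 ∨ n ≤ ow w a)
    (hb : b = 0 ∨ n ≤ ow w b) : a - b = 0 ∨ n ≤ ow w (a - b) := by
  rw [sub_eq_add_neg]
  refine ow_add hw ha ?_
  rcases hb with h | h
  · left; rw [h, neg_zero]
  · right; rwa [ow_neg hw]

/-- the order of a sum of two elements of different orders -/
theorem ow_add_of_lt (hw : IsPl k w) {a b : M} (ha : a ≠ 0) (h : b = 0 ∨ ow w a < ow w b) :
    a + b ≠ 0 ∧ ow w (a + b) = ow w a := by
  rcases h with h | h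
  · rw [h, add_zero]
    exact ⟨ha, rfl⟩
  have h0 : a + b ≠ 0 := by
    intro h1
    have h2 : b = -a := by linear_combination h1
    rw [h2, ow_neg hw] at h
    exact lt_irrefl _ h
  refine ⟨h0, ?_⟩
  have h1 : ow w a ≤ ow w (a + b) :=
    (ow_add hw (Or.inr le_rfl) (Or.inr h.le)).resolve_left h0
  by_contra h2
  have h3 : ow w a + 1 ≤ ow w (a + b) := by
    rcases lt_or_eq_of_le h1 with h4 | h4
    · exact h4
    · exact absurd h4.symm h2
  have h4 := ow_sub hw (a := a + b) (b := b) (n := ow w a + 1) (Or.inr h3) (Or.inr h)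
  rw [add_sub_cancel_right] at h4
  rcases h4 with h4 | h4
  · exact ha h4
  · linarith

theorem exists_unif (hw : IsPl k w) : ∃ τ : M, τ ≠ 0 ∧ ow w τ = 1 := by
  obtain ⟨ϖ, hϖ⟩ := exϖ hw
  have hϖ0 : (ϖ : M) ≠ 0 := fun h => hϖ.ne_zero (Subtype.ext h)
  refine ⟨ϖ, hϖ0, ?_⟩
  have := ow_unz hw hϖ (x := 1) ⟨one_ne_zero, w.one_mem, by rw [inv_one]; exact w.one_mem⟩ 1
  rwa [one_mul, zpow_one] at this

theorem ow_const (hw : IsPl k w) {c : k} (hc : c ≠ 0) : ow w (algebraMap k M c) = 0 := by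
  refine ow_un hw ⟨?_, hw.alg c, ?_⟩
  · intro h
    exact hc ((map_eq_zero (algebraMap k M)).1 h)
  · rw [← map_inv₀]
    exact hw.alg _

theorem ow_sub_const (hw : IsPl k w) {a : M} (ha : 0 < ow w a) {c : k} (hc : c ≠ 0) :
    ow w (a - algebraMap k M c) = 0 := by
  have h0 : -algebraMap k M c ≠ 0 := by
    intro h
    exact hc ((map_eq_zero (algebraMap k M)).1 (neg_eq_zero.1 h))
  have h1 : ow w (-algebraMap k M c) = 0 := by rw [ow_neg hw, ow_const hw hc]
  have h2 := (ow_add_of_lt hw (a := -algebraMap k M c) (b := a) h0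
    (Or.inr (by rw [h1]; exact ha))).2
  rw [h1] at h2
  rw [sub_eq_neg_add]
  exact h2

theorem ev_spec (hw : IsPl k w) {x : M} (hx : x ∈ w) :
    x - algebraMap k M (ev k w x) ∈ w.nonunits := by
  unfold ev
  have h : x ∈ w ∧ ∃ c : k, x - algebraMap k M c ∈ w.nonunits := ⟨hx, hw.res x hx⟩
  rw [dif_pos h]
  exact h.2.choose_spec

private theorem nu_mem {x : M} (h : x ∈ w.nonunits) : x ∈ w := w.nonunits_subset h

private theorem const_nu (hw : IsPl k w) {c : k} (h : algebraMap k M c ∈ w.nonunits) : c = 0 := by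
  by_contra hc
  have h0 : algebraMap k M c ≠ 0 := fun h1 => hc ((map_eq_zero (algebraMap k M)).1 h1)
  rw [nonunit_iff hw h0, ow_const hw hc] at h
  exact lt_irrefl _ h

theorem ev_unique (hw : IsPl k w) {x : M} {c : k} (h : x - algebraMap k M c ∈ w.nonunits) :
    ev k w x = c := by
  have hx : x ∈ w := by
    have h1 := w.add_mem _ _ (nu_mem h) (hw.alg c)
    rwa [sub_add_cancel] at h1
  have h2 := ev_spec hw hx
  have h3 : algebraMap k M (ev k w x - c) ∈ w.nonunits := by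
    have h4 := w.nonunits.sub_mem h h2
    have h5 : x - algebraMap k M c - (x - algebraMap k M (ev k w x)) =
        algebraMap k M (ev k w x - c) := by
      rw [map_sub]; ring
    rwa [h5] at h4
  have := const_nu hw h3
  exact sub_eq_zero.1 this

theorem ev_not_mem {x : M} (hx : x ∉ w) : ev k w x = 0 := by
  unfold ev
  rw [dif_neg]
  exact fun h => hx h.1

theorem ev_const (hw : IsPl k w) (c : k) : ev k w (algebraMap k M c) = c :=
  ev_unique hw (by rw [sub_self]; exact w.nonunits.zero_mem)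

theorem ev_zero (hw : IsPl k w) : ev k w (0 : M) = 0 := by
  have := ev_const hw (0 : k)
  rwa [map_zero] at this

theorem ev_one (hw : IsPl k w) : ev k w (1 : M) = 1 := by
  have := ev_const hw (1 : k)
  rwa [map_one] at this

theorem ev_add (hw : IsPl k w) {x y : M} (hx : x ∈ w) (hy : y ∈ w) :
    ev k w (x + y) = ev k w x + ev k w y := by
  apply ev_unique hw
  have h := w.nonunits.add_mem (ev_spec hw hx) (ev_spec hw hy)
  have h2 : x - algebraMap k M (ev k w x) + (y - algebraMap k M (ev k w y)) =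
      x + y - algebraMap k M (ev k w x + ev k w y) := by
    rw [map_add]; ring
  rwa [h2] at h

theorem ev_neg (hw : IsPl k w) {x : M} (hx : x ∈ w) : ev k w (-x) = - ev k w x := by
  apply ev_unique hw
  have h := w.nonunits.neg_mem (ev_spec hw hx)
  have h2 : -(x - algebraMap k M (ev k w x)) = -x - algebraMap k M (-ev k w x) := by
    rw [map_neg]; ring
  rwa [h2] at h

theorem ev_sub (hw : IsPl k w) {x y : M} (hx : x ∈ w) (hy : y ∈ w) :
    ev k w (x - y) = ev k w x - ev k w y := by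
  rw [sub_eq_add_neg, ev_add hw hx (w.neg_mem _ hy), ev_neg hw hy, sub_eq_add_neg]

theorem nonunits_mul (hw : IsPl k w) {x y : M} (hx : x ∈ w.nonunits) (hy : y ∈ w) :
    x * y ∈ w.nonunits := by
  by_cases hx0 : x = 0
  · rw [hx0, zero_mul]; exact w.nonunits.zero_mem
  by_cases hy0 : y = 0
  · rw [hy0, mul_zero]; exact w.nonunits.zero_mem
  rw [nonunit_iff hw hx0] at hx
  rw [mem_iff hw hy0] at hy
  rw [nonunit_iff hw (mul_ne_zero hx0 hy0), ow_mul hw hx0 hy0]
  linarith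

theorem ev_mul (hw : IsPl k w) {x y : M} (hx : x ∈ w) (hy : y ∈ w) :
    ev k w (x * y) = ev k w x * ev k w y := by
  apply ev_unique hw
  have h1 := nonunits_mul hw (ev_spec hw hx) hy
  have h2 := nonunits_mul hw (ev_spec hw hy) (hw.alg (ev k w x))
  have h := w.nonunits.add_mem h1 h2
  have h3 : (x - algebraMap k M (ev k w x)) * y +
      (y - algebraMap k M (ev k w y)) * algebraMap k M (ev k w x) =
      x * y - algebraMap k M (ev k w x * ev k w y) := by
    rw [map_mul]; ring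
  rwa [h3] at h

theorem ev_pow (hw : IsPl k w) {x : M} (hx : x ∈ w) (n : ℕ) :
    ev k w (x ^ n) = ev k w x ^ n := by
  induction n with
  | zero => rw [pow_zero, pow_zero, ev_one hw]
  | succ n ih => rw [pow_succ, pow_succ, ev_mul hw (pow_mem hx n) hx, ih]

theorem ev_eq_zero_iff (hw : IsPl k w) {x : M} (hx : x ∈ w) : ev k w x = 0 ↔ x ∈ w.nonunits := by
  constructor
  · intro h
    have h1 := ev_spec hw hx
    rwa [h, map_zero, sub_zero] at h1
  · intro h
    apply ev_unique hw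
    rwa [map_zero, sub_zero]

theorem ev_inv (hw : IsPl k w) {x : M} (hx : x ∈ w) (h : ev k w x ≠ 0) :
    x⁻¹ ∈ w ∧ ev k w x⁻¹ = (ev k w x)⁻¹ := by
  have h1 : x ∉ w.nonunits := fun h2 => h ((ev_eq_zero_iff hw hx).2 h2)
  rw [ValuationSubring.mem_nonunits_iff_or, not_or, not_not] at h1
  refine ⟨h1.2, ?_⟩
  have h2 := ev_mul hw hx h1.2
  rw [mul_inv_cancel₀ h1.1, ev_one hw] at h2
  exact eq_inv_of_mul_eq_one_right h2.symm

theorem ev_div (hw : IsPl k w) {x y : M} (hx : x ∈ w) (hy : y ∈ w) (h : ev k w y ≠ 0) :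
    x / y ∈ w ∧ ev k w (x / y) = ev k w x / ev k w y := by
  obtain ⟨h1, h2⟩ := ev_inv hw hy h
  rw [div_eq_mul_inv, div_eq_mul_inv]
  exact ⟨w.mul_mem _ _ hx h1, by rw [ev_mul hw hx h1, h2]⟩

theorem decomp (hw : IsPl k w) {τ : M} (hτ : ow w τ = 1) {x : M} (hx : x ∈ w) :
    ∃ f ∈ w, x = algebraMap k M (ev k w x) + τ * f := by
  have hτ0 : τ ≠ 0 := by
    intro h
    rw [h, ow_zero] at hτ
    exact zero_ne_one hτ
  have h1 := ev_spec hw hx
  refine ⟨(x - algebraMap k M (ev k w x)) / τ, ?_, ?_⟩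
  · by_cases h0 : x - algebraMap k M (ev k w x) = 0
    · rw [h0, zero_div]; exact w.zero_mem
    · rw [nonunit_iff hw h0] at h1
      rw [mem_iff hw (div_ne_zero h0 hτ0), ow_div hw h0 hτ0, hτ]
      linarith
  · rw [mul_div_cancel₀ _ hτ0]
    ring

/-- different places are incomparable -/
theorem IsPl.eq_of_le {w' : ValuationSubring M} (hw : IsPl k w) (hw' : IsPl k w') (h : w ≤ w') :
    w = w' := by
  refine le_antisymm h ?_
  intro x hx
  by_contra hxw
  have hx0 : x ≠ 0 := by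
    intro h0
    exact hxw (by rw [h0]; exact w.zero_mem)
  have h1 : ow w x < 0 := by
    rw [mem_iff hw hx0] at hxw
    exact not_le.1 hxw
  have hall : ∀ y : M, y ∈ w' := by
    intro y
    by_cases hy : y = 0
    · rw [hy]; exact w'.zero_mem
    have hp : x ^ (ow w y).natAbs ≠ 0 := pow_ne_zero _ hx0
    have h2 : y / x ^ (ow w y).natAbs ∈ w := by
      rw [mem_iff hw (div_ne_zero hy hp), ow_div hw hy hp, ow_pow hw hx0]
      have h3 : -((ow w y).natAbs : ℤ) ≤ ow w y := by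
        have := neg_abs_le (ow w y)
        rwa [Int.abs_eq_natAbs] at this
      have h4 : (0 : ℤ) ≤ ((ow w y).natAbs : ℤ) := Int.natCast_nonneg _
      nlinarith
    have h5 : y = (y / x ^ (ow w y).natAbs) * x ^ (ow w y).natAbs := by
      rw [div_mul_cancel₀ _ hp]
    rw [h5]
    exact w'.mul_mem _ _ (h h2) (pow_mem hx _)
  obtain ⟨τ, hτ0, hτ⟩ := exists_unif hw'
  have h6 := hall τ⁻¹
  rw [mem_iff hw' (inv_ne_zero hτ0), ow_inv hw' hτ0, hτ] at h6
  linarith

/-- an element of a place which is algebraic over `k` is a constant (`k` algebraically closed) -/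
theorem const_of_algebraic [IsAlgClosed k] {x : M} (hx : IsAlgebraic k x) :
    ∃ c : k, x = algebraMap k M c := by
  have hi : IsIntegral k x := hx.isIntegral
  have h1 : (minpoly k x).degree = 1 :=
    IsAlgClosed.degree_eq_one_of_irreducible k (minpoly.irreducible hi)
  obtain ⟨c, hc⟩ := minpoly.mem_range_of_degree_eq_one k x h1
  exact ⟨c, hc.symm⟩

end HB.Pl
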