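import Pool.Agent.HB.A.Places
import Pool.Agent.HB.Pl.Basic

/-!
# PL-Center: every place of the function field of a curve has a unique centre on the curve
-/

set_option autoImplicit false

open IsLocalRing

namespace HB

universe u

namespace Pl

theorem IsPl.ne_top {k M : Type u} [Field k] [Field M] [Algebra k M] {w : ValuationSubring M}
    (hw : IsPl k w) : w ≠ ⊤ := by
  rintro rfl
  obtain ⟨τ, h0, h1⟩ := exists_unif hw
  have h2 : τ⁻¹ ∈ (⊤ : ValuationSubring M) := ValuationSubring.mem_top _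
  rw [mem_iff hw (inv_ne_zero h0), ow_inv hw h0, h1] at h2
  omega

theorem domi_iff {k M : Type u} [Field k] [Field M] [Algebra k M] {w : ValuationSubring M}
    (hw : IsPl k w) (R : Subring M) :
    Domi w R ↔ R ≤ w.toSubring ∧ ∀ x ∈ R, x⁻¹ ∈ w → x⁻¹ ∈ R := by
  constructor
  · rintro ⟨h1, h2⟩
    refine ⟨h1, fun x hx hx' => ?_⟩
    by_contra hn
    have h3 := h2 x hx hn
    have h0 : x ≠ 0 := by
      rintro rfl
      apply hn
      rw [inv_zero]
      exact R.zero_mem
    rw [nonunit_iff hw h0] at h3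
    rw [mem_iff hw (inv_ne_zero h0), ow_inv hw h0] at hx'
    omega
  · rintro ⟨h1, h2⟩
    refine ⟨h1, fun x hx hn => ?_⟩
    have h0 : x ≠ 0 := by
      rintro rfl
      apply hn
      rw [inv_zero]
      exact R.zero_mem
    rw [nonunit_iff hw h0]
    have h3 : 0 ≤ ow w x := (mem_iff hw h0).1 (h1 hx)
    by_contra h4
    have h5 : ow w x = 0 := by omega
    apply hn
    apply h2 x hx
    rw [mem_iff hw (inv_ne_zero h0), ow_inv hw h0]
    omega

end Pl

namespace Surf

variable {k L : Type u} [Field k] [Field L] [Algebra k L] {S : Surf k L}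
  [CharZero k] [IsAlgClosed k]

theorem PD.exists_unique_center (C : S.PD) (w : ValuationSubring C.kap) (hw : Pl.IsPl k w) :
    ∃! P : S.Pt, On P C ∧ Pl.Domi w (C.loc P) := by
  obtain ⟨P, hP, h⟩ := C.exists_centre_place w hw.alg hw.ne_top
  refine ⟨P, ⟨hP, (Pl.domi_iff hw _).2 h⟩, ?_⟩
  rintro Q ⟨hQ, h'⟩
  obtain ⟨h3, h4⟩ := (Pl.domi_iff hw _).1 h'
  exact C.centre_place_unique w hw.ne_top Q P hQ hP h3 h4 h.1 h.2

end Surf

end HB
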