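import Pool.Agent.HB.Pl.KapA

/-!
# PL-KapB: the function field of a curve on a surface is a function field of one variable

Plan.
* `FF1.finite_adjoin` (general): `g₀` transcendental with `M / k(g₀)` finite. `g` is algebraic over
  `k(g₀)` and transcendental over `k`, so `g₀` is algebraic over `k(g)` (exchange: a nonzero
  polynomial `F(g₀, g) = 0`; or Mathlib's transcendence bases: `{g₀}` is a transcendence basis, so `{g}` is one,
  e.g. through `Algebra.trdeg` and `IsTranscendenceBasis`). `M` is finitely generated as a field over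
  `k(g)` (`M = k(g₀)(b_1, ..., b_n)`), with algebraic generators, so finite
  (`IntermediateField.finiteDimensional_adjoin`).
* `PD.ff1`: `C.exists_chart`, `ne_zero_of_mem`, `PD.ofPrime_of_chart` (`C.1 = ofPrime (S.chart l) p`,
  `p.height = 1`, so `p ≠ ⊥`). `S.chart l` is integral over `S.base l` and a domain, so `p ∩ S.base l ≠ 0`
  (`Ideal.comap_ne_bot_of_integral_mem` or similar). `S.base l = k[a, b]` with `a := m / l`, `b := n / l`
  (`S.exists_basis_V`, `S.base_eq`), so there is a nonzero polynomial `F` in two variables (`a, b` are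
  algebraically independent, `exists_basis_V`) with `F(ā, b̄) = 0` where `ā, b̄` are the residues. Everything in `C.kap`
  is algebraic over `k(ā, b̄)` (`PD.chi_frac` and integrality of `S.chart l` over `S.base l`). By
  `PD.transcendental` `ā` or `b̄` is transcendental over `k`, say `ā`; then the other one is algebraic over
  `k(ā)`. So `C.kap` is algebraic over `k(ā)` and finitely generated as a field (`PD.chi_fg`, `PD.chi_frac`), so
  finite over `k(ā)`.
-/

set_option autoImplicit false

open IsLocalRing

namespace HB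

universe u

private theorem fin_of_alg {k M : Type u} [Field k] [Field M] [Algebra k M]
    [Algebra.EssFiniteType k M] (g : M)
    (h : Algebra.IsAlgebraic (Algebra.adjoin k ({g} : Set M)) M) :
    FiniteDimensional (IntermediateField.adjoin k ({g} : Set M)) M := by
  have h1 : Algebra.IsAlgebraic (IntermediateField.adjoin k ({g} : Set M)) M :=
    IntermediateField.isAlgebraic_adjoin_iff_top.2 h
  have h2 : Algebra.EssFiniteType (IntermediateField.adjoin k ({g} : Set M)) M :=
    Algebra.EssFiniteType.of_comp k (IntermediateField.adjoin k ({g} : Set M)) M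
  exact Algebra.finite_of_essFiniteType_of_isAlgebraic

theorem Pl.FF1.finite_adjoin {k M : Type u} [Field k] [Field M] [Algebra k M] (hM : Pl.FF1 k M)
    (g : M) (hg : Transcendental k g) :
    FiniteDimensional (IntermediateField.adjoin k ({g} : Set M)) M := by
  obtain ⟨g0, hg0, hfin⟩ := hM
  have hess : Algebra.EssFiniteType k M := by
    have h1 : Algebra.EssFiniteType k (IntermediateField.adjoin k ({g0} : Set M)) :=
      IntermediateField.essFiniteType_iff.2 (IntermediateField.fg_adjoin_of_finite (Set.finite_singleton g0))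
    exact Algebra.EssFiniteType.comp k (IntermediateField.adjoin k ({g0} : Set M)) M
  have hb0 : IsTranscendenceBasis k (fun _ : Unit => g0) := by
    refine isTranscendenceBasis_iff_algebraicIndependent_isAlgebraic.2 ⟨?_, ?_⟩
    · rw [algebraicIndependent_unique_type_iff]
      exact hg0
    · rw [Set.range_const, ← IntermediateField.isAlgebraic_adjoin_iff_top]
      exact Algebra.IsAlgebraic.of_finite _ _
  have hind : AlgebraicIndependent k (fun _ : Unit => g) := by
    rw [algebraicIndependent_unique_type_iff]
    exact hg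
  have hb : IsTranscendenceBasis k (fun _ : Unit => g) :=
    hind.isTranscendenceBasis_of_lift_trdeg_le_of_finite hb0.lift_cardinalMk_eq_trdeg.ge
  apply fin_of_alg
  have h2 := hb.isAlgebraic
  rwa [Set.range_const] at h2

namespace Surf

variable {k L : Type u} [Field k] [Field L] [Algebra k L] {S : Surf k L}
  [CharZero k] [IsAlgClosed k]

theorem PD.ff1 (C : S.PD) : Pl.FF1 k C.kap := by
  classical
  obtain ⟨l, hl, h⟩ := C.exists_chart
  obtain ⟨hlV, h0⟩ := ne_zero_of_mem hl
  obtain ⟨p, hp, hh, e⟩ := C.ofPrime_of_chart hlV h0 h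
  obtain ⟨m, hm, n, hn, hV, hind⟩ := S.exists_basis_V hlV h0
  have hbase := S.base_eq h0 hV
  -- the restriction to the curve of the coordinates
  let a0 : S.chart l := ⟨m / l, S.div_mem_chart hm⟩
  let b0 : S.chart l := ⟨n / l, S.div_mem_chart hn⟩
  set a : C.kap := C.chi h a0 with ha
  set b : C.kap := C.chi h b0 with hb
  -- the residue of an element of `p`
  have hker : ∀ y ∈ p, C.chi h y = 0 := by
    intro y hy
    rw [PD.chi_apply, residue_eq_zero_iff, mem_maximalIdeal]
    intro hu
    obtain ⟨c, hc⟩ := hu.exists_right_inv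
    have h2 : (y : L) * (c : L) = 1 := congrArg Subtype.val hc
    have hy0 : (y : L) ≠ 0 := left_ne_zero_of_mul_eq_one h2
    refine notMem_of_inv_mem (S.chart l) p hy0 ?_ hy
    rw [← e, inv_eq_of_mul_eq_one_right h2]
    exact c.2
  -- a relation
  have hpbot : p ≠ ⊥ := by
    intro hp0
    have h1 : (⊥ : Ideal (S.chart l)).height = 0 := Ideal.height_bot
    rw [hp0, h1] at hh
    exact zero_ne_one hh
  have hcomap : p.comap (algebraMap (S.base l) (S.chart l)) ≠ ⊥ := by
    obtain ⟨y, hy, hy0⟩ := Submodule.exists_mem_ne_zero_of_ne_bot hpbot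
    exact Ideal.comap_ne_bot_of_integral_mem hy0 hy (Algebra.IsIntegral.isIntegral y)
  obtain ⟨y, hy, hy0⟩ := Submodule.exists_mem_ne_zero_of_ne_bot hcomap
  have hbase' : ∀ x : L, x ∈ S.base l → x ∈ Algebra.adjoin k ({m / l, n / l} : Set L) := by
    intro x hx
    rw [hbase] at hx
    exact hx
  have hymem : (y : L) ∈ Algebra.adjoin k ({m / l, n / l} : Set L) := hbase' _ y.2
  have hrange : ∀ {K : Type u} (u v : K), Set.range ![u, v] = {u, v} := fun u v => by
    ext x
    simp [or_comm, eq_comm]
  obtain ⟨F, hF⟩ : ∃ F : MvPolynomial (Fin 2) k, MvPolynomial.aeval ![m / l, n / l] F = (y : L) := by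
    rw [← hrange, Algebra.adjoin_range_eq_range_aeval] at hymem
    exact hymem
  have hF0 : F ≠ 0 := by
    rintro rfl
    rw [map_zero] at hF
    exact hy0 (Subtype.ext hF.symm)
  have hFab : MvPolynomial.aeval ![a, b] F = 0 := by
    have h1 : (MvPolynomial.aeval ![a0, b0] F : S.chart l) =
        algebraMap (S.base l) (S.chart l) y := by
      apply Subtype.ext
      have h2 : ((MvPolynomial.aeval ![a0, b0] F : S.chart l) : L) =
          MvPolynomial.aeval ![m / l, n / l] F := by
        have h3 := MvPolynomial.aeval_algebraMap_apply L ![a0, b0] F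
        have h4 : (algebraMap (S.chart l) L ∘ ![a0, b0]) = ![m / l, n / l] := by
          ext i
          fin_cases i <;> rfl
        rw [h4] at h3
        exact h3.symm
      rw [h2, hF]
      rfl
    have h2 : MvPolynomial.aeval ![a, b] F = C.chi h (MvPolynomial.aeval ![a0, b0] F) := by
      rw [MvPolynomial.comp_aeval_apply]
      have h4 : (fun i => C.chi h (![a0, b0] i)) = ![a, b] := by
        ext i
        fin_cases i <;> rfl
      rw [h4]
    rw [h2, h1]
    exact hker _ hy
  -- everything is algebraic over the coordinates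
  have hchi : ∀ x : S.chart l, x.1 ∈ S.base l → C.chi h x ∈ Algebra.adjoin k ({a, b} : Set C.kap) := by
    intro x hx
    have hx' := hbase' _ hx
    obtain ⟨G, hG⟩ : ∃ G : MvPolynomial (Fin 2) k,
        MvPolynomial.aeval ![m / l, n / l] G = (x : L) := by
      rw [← hrange, Algebra.adjoin_range_eq_range_aeval] at hx'
      exact hx'
    have h1 : (MvPolynomial.aeval ![a0, b0] G : S.chart l) = x := by
      apply Subtype.ext
      have h3 := MvPolynomial.aeval_algebraMap_apply L ![a0, b0] G
      have h4 : (algebraMap (S.chart l) L ∘ ![a0, b0]) = ![m / l, n / l] := by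
        ext i
        fin_cases i <;> rfl
      rw [h4] at h3
      rw [← hG]
      exact h3.symm
    rw [← h1, MvPolynomial.comp_aeval_apply]
    have h4 : (fun i => C.chi h (![a0, b0] i)) = ![a, b] := by
      ext i
      fin_cases i <;> rfl
    rw [h4, ← hrange, Algebra.adjoin_range_eq_range_aeval]
    exact ⟨G, rfl⟩
  have hint : ∀ x : S.chart l,
      IsIntegral (Algebra.adjoin k ({a, b} : Set C.kap)) (C.chi h x) := by
    intro x
    let φ : S.base l →+* Algebra.adjoin k ({a, b} : Set C.kap) :=
      ((C.chi h).toRingHom.comp (algebraMap (S.base l) (S.chart l))).codRestrict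
        (Algebra.adjoin k ({a, b} : Set C.kap)).toSubring (fun y => hchi _ y.2)
    exact (Algebra.IsIntegral.isIntegral (R := S.base l) x).map_of_comp_eq φ (C.chi h).toRingHom
      (RingHom.ext fun y => rfl)
  have halg : Algebra.IsAlgebraic (Algebra.adjoin k ({a, b} : Set C.kap)) C.kap := by
    refine ⟨fun x => ?_⟩
    obtain ⟨⟨_, u, rfl⟩, ⟨_, v, rfl⟩, hv, huv⟩ := C.chi_frac hlV h0 h x
    have hv' : C.chi h v ≠ 0 := fun h0 => hv (Subtype.ext h0)
    have e1 : x = C.chi h u * (C.chi h v)⁻¹ := by
      rw [eq_mul_inv_iff_mul_eq₀ hv']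
      exact huv
    rw [e1]
    exact (hint u).isAlgebraic.mul (hint v).isAlgebraic.inv
  obtain ⟨t, hts, ht⟩ := exists_isTranscendenceBasis_subset (R := k) ({a, b} : Set C.kap)
  have hsub : t.Subsingleton := by
    intro u hu v hv
    by_contra huv
    have h1 : a ∈ t ∧ b ∈ t ∧ a ≠ b := by
      have hu' := hts hu
      have hv' := hts hv
      rcases hu' with rfl | rfl <;> rcases hv' with rfl | rfl
      · exact absurd rfl huv
      · exact ⟨hu, hv, huv⟩
      · exact ⟨hv, hu, Ne.symm huv⟩
      · exact absurd rfl huv
    obtain ⟨hat, hbt, hab⟩ := h1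
    have h2 : AlgebraicIndependent k ![a, b] := by
      have h3 := ht.1.comp ![(⟨a, hat⟩ : t), ⟨b, hbt⟩] (by
        intro i j hij
        fin_cases i <;> fin_cases j
        · rfl
        · exact absurd (congrArg Subtype.val hij) hab
        · exact absurd (congrArg Subtype.val hij).symm hab
        · rfl)
      have h4 : ((Subtype.val : t → C.kap) ∘ ![(⟨a, hat⟩ : t), ⟨b, hbt⟩]) = ![a, b] := by
        ext i
        fin_cases i <;> rfl
      rwa [h4] at h3
    exact hF0 (h2.eq_zero_of_aeval_eq_zero F hFab)
  have hne : Nonempty t := by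
    rw [ht.nonempty_iff_transcendental]
    exact ⟨C.transcendental⟩
  obtain ⟨⟨g, hg⟩⟩ := hne
  have htg : t = {g} := hsub.eq_singleton_of_mem hg
  have hess : Algebra.EssFiniteType k C.kap := by
    have h1 : Algebra.FiniteType k (C.chi h).range :=
      (Subalgebra.fg_iff_finiteType _).1 (C.chi_fg hlV h0 h)
    have h2 : IsFractionRing (C.chi h).range C.kap := by
      refine IsFractionRing.of_field _ _ fun x => ?_
      obtain ⟨u, v, hv, huv⟩ := C.chi_frac hlV h0 h x
      refine ⟨u, v, ?_⟩
      have hv' : (v : C.kap) ≠ 0 := fun h0 => hv (Subtype.ext h0)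
      show x = (u : C.kap) / (v : C.kap)
      rw [eq_div_iff hv', huv]
    have h3 : Algebra.EssFiniteType (C.chi h).range C.kap :=
      Algebra.EssFiniteType.of_isLocalization _ (nonZeroDivisors (C.chi h).range)
    exact Algebra.EssFiniteType.comp k (C.chi h).range C.kap
  subst htg
  refine ⟨g, ht.1.transcendental ⟨g, rfl⟩, ?_⟩
  apply fin_of_alg
  have h2 := ht.isAlgebraic
  rwa [Subtype.range_coe] at h2

end Surf

end HB
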