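import Mathlib

/-!
# PL-RatConst: a rational function on the projective line without poles is constant

Plan. `x = a(g) / b(g)` with coprime polynomials (`IntermediateField.mem_adjoin_simple_iff`), `b` monic. If
`b` has a root `c` (`k` algebraically closed), then with `p, q` for `c`:
`a(g) * q(g - c) = p(g - c) * b(g)` is an identity of polynomials (transcendence of `g`, use
`Polynomial.comp (X - C c)`), evaluating at `c` gives `a(c) q(0) = 0`, so `a(c) = 0`, contradicting
coprimality. So `b` is constant and `x = a(g)`. At infinity: `a(g) q(1/g) = p(1/g)`; multiply by `g ^ N`: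
`a * (reverse q) * X ^ .. = (reverse p) * X ^ ..`; comparing degrees (`q(0) ≠ 0`) gives `natDegree a = 0`.
-/

set_option autoImplicit false

open Polynomial IntermediateField

namespace HB.Pl

universe u

theorem rat_const {k M : Type u} [Field k] [IsAlgClosed k] [Field M] [Algebra k M] (g : M)
    (hg : Transcendental k g) (x : M) (hx : x ∈ IntermediateField.adjoin k ({g} : Set M))
    (h : ∀ c : k, ∃ p q : k[X], q.eval 0 ≠ 0 ∧
      x * aeval (g - algebraMap k M c) q = aeval (g - algebraMap k M c) p)
    (hi : ∃ p q : k[X], q.eval 0 ≠ 0 ∧ x * aeval g⁻¹ q = aeval g⁻¹ p) :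
    ∃ c : k, x = algebraMap k M c := by
  classical
  have hinj : Function.Injective (aeval g : k[X] →ₐ[k] M) := transcendental_iff_injective.1 hg
  have hne : ∀ f : k[X], f ≠ 0 → aeval g f ≠ 0 := by
    intro f hf h0
    exact hf (hinj (by simpa using h0))
  obtain ⟨r, s, hrs⟩ := (IntermediateField.mem_adjoin_simple_iff k x).1 hx
  by_cases hs : s = 0
  · exact ⟨0, by simp [hrs, hs]⟩
  -- coprime representation
  obtain ⟨r', s', hs', hcop, hx'⟩ : ∃ r' s' : k[X], s' ≠ 0 ∧ IsCoprime r' s' ∧
      x * aeval g s' = aeval g r' := by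
    obtain ⟨d, u, v, r', s', hd, hr', hs', hab⟩ : ∃ d u v r' s' : k[X], d ≠ 0 ∧ r = d * r' ∧
        s = d * s' ∧ d = r * u + s * v := by
      obtain ⟨r', hr'⟩ := EuclideanDomain.gcd_dvd_left r s
      obtain ⟨s', hs'⟩ := EuclideanDomain.gcd_dvd_right r s
      exact ⟨EuclideanDomain.gcd r s, _, _, r', s',
        fun h0 => hs (EuclideanDomain.gcd_eq_zero_iff.1 h0).2, hr', hs',
        EuclideanDomain.gcd_eq_gcd_ab r s⟩
    refine ⟨r', s', ?_, ?_, ?_⟩
    · rintro rfl
      exact hs (by rw [hs', mul_zero])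
    · refine ⟨u, v, ?_⟩
      have h2 : d * (u * r' + v * s') = d * 1 := by
        rw [mul_one]
        calc d * (u * r' + v * s') = (d * r') * u + (d * s') * v := by ring
          _ = r * u + s * v := by rw [← hr', ← hs']
          _ = d := hab.symm
      exact mul_left_cancel₀ hd h2
    · have hs0 : aeval g s ≠ 0 := hne s hs
      have h3 : x * aeval g s = aeval g r := by
        rw [hrs, div_mul_cancel₀ _ hs0]
      rw [hr', hs', map_mul, map_mul] at h3
      have h4 : aeval g d * (x * aeval g s') = aeval g d * aeval g r' := by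
        rw [← h3]; ring
      exact mul_left_cancel₀ (hne _ hd) h4
  have hroot : ∀ c : k, s'.eval c ≠ 0 := by
    intro c hc
    obtain ⟨p, q, hq, hpq⟩ := h c
    have e1 : ∀ f : k[X], aeval (g - algebraMap k M c) f = aeval g (f.comp (X - C c)) := by
      intro f
      rw [aeval_comp]
      simp
    rw [e1, e1] at hpq
    have h5 : aeval g (r' * q.comp (X - C c)) = aeval g (p.comp (X - C c) * s') := by
      rw [map_mul, map_mul, ← hpq, ← hx']
      ring
    have h6 := congrArg (eval c) (hinj h5)
    rw [eval_mul, eval_mul, hc, mul_zero, eval_comp] at h6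
    have h7 : r'.eval c = 0 := by
      rcases mul_eq_zero.1 h6 with h8 | h8
      · exact h8
      · exfalso
        apply hq
        simpa using h8
    obtain ⟨u, v, huv⟩ := hcop
    have h9 := congrArg (eval c) huv
    simp [h7, hc] at h9
  have hdeg : s'.degree = 0 := by
    by_contra hd
    obtain ⟨c, hc⟩ := IsAlgClosed.exists_root s' hd
    exact hroot c hc
  obtain ⟨b, hb⟩ : ∃ b : k, s' = C b := ⟨_, eq_C_of_degree_eq_zero hdeg⟩
  have hb0 : b ≠ 0 := by
    rintro rfl
    exact hs' (by simpa using hb)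
  obtain ⟨a, ha⟩ : ∃ a : k[X], x = aeval g a := by
    refine ⟨C b⁻¹ * r', ?_⟩
    rw [map_mul, ← hx', hb]
    simp only [aeval_C]
    have : algebraMap k M b ≠ 0 := (map_ne_zero (algebraMap k M)).2 hb0
    rw [map_inv₀]
    field_simp
  obtain ⟨p, q, hq, hpq⟩ := hi
  have hg0 : g ≠ 0 := by
    rintro rfl
    exact hg (isAlgebraic_zero)
  set N := max p.natDegree q.natDegree with hN
  have e2 : ∀ f : k[X], f.natDegree ≤ N → aeval g (reflect N f) = aeval g⁻¹ f * g ^ N := by
    intro f hf
    let _ : Invertible g⁻¹ := invertibleOfNonzero (inv_ne_zero hg0)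
    have h1 := eval₂_reflect_mul_pow (algebraMap k M) g⁻¹ N f hf
    have h2 : ⅟(g⁻¹) = g := by simp
    rw [h2] at h1
    rw [aeval_def, aeval_def, ← h1, mul_assoc, ← mul_pow, inv_mul_cancel₀ hg0, one_pow, mul_one]
  have h10 : a * reflect N q = reflect N p := by
    apply hinj
    rw [map_mul, e2 q (le_max_right _ _), e2 p (le_max_left _ _), ← hpq, ha]
    ring
  by_cases ha0 : a = 0
  · exact ⟨0, by rw [ha, ha0]; simp⟩
  have hq' : (reflect N q).coeff N = q.eval 0 := by
    rw [coeff_reflect, revAt_le le_rfl, Nat.sub_self, coeff_zero_eq_eval_zero]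
  have hqn : N ≤ (reflect N q).natDegree := le_natDegree_of_ne_zero (by rw [hq']; exact hq)
  have hq0 : reflect N q ≠ 0 := by
    intro h0
    rw [h0] at hq'
    exact hq (by simpa using hq'.symm)
  have hpn : (reflect N p).natDegree ≤ N := by
    rw [natDegree_le_iff_coeff_eq_zero]
    intro m hm
    rw [coeff_reflect, revAt_eq_self_of_lt hm]
    exact coeff_eq_zero_of_natDegree_lt (lt_of_le_of_lt (le_max_left _ _) hm)
  have h11 : a.natDegree + (reflect N q).natDegree = (reflect N p).natDegree := by
    rw [← h10, natDegree_mul ha0 hq0]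
  have h12 : a.natDegree = 0 := by omega
  obtain ⟨c, hc⟩ := natDegree_eq_zero.1 h12
  exact ⟨c, by rw [ha, ← hc, aeval_C]⟩

end HB.Pl
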