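import Pool.Agent.HB.Pl.TraceRat
import Pool.Agent.HB.Pl.RatConst

/-!
# PL-RT: the residue theorem in the form needed

Plan. `F := k(g)`, `x := trace_{M/F} A`. For every `c : k` `trace_rat` with `h = g - c`
(`k(g - c) = k(g)`): if `c = 0`, `A ∈ w` for all `w ∈ W_0` by `h1` (`ow w g > 0`), get `p₀, q₀`. If `c ≠ 0`: apply
`trace_rat` to `a := (g - c) * A`: for `w ∈ W_c`, `a = 0` or `0 < ow w a` by `h2`, so `a ∈ w`, `ev k w a = 0`, hence
`p(0) = 0`, `p = X p₁`, and `trace a = (g - c) trace A` (`g - c ∈ F`), so `x * q(g - c) = p₁(g - c)`. At infinity: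
`h = g⁻¹`, `k(g⁻¹) = k(g)`, `ow w g⁻¹ = - ow w g > 0`: `A ∈ w` by `h1`, get `p_∞, q_∞`. By `rat_const` `x = c₀` is
constant; comparing `c₀ q₀(g) = p₀(g)`, so `c₀ q₀ = p₀` as polynomials and at `0`:
`c₀ = ∑_{W_0} ow w g * ev A`; likewise `c₀ = ∑_{W_∞} (- ow w g) * ev A`. `W := W_0 ∪ W_∞` (disjoint).
-/

set_option autoImplicit false

open Polynomial IntermediateField

namespace HB.Pl

universe u

private theorem adjoin_sub {k M : Type u} [Field k] [Field M] [Algebra k M] (g : M) (c : k) :
    IntermediateField.adjoin k ({g} : Set M) =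
      IntermediateField.adjoin k ({g - algebraMap k M c} : Set M) := by
  apply le_antisymm
  · rw [IntermediateField.adjoin_simple_le_iff]
    have h1 := IntermediateField.mem_adjoin_simple_self k (g - algebraMap k M c)
    have h2 := (IntermediateField.adjoin k ({g - algebraMap k M c} : Set M)).algebraMap_mem c
    have h3 := add_mem h1 h2
    rwa [sub_add_cancel] at h3
  · rw [IntermediateField.adjoin_simple_le_iff]
    exact sub_mem (IntermediateField.mem_adjoin_simple_self k g)
      ((IntermediateField.adjoin k ({g} : Set M)).algebraMap_mem c)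

private theorem adjoin_inv' {k M : Type u} [Field k] [Field M] [Algebra k M] (g : M) :
    IntermediateField.adjoin k ({g} : Set M) =
      IntermediateField.adjoin k ({g⁻¹} : Set M) := by
  apply le_antisymm
  · rw [IntermediateField.adjoin_simple_le_iff]
    have h1 := inv_mem (IntermediateField.mem_adjoin_simple_self k (g⁻¹))
    rwa [inv_inv] at h1
  · rw [IntermediateField.adjoin_simple_le_iff]
    exact inv_mem (IntermediateField.mem_adjoin_simple_self k g)

private theorem trans_sub {k M : Type u} [Field k] [Field M] [Algebra k M] {g : M}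
    (hg : Transcendental k g) (c : k) : Transcendental k (g - algebraMap k M c) := by
  intro h
  apply hg
  have h2 := h.add (isAlgebraic_algebraMap (R := k) (A := M) c)
  rwa [sub_add_cancel] at h2

private theorem trans_inv {k M : Type u} [Field k] [Field M] [Algebra k M] {g : M}
    (hg : Transcendental k g) : Transcendental k g⁻¹ := by
  intro h
  apply hg
  have h2 := h.inv
  rwa [inv_inv] at h2

/-- comparison of a constant with the value of a rational function at `0` -/
private theorem const_eq {k M : Type u} [Field k] [Field M] [Algebra k M] {h : M}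
    (ht : Transcendental k h) {x : M} {c₀ s : k} (hx : x = algebraMap k M c₀) {p q : k[X]}
    (hq : q.eval 0 ≠ 0) (he : x * aeval h q = aeval h p) (hp : p.eval 0 = q.eval 0 * s) :
    c₀ = s := by
  have h1 : aeval h (C c₀ * q - p) = 0 := by
    rw [map_sub, map_mul, aeval_C, ← hx, he, sub_self]
  have h2 : C c₀ * q - p = 0 := by
    by_contra hne
    exact ht ⟨_, hne, h1⟩
  have h3 : C c₀ * q = p := sub_eq_zero.1 h2
  rw [← h3, eval_mul, eval_C, mul_comm] at hp
  exact mul_left_cancel₀ hq hp

/-- The residue theorem: if `A` is regular at the zeros and poles of `g` and at a point where `g` takes a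
value `c ≠ 0` with multiplicity `e` has a pole of order at most `e - 1`, then the sum of the values of `A`
over the divisor of `g` is `0`. -/
theorem RT {k M : Type u} [Field k] [IsAlgClosed k] [CharZero k] [Field M] [Algebra k M] (g : M)
    (hg : Transcendental k g)
    [FiniteDimensional (IntermediateField.adjoin k ({g} : Set M)) M] (A : M)
    (h1 : ∀ w : ValuationSubring M, IsPl k w → ow w g ≠ 0 → A ∈ w)
    (h2 : ∀ w : ValuationSubring M, IsPl k w → ∀ c : k, c ≠ 0 → 0 < ow w (g - algebraMap k M c) →
      A = 0 ∨ - ow w (g - algebraMap k M c) < ow w A) :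
    ∃ W : Finset (ValuationSubring M), (∀ w, w ∈ W ↔ IsPl k w ∧ ow w g ≠ 0) ∧
      ∑ w ∈ W, (ow w g : k) * ev k w A = 0 := by
  classical
  have hg0 : g ≠ 0 := by
    rintro rfl
    exact hg (isAlgebraic_zero)
  set F := IntermediateField.adjoin k ({g} : Set M) with hF
  set x : M := ((Algebra.trace F M A : F) : M) with hx
  -- the zeros of `g`
  obtain ⟨W0, hW0, hT0⟩ := trace_rat F g rfl hg
  obtain ⟨p0, q0, hq0, he0, hp0⟩ := hT0 A (fun w hw => by
    have h := (hW0 w).1 hw
    exact h1 w h.1 h.2.ne')
  -- the poles of `g`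
  have hti := trans_inv hg
  obtain ⟨Wi, hWi, hTi⟩ := trace_rat F g⁻¹ (adjoin_inv' g) hti
  have hWi' : ∀ w ∈ Wi, IsPl k w ∧ ow w g < 0 := by
    intro w hw
    have h := (hWi w).1 hw
    rw [ow_inv h.1 hg0] at h
    exact ⟨h.1, by omega⟩
  obtain ⟨pi, qi, hqi, hei, hpi⟩ := hTi A (fun w hw => by
    have h := hWi' w hw
    exact h1 w h.1 h.2.ne)
  -- the other values
  have hc : ∀ c : k, ∃ p q : k[X], q.eval 0 ≠ 0 ∧
      x * aeval (g - algebraMap k M c) q = aeval (g - algebraMap k M c) p := by
    intro c
    by_cases hc0 : c = 0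
    · subst hc0
      refine ⟨p0, q0, hq0, ?_⟩
      rw [map_zero, sub_zero]
      exact he0
    · have htc := trans_sub hg c
      have hgc : g - algebraMap k M c ≠ 0 := by
        intro h0
        rw [h0] at htc
        exact htc isAlgebraic_zero
      have hmem : g - algebraMap k M c ∈ F :=
        sub_mem (IntermediateField.mem_adjoin_simple_self k g) (F.algebraMap_mem c)
      obtain ⟨Wc, hWc, hTc⟩ := trace_rat F (g - algebraMap k M c) (adjoin_sub g c) htc
      have hval : ∀ w ∈ Wc, (g - algebraMap k M c) * A ∈ w ∧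
          ev k w ((g - algebraMap k M c) * A) = 0 := by
        intro w hw
        have h := (hWc w).1 hw
        by_cases hA : A = 0
        · rw [hA, mul_zero]
          exact ⟨w.zero_mem, ev_zero h.1⟩
        · have h3 := (h2 w h.1 c hc0 h.2).resolve_left hA
          have h4 : (g - algebraMap k M c) * A ≠ 0 := mul_ne_zero hgc hA
          have h5 : 0 < ow w ((g - algebraMap k M c) * A) := by
            rw [ow_mul h.1 hgc hA]
            omega
          have h6 := (mem_iff h.1 h4).2 h5.le
          exact ⟨h6, (ev_eq_zero_iff h.1 h6).2 ((nonunit_iff h.1 h4).2 h5)⟩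
      obtain ⟨p, q, hq, he, hp⟩ := hTc ((g - algebraMap k M c) * A) fun w hw => (hval w hw).1
      have hp' : p.eval 0 = 0 := by
        rw [hp, Finset.sum_eq_zero, mul_zero]
        intro w hw
        rw [(hval w hw).2, mul_zero]
      have hX : X ∣ p := by
        rw [Polynomial.X_dvd_iff, coeff_zero_eq_eval_zero]
        exact hp'
      obtain ⟨p1, rfl⟩ := hX
      refine ⟨p1, q, hq, ?_⟩
      have htr : ((Algebra.trace F M ((g - algebraMap k M c) * A) : F) : M) =
          (g - algebraMap k M c) * x := by
        have h3 : (g - algebraMap k M c) * A = (⟨g - algebraMap k M c, hmem⟩ : F) • A := by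
          rw [Algebra.smul_def]
          rfl
        rw [h3, map_smul, hx]
        rfl
      rw [htr, map_mul, aeval_X, mul_assoc] at he
      exact mul_left_cancel₀ hgc he
  obtain ⟨c₀, hc₀⟩ := rat_const g hg x (Algebra.trace F M A : F).2 hc ⟨pi, qi, hqi, hei⟩
  have hs0 := const_eq hg hc₀ hq0 he0 hp0
  have hsi := const_eq hti hc₀ hqi hei hpi
  refine ⟨W0 ∪ Wi, ?_, ?_⟩
  · intro w
    rw [Finset.mem_union, hW0, hWi]
    constructor
    · rintro (h | h)
      · exact ⟨h.1, h.2.ne'⟩
      · refine ⟨h.1, ?_⟩
        have h3 := h.2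
        rw [ow_inv h.1 hg0] at h3
        omega
    · rintro ⟨h3, h4⟩
      rw [ow_inv h3 hg0]
      rcases lt_or_gt_of_ne h4 with h5 | h5
      · exact Or.inr ⟨h3, by omega⟩
      · exact Or.inl ⟨h3, h5⟩
  · rw [Finset.sum_union, ← hs0]
    · have h3 : ∑ w ∈ Wi, (ow w g : k) * ev k w A = - ∑ w ∈ Wi, (ow w g⁻¹ : k) * ev k w A := by
        rw [← Finset.sum_neg_distrib]
        refine Finset.sum_congr rfl fun w hw => ?_
        rw [ow_inv ((hWi w).1 hw).1 hg0]
        push_cast
        ring
      rw [h3, ← hsi, add_neg_cancel]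
    · rw [Finset.disjoint_left]
      intro w hw hw'
      have h3 := ((hW0 w).1 hw).2
      have h4 := (hWi' w hw').2
      omega

/-- The product formula (`A = 1` in `RT`; a rational integer which is zero in `k` is zero). For constant
`g` the set `W` is empty. -/
theorem sum_ow {k M : Type u} [Field k] [IsAlgClosed k] [CharZero k] [Field M] [Algebra k M]
    (g : M) (hg : Transcendental k g)
    [FiniteDimensional (IntermediateField.adjoin k ({g} : Set M)) M] :
    ∃ W : Finset (ValuationSubring M), (∀ w, w ∈ W ↔ IsPl k w ∧ ow w g ≠ 0) ∧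
      ∑ w ∈ W, ow w g = 0 := by
  obtain ⟨W, hW, hs⟩ := RT (k := k) g hg 1 (fun w _ _ => w.one_mem) (fun w hw c _ h => by
    right
    rw [ow_one hw]
    omega)
  refine ⟨W, hW, ?_⟩
  have h1 : ((∑ w ∈ W, ow w g : ℤ) : k) = 0 := by
    rw [← hs]
    push_cast
    refine Finset.sum_congr rfl fun w hw => ?_
    rw [ev_one ((hW w).1 hw).1, mul_one]
  exact_mod_cast h1

end HB.Pl
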