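import Pool.Agent.HB.Pl.LN
import Pool.Agent.HB.Pl.RT
import Pool.Agent.HB.Pl.KapB
import Pool.Agent.HB.Pl.Center

/-!
# PL-Sum: divisors of functions on a curve and the places of its function field
-/

set_option autoImplicit false

open IsLocalRing

namespace HB

universe u

namespace Surf

variable {k L : Type u} [Field k] [Field L] [Algebra k L] {S : Surf k L}
  [CharZero k] [IsAlgClosed k]

/-- The order at a point of a curve is the sum of the orders at the places over the point. -/
theorem PD.ordS_eq_sum (C : S.PD) (P : S.Pt) (h : On P C) :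
    ∃ W : Finset (ValuationSubring C.kap), W.Nonempty ∧
      (∀ w, w ∈ W ↔ Pl.IsPl k w ∧ Pl.Domi w (C.loc P)) ∧
      ∀ g : C.kap, g ≠ 0 → ordS (C.loc P) g = ∑ w ∈ W, Pl.ow w g :=
  Pl.LN C.ff1 _ (C.isCurveLoc P h)

/-- The zeros and poles of a nonzero function on a curve are finite in number and their orders add up
to zero. -/
theorem PD.sum_ow (C : S.PD) {g : C.kap} (hg : g ≠ 0) :
    ∃ W : Finset (ValuationSubring C.kap), (∀ w, w ∈ W ↔ Pl.IsPl k w ∧ Pl.ow w g ≠ 0) ∧
      ∑ w ∈ W, Pl.ow w g = 0 := by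
  by_cases ht : Transcendental k g
  · have := C.ff1.finite_adjoin g ht
    exact Pl.sum_ow (k := k) g ht
  · obtain ⟨c, rfl⟩ := Pl.const_of_algebraic (k := k) (x := g) (not_not.1 ht)
    have hc : c ≠ 0 := by
      rintro rfl
      exact hg (map_zero _)
    refine ⟨∅, fun w => ?_, Finset.sum_empty⟩
    simp only [Finset.notMem_empty, false_iff, not_and, not_not]
    intro hw
    exact Pl.ow_const hw hc

/-- A sum over the divisor of a function on a curve is a sum over the places of its function field. -/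
theorem PD.sum_div (C : S.PD) {g : C.kap} (hg : g ≠ 0) {z : S.Z0} (hz : S.IsDivOn C g z)
    (W : Finset (ValuationSubring C.kap)) (hW : ∀ w, w ∈ W ↔ Pl.IsPl k w ∧ Pl.ow w g ≠ 0)
    {E : Type*} [DivisionRing E] [CharZero E] (φ : S.Pt → E) (ψ : ValuationSubring C.kap → E)
    (h : ∀ w P, Pl.IsPl k w → Pl.ow w g ≠ 0 → On P C → Pl.Domi w (C.loc P) → ψ w = φ P) :
    z.sum (fun P q => (q : E) * φ P) = ∑ w ∈ W, (Pl.ow w g : E) * ψ w := by
  classical
  let c : ValuationSubring C.kap → S.Pt := fun w =>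
    if hw : Pl.IsPl k w then (C.exists_unique_center w hw).choose else C.exists_point.choose
  have hc : ∀ w, Pl.IsPl k w → On (c w) C ∧ Pl.Domi w (C.loc (c w)) := by
    intro w hw
    have h1 := (C.exists_unique_center w hw).choose_spec.1
    simp only [c, dif_pos hw]
    exact h1
  have hcu : ∀ w, Pl.IsPl k w → ∀ P, On P C → Pl.Domi w (C.loc P) → P = c w := by
    intro w hw P hP hd
    exact (C.exists_unique_center w hw).unique ⟨hP, hd⟩ (hc w hw)
  have h1 : ∑ w ∈ W, (Pl.ow w g : E) * ψ w = ∑ w ∈ W, (Pl.ow w g : E) * φ (c w) := by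
    refine Finset.sum_congr rfl fun w hw => ?_
    obtain ⟨hw1, hw2⟩ := (hW w).1 hw
    rw [h w (c w) hw1 hw2 (hc w hw1).1 (hc w hw1).2]
  set T : Finset S.Pt := z.support ∪ W.image c with hT
  have h2 : ∑ w ∈ W, (Pl.ow w g : E) * φ (c w) =
      ∑ P ∈ T, ∑ w ∈ W with c w = P, (Pl.ow w g : E) * φ (c w) := by
    refine (Finset.sum_fiberwise_of_maps_to (fun w hw => ?_) _).symm
    exact Finset.mem_union_right _ (Finset.mem_image_of_mem _ hw)
  have h3 : z.sum (fun P q => (q : E) * φ P) = ∑ P ∈ T, ((z P : ℚ) : E) * φ P := by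
    refine Finsupp.sum_of_support_subset _ (Finset.subset_union_left) _ ?_
    intro P _
    simp
  rw [h1, h2, h3]
  refine Finset.sum_congr rfl fun P _ => ?_
  have h4 : ∑ w ∈ W with c w = P, (Pl.ow w g : E) * φ (c w) =
      ((∑ w ∈ W with c w = P, Pl.ow w g : ℤ) : E) * φ P := by
    push_cast
    rw [Finset.sum_mul]
    refine Finset.sum_congr rfl fun w hw => ?_
    rw [(Finset.mem_filter.1 hw).2]
  rw [h4]
  congr 1
  by_cases hP : On P C
  · obtain ⟨WP, -, hWP, hs⟩ := C.ordS_eq_sum P hP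
    have h5 : ∑ w ∈ W with c w = P, Pl.ow w g = ∑ w ∈ WP, Pl.ow w g := by
      refine Finset.sum_subset_zero_on_sdiff ?_ ?_ (fun _ _ => rfl)
      · intro w hw
        obtain ⟨hw1, hw2⟩ := Finset.mem_filter.1 hw
        have hw3 := ((hW w).1 hw1).1
        rw [hWP]
        refine ⟨hw3, ?_⟩
        rw [← hw2]
        exact (hc w hw3).2
      · intro w hw
        obtain ⟨hw1, hw2⟩ := Finset.mem_sdiff.1 hw
        rw [hWP] at hw1
        by_contra h6
        apply hw2
        rw [Finset.mem_filter]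
        exact ⟨(hW w).2 ⟨hw1.1, h6⟩, (hcu w hw1.1 P hP hw1.2).symm⟩
    rw [h5, ← hs g hg, hz.1 P hP]
    simp
  · have h5 : (Finset.filter (fun w => c w = P) W) = ∅ := by
      rw [Finset.filter_eq_empty_iff]
      rintro w hw rfl
      exact hP (hc w ((hW w).1 hw).1).1
    rw [h5, hz.2 P hP]
    simp

/-- The residue theorem on a curve: if `A` is regular at the zeros and poles of `g`, with values `φ P`
at the places over `P`, and has at a point where `g` takes a value `c ≠ 0` with multiplicity `e` a pole of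
order at most `e - 1`, then the sum of `φ` over the divisor of `g` vanishes. -/
theorem PD.sum_val (C : S.PD) {g : C.kap} (ht : Transcendental k g) {z : S.Z0}
    (hz : S.IsDivOn C g z) (φ : S.Pt → k) (A : C.kap)
    (h1 : ∀ w P, Pl.IsPl k w → Pl.ow w g ≠ 0 → On P C → Pl.Domi w (C.loc P) →
      A ∈ w ∧ Pl.ev k w A = φ P)
    (h2 : ∀ w : ValuationSubring C.kap, Pl.IsPl k w → ∀ c : k, c ≠ 0 →
      0 < Pl.ow w (g - algebraMap k C.kap c) →
      A = 0 ∨ - Pl.ow w (g - algebraMap k C.kap c) < Pl.ow w A) :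
    z.sum (fun P q => (q : k) * φ P) = 0 := by
  have hg : g ≠ 0 := by
    rintro rfl
    exact ht isAlgebraic_zero
  have := C.ff1.finite_adjoin g ht
  obtain ⟨W, hW, hs⟩ := Pl.RT g ht A (fun w hw hw' => by
    obtain ⟨P, ⟨hP, hd⟩, -⟩ := C.exists_unique_center w hw
    exact (h1 w P hw hw' hP hd).1) h2
  rw [C.sum_div hg hz W hW φ (fun w => Pl.ev k w A) (fun w P hw hw' hP hd =>
    (h1 w P hw hw' hP hd).2), hs]

/-- The divisor of a constant function is zero. -/
theorem PD.isDivOn_const (C : S.PD) {c : k} (hc : c ≠ 0) {z : S.Z0}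
    (hz : S.IsDivOn C (algebraMap k C.kap c) z) : z = 0 := by
  ext P
  by_cases hP : On P C
  · obtain ⟨W, -, hW, hs⟩ := C.ordS_eq_sum P hP
    have hg : algebraMap k C.kap c ≠ 0 := by
      intro h
      exact hc ((map_eq_zero _).1 h)
    rw [hz.1 P hP, hs _ hg, Finset.sum_eq_zero]
    · simp
    · intro w hw
      exact Pl.ow_const ((hW w).1 hw).1 hc
  · rw [hz.2 P hP]
    rfl

end Surf

end HB
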