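import Pool.Agent.HB.Pl.PhiForm
import Pool.Agent.HB.Pl.Sum
import Pool.Agent.HB.A.LocB
import Pool.Agent.HB.A.ResA

/-!
# PL-Phi: the linear form on zero-cycles given by a holomorphic 2-form and two derivations of the
constants

`(x j, y j)`, `j = 0, 1`, are two rational maps of the surface to the curve `y² = x⁶ + 1`, regular as maps
to its projective model; the form is the exterior product of the pull-backs of `dx / y` and `x dx / y`.
-/

set_option autoImplicit false

open IsLocalRing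

namespace HB

universe u

namespace Surf

variable {k L : Type u} [Field k] [Field L] [Algebra k L] {S : Surf k L}
  [CharZero k] [IsAlgClosed k]

open Classical in
/-- The value of a function at a closed point (`0` if it is not regular there). -/
noncomputable def Pt.val (P : S.Pt) (f : L) : k :=
  if h : f ∈ P.1.toSubring then P.ev ⟨f, h⟩ else 0

theorem Pt.val_of_mem (P : S.Pt) {f : L} (h : f ∈ P.1.toSubring) : P.val f = P.ev ⟨f, h⟩ := by
  unfold Pt.val
  rw [dif_pos h]

open Classical in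
/-- The value at the point `P` of the differential `x ^ j dx / y` evaluated on the derivation `D`. -/
noncomputable def Pt.fP (P : S.Pt) (D : k → k) (j : ℕ) (x y : L) : k :=
  if x ∈ P.1.toSubring then P.val x ^ j * D (P.val x) / P.val y else 0

/-- The value at the point `P` of the 2-form evaluated on the derivations `D₁`, `D₂`. -/
noncomputable def Pt.phi (P : S.Pt) (D₁ D₂ : k → k) (x y : Fin 2 → L) : k :=
  P.fP D₁ 0 (x 0) (y 0) * P.fP D₂ 1 (x 1) (y 1) - P.fP D₂ 0 (x 0) (y 0) * P.fP D₁ 1 (x 1) (y 1)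

variable (S) in
/-- Two regular maps of the surface to the projective model of `y² = x⁶ + 1`. -/
structure Mk where
  /-- first coordinates -/
  x : Fin 2 → L
  /-- second coordinates -/
  y : Fin 2 → L
  eq : ∀ j, y j ^ 2 = x j ^ 6 + 1
  reg : ∀ (j : Fin 2) (P : S.Pt), x j ∈ P.1.toSubring ∨ (x j)⁻¹ ∈ P.1.toSubring

theorem y_mem (P : S.Pt) {x y : L} (h : y ^ 2 = x ^ 6 + 1) (hx : x ∈ P.1.toSubring) :
    y ∈ P.1.toSubring := by
  apply P.int
  have h1 : y ^ 2 ∈ P.1.toSubring := by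
    rw [h]
    exact add_mem (pow_mem hx 6) (one_mem _)
  refine ⟨Polynomial.X ^ 2 - Polynomial.C (⟨y ^ 2, h1⟩ : P.1.toSubring),
    Polynomial.monic_X_pow_sub_C _ two_ne_zero, ?_⟩
  rw [Polynomial.eval₂_sub, Polynomial.eval₂_X_pow, Polynomial.eval₂_C]
  exact sub_self _

omit [CharZero k] [IsAlgClosed k] in
theorem zero_nonunits {F : Type u} [Field F] (w : ValuationSubring F) : (0 : F) ∈ w.nonunits := by
  rw [ValuationSubring.mem_nonunits_iff, map_zero]
  exact zero_lt_one

/-- The value of a function at a point and the value of its restriction to a curve at a place over the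
point. -/
theorem ev_res (C : S.PD) (P : S.Pt) (hP : On P C) {w : ValuationSubring C.kap}
    (hw : Pl.IsPl k w) (hd : Pl.Domi w (C.loc P)) {f : L} (hf : f ∈ P.1.toSubring) :
    C.res f ∈ w ∧ Pl.ev k w (C.res f) = P.val f := by
  have h1 := hd.1 (C.res_mem_loc P hP hf)
  refine ⟨h1, ?_⟩
  rw [P.val_of_mem hf]
  apply Pl.ev_unique hw
  have h2 := P.sub_ev_mem ⟨f, hf⟩
  set c := P.ev ⟨f, hf⟩
  have hc : algebraMap k L c ∈ P.1.toSubring := P.algebraMap_mem c
  have h3 : C.res f - algebraMap k C.kap c = C.res (f - algebraMap k L c) := by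
    rw [C.res_sub (hP hf) (hP hc), C.res_algebraMap]
  rw [h3]
  have hr := C.res_mem_loc P hP (sub_mem hf hc)
  by_cases h0 : C.res (f - algebraMap k L c) = 0
  · rw [h0]
    exact zero_nonunits w
  apply hd.2 _ hr
  intro h4
  obtain ⟨u, hu⟩ := toLoc_surjective C P hP ⟨_, h4⟩
  have h5 : S.toLoc C P hP ((⟨f, hf⟩ - algebraMap k P.1.toSubring c) * u) = 1 := by
    rw [map_mul, hu]
    apply Subtype.ext
    change ((S.toLoc C P hP (⟨f, hf⟩ - algebraMap k P.1.toSubring c) : C.loc P) : C.kap) * _ = 1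
    rw [coe_toLoc]
    exact mul_inv_cancel₀ h0
  have h6 : (⟨f, hf⟩ - algebraMap k P.1.toSubring c) * u ∈ maximalIdeal P.1.toSubring :=
    Ideal.mul_mem_right _ _ h2
  have h7 : (1 : P.1.toSubring) - (⟨f, hf⟩ - algebraMap k P.1.toSubring c) * u ∈
      C.ideal P hP := by
    rw [← ker_toLoc, RingHom.mem_ker, map_sub, h5, map_one, sub_self]
  have h8 := le_maximalIdeal (Ideal.IsPrime.ne_top inferInstance) h7
  have h9 := Ideal.add_mem _ h8 h6
  rw [sub_add_cancel] at h9
  exact (Ideal.ne_top_iff_one _).1 (maximalIdeal.isMaximal P.1.toSubring).ne_top h9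

theorem fw_eq (C : S.PD) (P : S.Pt) (hP : On P C) {w : ValuationSubring C.kap}
    (hw : Pl.IsPl k w) (hd : Pl.Domi w (C.loc P)) {x y : L} (h : y ^ 2 = x ^ 6 + 1)
    (hx : x ∈ C.1.toSubring) (hx' : x ∈ P.1.toSubring ∨ x⁻¹ ∈ P.1.toSubring) (D : k → k) (j : ℕ) :
    Pl.fw k D j w (C.res x) (C.res y) = P.fP D j x y := by
  unfold Pl.fw Pt.fP
  by_cases h1 : x ∈ P.1.toSubring
  · obtain ⟨h2, h3⟩ := ev_res C P hP hw hd h1
    obtain ⟨h4, h5⟩ := ev_res C P hP hw hd (y_mem P h h1)
    rw [if_pos h1, if_pos h2, h3, h5]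
  · rw [if_neg h1, if_neg]
    intro h2
    have h3 := hx'.resolve_left h1
    obtain ⟨h4, h5⟩ := ev_res C P hP hw hd h3
    have h6 : C.res x * C.res x⁻¹ = 1 := by
      have hx0 : x ≠ 0 := by
        rintro rfl
        exact h1 P.1.toSubring.zero_mem
      rw [← C.res_mul hx (hP h3), mul_inv_cancel₀ hx0, C.res_one]
    have h7 := Pl.ev_mul hw h2 h4
    rw [h6, Pl.ev_one hw, h5, P.val_of_mem h3] at h7
    have h8 : P.ev ⟨x⁻¹, h3⟩ ≠ 0 := by
      intro h9
      rw [h9, mul_zero] at h7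
      exact one_ne_zero h7
    rw [← P.isUnit_iff] at h8
    obtain ⟨u, hu⟩ := h8
    apply h1
    have h10 : x⁻¹ * ((u⁻¹ : P.1.toSubringˣ) : P.1.toSubring) = 1 := by
      have h11 := congrArg (fun z : P.1.toSubring => (z : L)) (Units.mul_inv u)
      have h12 : ((u : P.1.toSubring) : L) = x⁻¹ := congrArg (fun z : P.1.toSubring => (z : L)) hu
      rw [← h12]
      exact h11
    have h13 : x = ((u⁻¹ : P.1.toSubringˣ) : P.1.toSubring) := by
      rw [← inv_inv x]
      exact inv_eq_of_mul_eq_one_right h10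
    rw [h13]
    exact ((u⁻¹ : P.1.toSubringˣ) : P.1.toSubring).2

theorem fP_of_not_mem (C : S.PD) (P : S.Pt) (hP : On P C) {x : L} (y : L)
    (hx : x ∉ C.1.toSubring) (D : k → k) (j : ℕ) : P.fP D j x y = 0 := by
  unfold Pt.fP
  rw [if_neg fun h => hx (hP h)]

/-- The sum of the values of the 2-form over the divisor of a function on a curve is zero. -/
theorem Mk.sum_phi (m : S.Mk) (D₁ D₂ : Derivation ℤ k k) (C : S.PD) {g : C.kap} (hg : g ≠ 0)
    {z : S.Z0} (hz : S.IsDivOn C g z) :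
    z.sum (fun P q => (q : k) * P.phi D₁ D₂ m.x m.y) = 0 := by
  by_cases ht : Transcendental k g
  · by_cases hx : ∀ j, m.x j ∈ C.1.toSubring
    · have := C.ff1.finite_adjoin g ht
      have hy : ∀ j, m.y j ∈ C.1.toSubring := by
        intro j
        apply C.int
        have h1 : m.y j ^ 2 ∈ C.1.toSubring := by
          rw [m.eq j]
          exact add_mem (pow_mem (hx j) 6) (one_mem _)
        refine ⟨Polynomial.X ^ 2 - Polynomial.C (⟨m.y j ^ 2, h1⟩ : C.1.toSubring),
          Polynomial.monic_X_pow_sub_C _ two_ne_zero, ?_⟩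
        rw [Polynomial.eval₂_sub, Polynomial.eval₂_X_pow, Polynomial.eval₂_C]
        exact sub_self _
      obtain ⟨A, hA1, hA2⟩ := Pl.phi_form g ht (fun j => C.res (m.x j)) (fun j => C.res (m.y j))
        (by
          intro j
          have h1 : ∀ (f : L) (hf : f ∈ C.1.toSubring) (n : ℕ), C.res (f ^ n) = C.res f ^ n := by
            intro f hf n
            rw [C.res_of_mem hf, C.res_of_mem (pow_mem hf n), ← map_pow]
            rfl
          rw [← h1 _ (hy j), ← h1 _ (hx j), m.eq j, C.res_add (pow_mem (hx j) 6) (one_mem _),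
            C.res_one]) D₁ D₂
      refine C.sum_val ht hz _ A (fun w P hw hw' hP hd => ?_) hA2
      obtain ⟨h1, h2⟩ := hA1 w hw hw'
      refine ⟨h1, ?_⟩
      rw [h2]
      unfold Pl.phw Pt.phi
      rw [fw_eq C P hP hw hd (m.eq 0) (hx 0) (m.reg 0 P), fw_eq C P hP hw hd (m.eq 1) (hx 1) (m.reg 1 P),
        fw_eq C P hP hw hd (m.eq 0) (hx 0) (m.reg 0 P), fw_eq C P hP hw hd (m.eq 1) (hx 1) (m.reg 1 P)]
    · rw [Finsupp.sum]
      refine Finset.sum_eq_zero fun P hP => ?_
      have hPC : On P C := by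
        by_contra hn
        exact (Finsupp.mem_support_iff.1 hP) (hz.2 P hn)
      push Not at hx
      obtain ⟨j, hj⟩ := hx
      have : P.phi D₁ D₂ m.x m.y = 0 := by
        unfold Pt.phi
        fin_cases j
        · have h1 : m.x 0 ∉ C.1.toSubring := hj
          rw [fP_of_not_mem C P hPC _ h1, fP_of_not_mem C P hPC _ h1]
          ring
        · have h1 : m.x 1 ∉ C.1.toSubring := hj
          rw [fP_of_not_mem C P hPC _ h1, fP_of_not_mem C P hPC _ h1]
          ring
      rw [this, mul_zero]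
  · obtain ⟨c, rfl⟩ := Pl.const_of_algebraic (k := k) (x := g) (not_not.1 ht)
    have hc : c ≠ 0 := by
      rintro rfl
      exact hg (map_zero _)
    rw [C.isDivOn_const hc hz, Finsupp.sum_zero_index]

/-- The linear form on zero-cycles. -/
noncomputable def Mk.phi0 (m : S.Mk) (D₁ D₂ : Derivation ℤ k k) : S.Z0 →ₗ[ℚ] k :=
  Finsupp.lsum ℚ (fun P => LinearMap.toSpanSingleton ℚ k (P.phi D₁ D₂ m.x m.y))

theorem Mk.phi0_apply (m : S.Mk) (D₁ D₂ : Derivation ℤ k k) (z : S.Z0) :
    m.phi0 D₁ D₂ z = z.sum (fun P q => (q : k) * P.phi D₁ D₂ m.x m.y) := by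
  unfold Mk.phi0
  rw [Finsupp.lsum_apply]
  refine Finsupp.sum_congr fun P _ => ?_
  rw [LinearMap.toSpanSingleton_apply, Rat.smul_def]

/-- The linear form on the Chow group of zero-cycles. -/
noncomputable def Mk.Phi (m : S.Mk) (D₁ D₂ : Derivation ℤ k k) : S.CH0 →ₗ[ℚ] k :=
  S.rat.liftQ (m.phi0 D₁ D₂) (by
    unfold rat
    rw [Submodule.span_le]
    rintro z ⟨C, g, hg, hz⟩
    rw [SetLike.mem_coe, LinearMap.mem_ker, m.phi0_apply]
    exact m.sum_phi D₁ D₂ C hg hz)

theorem Mk.Phi_mk (m : S.Mk) (D₁ D₂ : Derivation ℤ k k) (z : S.Z0) :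
    m.Phi D₁ D₂ (Submodule.Quotient.mk z) =
      z.sum (fun P q => (q : k) * P.phi D₁ D₂ m.x m.y) := by
  unfold Mk.Phi
  rw [← m.phi0_apply]
  exact Submodule.liftQ_apply _ _ _

theorem Mk.Phi_single (m : S.Mk) (D₁ D₂ : Derivation ℤ k k) (P : S.Pt) (q : ℚ) :
    m.Phi D₁ D₂ (Submodule.Quotient.mk (Finsupp.single P q)) = (q : k) * P.phi D₁ D₂ m.x m.y := by
  rw [m.Phi_mk, Finsupp.sum_single_index]
  simp

end Surf

end HB
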