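import Pool.Agent.HB.Pl.Basic

/-!
# PL-Dd: the places of `M` containing a Dedekind domain `S` with fraction field `M` whose residue fields
are all `k`: they correspond to the maximal ideals of `S`.

Plan. `S` is not a field, so every maximal ideal `n` is a `HeightOneSpectrum`. Put
`w_n := (HeightOneSpectrum.valuation M n).valuationSubring`; for `s ∈ S`: `s ∈ w_n`, and nonunit iff `s ∈ n`
(`valuation_lt_one_iff_mem`); `x ∈ w_n` iff `x = a / b` with `b ∉ n` (or use the localisation
`S_n`, a DVR: `IsLocalization.AtPrime.isDiscreteValuationRing_of_dedekind_domain`). Residue: `x = a / b`,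
`b ∉ n`, `a - α ∈ n`, `b - β ∈ n`, `β ≠ 0`, `x - α / β ∈ nonunits`. Order: `ow w_n s ≥ m` iff `s ∈ n ^ m`
(`HeightOneSpectrum.intValuation_le_pow_iff_mem`; `ow` of a DVR is the exponent: uniformiser `τ ∈ n \ n²`,
`ow w τ = 1`). Surjectivity: if `w` is a place containing `S`, then `n := {s | s ∈ w.nonunits}` is a prime
ideal, nonzero (otherwise `M ≤ w`), so maximal, `w_n ≤ w`, and `IsPl.eq_of_le`. `⋂ w_n = S`:
`IsDedekindDomain.HeightOneSpectrum.mem_integers_of_valuation_le_one`.
-/

set_option autoImplicit false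

open IsLocalRing

namespace HB.Pl

universe u

private theorem dd_nonunits {M : Type u} [Field M] {Γ : Type*} [LinearOrderedCommGroupWithZero Γ]
    (v : Valuation M Γ) (x : M) : x ∈ v.valuationSubring.nonunits ↔ v x < 1 := by
  rw [ValuationSubring.mem_nonunits_iff]
  exact (v.isEquiv_valuation_valuationSubring.lt_one_iff_lt_one).symm

private theorem dd_dvr {A M : Type u} [CommRing A] [IsDedekindDomain A] [Field M] [Algebra A M]
    [IsFractionRing A M] (v : IsDedekindDomain.HeightOneSpectrum A) :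
    IsDiscreteValuationRing (v.valuation M).valuationSubring := by
  rw [← IsDedekindDomain.HeightOneSpectrum.valuationSubringAtPrime_eq_valuationSubring]
  have h : IsLocalization.AtPrime
      (IsDedekindDomain.HeightOneSpectrum.valuationSubringAtPrime M v) v.asIdeal :=
    inferInstanceAs (IsLocalization v.asIdeal.primeCompl _)
  exact IsLocalization.AtPrime.isDiscreteValuationRing_of_dedekind_domain A v.ne_bot _

theorem places_dd {k S M : Type u} [Field k] [Field M] [Algebra k M] [CommRing S]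
    [IsDedekindDomain S] [Algebra S M] [IsFractionRing S M] [Algebra k S] [IsScalarTower k S M]
    (hnf : ¬ IsField S)
    (hres : ∀ (n : MaximalSpectrum S) (s : S), ∃ c : k, s - algebraMap k S c ∈ n.asIdeal) :
    ∃ e : MaximalSpectrum S ≃ {w : ValuationSubring M // IsPl k w ∧ ∀ s : S, algebraMap S M s ∈ w},
      (∀ (n : MaximalSpectrum S) (s : S), algebraMap S M s ∈ (e n).1.nonunits ↔ s ∈ n.asIdeal) ∧
      (∀ a : M, (∀ n, a ∈ (e n).1) → ∃ s : S, algebraMap S M s = a) ∧
      (∀ (n : MaximalSpectrum S) (x : M), x ∈ (e n).1 ↔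
        ∃ a b : S, b ∉ n.asIdeal ∧ x * algebraMap S M b = algebraMap S M a) ∧
      ∀ (n : MaximalSpectrum S) (s : S) (m : ℕ), s ≠ 0 →
        ((m : ℤ) ≤ ow (e n).1 (algebraMap S M s) ↔ s ∈ n.asIdeal ^ m) := by
  have hinj : Function.Injective (algebraMap S M) := IsFractionRing.injective S M
  have hbot : ∀ n : Ideal S, n.IsMaximal → n ≠ ⊥ := by
    rintro n hn rfl
    exact hnf (Ring.isField_iff_maximal_bot.2 hn)
  let V : MaximalSpectrum S → IsDedekindDomain.HeightOneSpectrum S :=
    fun n => ⟨n.asIdeal, n.isMaximal.isPrime, hbot _ n.isMaximal⟩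
  let W : MaximalSpectrum S → ValuationSubring M :=
    fun n => ((V n).valuation M).valuationSubring
  have hW : ∀ n x, x ∈ W n ↔ (V n).valuation M x ≤ 1 := fun n x => Iff.rfl
  have hWn : ∀ n x, x ∈ (W n).nonunits ↔ (V n).valuation M x < 1 := fun n x =>
    dd_nonunits _ x
  have hWS : ∀ n (s : S), algebraMap S M s ∈ W n := fun n s =>
    (hW n _).2 ((V n).valuation_le_one s)
  have hWSn : ∀ n (s : S), algebraMap S M s ∈ (W n).nonunits ↔ s ∈ n.asIdeal := by
    intro n s
    rw [hWn]
    exact (V n).valuation_lt_one_iff_mem s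
  have hPl : ∀ n, IsPl k (W n) := by
    intro n
    refine ⟨fun c => ?_, ?_, fun x hx => ?_⟩
    · rw [IsScalarTower.algebraMap_apply k S M]; exact hWS n _
    · exact dd_dvr (V n)
    · obtain ⟨a, ha⟩ := (V n).exists_valuation_sub_lt_of_integer ((hW n x).1 hx) 1
      obtain ⟨c, hc⟩ := hres n a
      refine ⟨c, ?_⟩
      rw [hWn]
      have h1 : x - algebraMap k M c = -(algebraMap S M a - x) +
          algebraMap S M (a - algebraMap k S c) := by
        rw [map_sub, ← IsScalarTower.algebraMap_apply k S M]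
        ring
      rw [h1]
      refine Valuation.map_add_lt _ ?_ ?_
      · rw [Valuation.map_neg]; simpa using ha
      · exact ((V n).valuation_lt_one_iff_mem _).2 hc
  let e0 : MaximalSpectrum S → {w : ValuationSubring M // IsPl k w ∧ ∀ s : S, algebraMap S M s ∈ w} :=
    fun n => ⟨W n, hPl n, fun s => hWS n s⟩
  have hinj0 : Function.Injective e0 := by
    intro n n' h
    have h1 : W n = W n' := congrArg Subtype.val h
    apply MaximalSpectrum.ext
    ext s
    rw [← hWSn n s, ← hWSn n' s, h1]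
  have hfrac : ∀ n (x : M), x ∈ W n ↔
        ∃ a b : S, b ∉ n.asIdeal ∧ x * algebraMap S M b = algebraMap S M a := by
    intro n x
    constructor
    · intro hx
      obtain ⟨a, ⟨d, hd⟩, hxd⟩ := (V n).exists_primeCompl_mul_eq_of_integer x hx
      exact ⟨a, d, hd, hxd⟩
    · rintro ⟨a, b, hb, h⟩
      have hb1 : (V n).valuation M (algebraMap S M b) = 1 :=
        (V n).valuation_eq_one_iff_notMem.2 hb
      have h2 := congrArg ((V n).valuation M) h
      rw [map_mul, hb1, mul_one] at h2
      rw [hW, h2]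
      exact (V n).valuation_le_one a
  have hsurj0 : Function.Surjective e0 := by
    rintro ⟨w, hw, hSw⟩
    let ψ : S →+* w := (algebraMap S M).codRestrict w.toSubring hSw
    have hψ : ∀ s, ((ψ s : w) : M) = algebraMap S M s := fun s => rfl
    have hnon : ∀ s, ψ s ∈ maximalIdeal w ↔ algebraMap S M s ∈ w.nonunits := by
      intro s
      rw [← hψ, ValuationSubring.coe_mem_nonunits_iff]
    let n : Ideal S := (maximalIdeal w).comap ψ
    have hnp : n.IsPrime := Ideal.comap_isPrime ψ _
    have hinv : ∀ d : S, d ∉ n → (algebraMap S M d)⁻¹ ∈ w := by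
      intro d hd
      by_contra hcon
      exact hd ((hnon d).2 ((ValuationSubring.mem_nonunits_iff_or w).2 (Or.inr hcon)))
    have hn0 : n ≠ ⊥ := by
      intro h
      have htop : ∀ x : M, x ∈ w := by
        intro x
        obtain ⟨a, b, hb, rfl⟩ := IsFractionRing.div_surjective (A := S) x
        rw [div_eq_mul_inv]
        refine w.mul_mem _ _ (hSw a) (hinv b ?_)
        rw [h]
        simpa using nonZeroDivisors.ne_zero hb
      obtain ⟨τ, hτ0, hτ⟩ := exists_unif hw
      have h1 := (mem_iff hw (inv_ne_zero hτ0)).1 (htop τ⁻¹)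
      rw [ow_inv hw hτ0, hτ] at h1
      norm_num at h1
    have hnm : n.IsMaximal := hnp.isMaximal hn0
    refine ⟨⟨n, hnm⟩, ?_⟩
    apply Subtype.ext
    refine IsPl.eq_of_le (hPl ⟨n, hnm⟩) hw ?_
    intro x hx
    obtain ⟨a, d, hd, hxd⟩ := (hfrac ⟨n, hnm⟩ x).1 hx
    have hd0 : algebraMap S M d ≠ 0 := by
      intro h
      apply hd
      have : d = 0 := hinj (by rw [h, map_zero])
      rw [this]; exact Ideal.zero_mem _
    have hx2 : x = algebraMap S M a * (algebraMap S M d)⁻¹ := by
      rw [eq_mul_inv_iff_mul_eq₀ hd0]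
      exact hxd
    rw [hx2]
    exact w.mul_mem _ _ (hSw a) (hinv d hd)
  refine ⟨Equiv.ofBijective e0 ⟨hinj0, hsurj0⟩, hWSn, ?_, hfrac, ?_⟩
  · intro a ha
    have h1 := IsDedekindDomain.HeightOneSpectrum.mem_integers_of_valuation_le_one
      (R := S) M a (fun v => by
        have h2 := ha ⟨v.asIdeal, v.isMaximal⟩
        exact h2)
    exact h1
  · intro n s m hs
    show (m : ℤ) ≤ ow (W n) (algebraMap S M s) ↔ s ∈ n.asIdeal ^ m
    have hs' : algebraMap S M s ≠ 0 := fun h => hs (hinj (by rw [h, map_zero]))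
    obtain ⟨π, hπ⟩ := (V n).valuation_exists_uniformizer M
    have hπ0 : π ≠ 0 := by
      rintro rfl
      rw [map_zero] at hπ
      exact WithZero.coe_ne_zero hπ.symm
    obtain ⟨τ, hτ0, hτ⟩ := exists_unif (hPl n)
    have hπn : π ∈ (W n).nonunits := by
      rw [hWn, hπ, ← WithZero.exp_zero, WithZero.exp_lt_exp]; norm_num
    have hπ1 : 0 < ow (W n) π := (nonunit_iff (hPl n) hπ0).1 hπn
    have hτn : τ ∈ (W n).nonunits := (nonunit_iff (hPl n) hτ0).2 (by rw [hτ]; norm_num)
    have hτπ : τ / π ∈ W n := by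
      rw [hW, map_div₀, hπ]
      have h1 : (V n).valuation M τ < 1 := (hWn n τ).1 hτn
      have hτv : (V n).valuation M τ ≠ 0 := (Valuation.ne_zero_iff _).2 hτ0
      have hz := WithZero.exp_log hτv
      rw [← hz, ← WithZero.exp_zero, WithZero.exp_lt_exp] at h1
      rw [← hz, ← WithZero.exp_sub, ← WithZero.exp_zero, WithZero.exp_le_exp]
      omega
    have h2 : 0 ≤ ow (W n) (τ / π) := (mem_iff (hPl n) (div_ne_zero hτ0 hπ0)).1 hτπ
    rw [ow_div (hPl n) hτ0 hπ0, hτ] at h2
    have hπ2 : ow (W n) π = 1 := by omega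
    have h3 : (m : ℤ) ≤ ow (W n) (algebraMap S M s) ↔ 0 ≤ ow (W n) (algebraMap S M s / π ^ m) := by
      rw [ow_div (hPl n) hs' (pow_ne_zero _ hπ0), ow_pow (hPl n) hπ0, hπ2]
      constructor <;> intro h <;> linarith
    rw [h3, ← mem_iff (hPl n) (div_ne_zero hs' (pow_ne_zero _ hπ0)), hW, map_div₀, map_pow, hπ,
      ← (V n).intValuation_le_pow_iff_mem, ← (V n).valuation_of_algebraMap (K := M)]
    have h4 : (WithZero.exp (-1 : ℤ)) ^ m = WithZero.exp (-(m : ℤ)) := by
      rw [← WithZero.exp_nsmul]; simp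
    rw [h4, div_le_one₀ WithZero.exp_pos]

end HB.Pl
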