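import Mathlib

/-!
# PL-Len: lengths of `R / g` and `S / g`, `S` a finite birational extension of `R`

Plan. `R` is a one-dimensional noetherian domain, `S` a finite `R`-module, `S` inside the fraction field. There
is `r ≠ 0` in `R` with `r S ⊆ R` (finitely many generators), so `S / R` is a finitely generated module over the
artinian ring `R / r`: finite length `d` (`Module.length_ne_top`, `isFiniteLength_iff..`; `Ring.ord_ne_top`-like
argument). Multiplication by `g` is injective on `S`, so `length (g S / g R) = length (S / R) = d`. From the two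
chains `g R ≤ R ≤ S` and `g R ≤ g S ≤ S` (`Module.length_eq_add_of_exact`):
`length (R / g R) + d = length (S / g R) = length (S / g S) + d`, and `d` is finite.
-/

set_option autoImplicit false

namespace HB.Pl

universe u

/-- A finitely generated module killed by `r ≠ 0` over a one-dimensional noetherian domain has finite length. -/
private theorem length_ne_top_of_smul {R : Type u} [CommRing R] [IsDomain R] [IsNoetherianRing R]
    [Ring.KrullDimLE 1 R] {M : Type u} [AddCommGroup M] [Module R M] [Module.Finite R M]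
    (r : R) (hr : r ≠ 0) (h : ∀ m : M, r • m = 0) : Module.length R M ≠ ⊤ := by
  obtain ⟨n, f, hf⟩ := Module.Finite.exists_fin' R M
  let φ : (Fin n → R ⧸ Ideal.span {r}) →ₗ[R] M :=
    ∑ i, ((Ideal.span {r}).liftQ (LinearMap.toSpanSingleton R M (f (Pi.single i 1))) (by
      rw [Submodule.span_le]
      rintro x hx
      rw [Set.mem_singleton_iff] at hx
      subst hx
      simpa using h _)).comp (LinearMap.proj i)
  have hφ : Function.Surjective φ := by
    intro m
    obtain ⟨v, rfl⟩ := hf m
    refine ⟨fun i => Ideal.Quotient.mk _ (v i), ?_⟩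
    have hv : v = ∑ i, v i • (Pi.single i (1 : R) : Fin n → R) := by
      ext j
      simp [Finset.sum_apply, Pi.single_apply]
    conv_rhs => rw [hv, map_sum]
    simp only [φ, LinearMap.sum_apply, LinearMap.comp_apply, LinearMap.proj_apply]
    refine Finset.sum_congr rfl fun i _ => ?_
    rw [map_smul]
    rfl
  have h2 : IsFiniteLength R (R ⧸ Ideal.span {r}) :=
    isFiniteLength_quotient_span_singleton R (mem_nonZeroDivisors_of_ne_zero hr)
  rw [isFiniteLength_iff_isNoetherian_isArtinian] at h2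
  have h3 := h2.2
  have h4 : IsArtinian R M := isArtinian_of_surjective _ φ hφ
  exact Module.length_ne_top

theorem length_eq {R S : Type u} [CommRing R] [IsDomain R] [IsNoetherianRing R]
    [Ring.KrullDimLE 1 R] [CommRing S] [IsDomain S] [Algebra R S] [Module.Finite R S]
    [FaithfulSMul R S]
    (hfrac : ∀ s : S, ∃ r r' : R, r ≠ 0 ∧ algebraMap R S r * s = algebraMap R S r')
    (g : R) (hg : g ≠ 0) :
    Ring.ord R g = Module.length R (S ⧸ Ideal.span {algebraMap R S g}) := by
  have hinj : Function.Injective (algebraMap R S) := FaithfulSMul.algebraMap_injective R S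
  have hgS : algebraMap R S g ≠ 0 := fun h => hg (hinj (by rw [h, map_zero]))
  -- the submodules
  let A : Submodule R S := LinearMap.range (Algebra.linearMap R S)
  let m : S →ₗ[R] S := LinearMap.lsmul R S g
  have hm : ∀ s, m s = algebraMap R S g * s := fun s => by
    simp [m, Algebra.smul_def]
  have hminj : Function.Injective m := by
    intro a b hab
    rw [hm, hm] at hab
    exact mul_left_cancel₀ hgS hab
  let gA : Submodule R S := A.map m
  have hgA : gA ≤ A := by
    rintro _ ⟨_, ⟨x, rfl⟩, rfl⟩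
    refine ⟨g * x, ?_⟩
    rw [hm]
    simp
  have hmemA : ∀ s : S, s ∈ A ↔ ∃ x : R, algebraMap R S x = s := fun s => Iff.rfl
  have hmemgA : ∀ s : S, s ∈ gA ↔ ∃ x : R, algebraMap R S (g * x) = s := by
    intro s
    constructor
    · rintro ⟨_, ⟨x, rfl⟩, rfl⟩
      exact ⟨x, by rw [hm]; simp⟩
    · rintro ⟨x, rfl⟩
      exact ⟨algebraMap R S x, ⟨x, rfl⟩, by rw [hm]; simp⟩
  -- `S / A` has finite length
  have hfin : Module.length R (S ⧸ A) ≠ ⊤ := by
    obtain ⟨n, f, hf⟩ := Module.Finite.exists_fin' R S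
    choose r r' hr hrr using fun i : Fin n => hfrac (f (Pi.single i 1))
    refine length_ne_top_of_smul (∏ i, r i) (Finset.prod_ne_zero_iff.2 fun i _ => hr i) ?_
    intro x
    obtain ⟨s, rfl⟩ := Submodule.mkQ_surjective A x
    obtain ⟨v, rfl⟩ := hf s
    rw [← map_smul, Submodule.mkQ_apply, Submodule.Quotient.mk_eq_zero]
    have hv : v = ∑ i, v i • (Pi.single i (1 : R) : Fin n → R) := by
      ext j
      simp [Finset.sum_apply, Pi.single_apply]
    rw [hv, map_sum, Finset.smul_sum]
    refine Submodule.sum_mem _ fun i _ => ?_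
    rw [map_smul, smul_comm]
    refine Submodule.smul_mem _ _ ?_
    rw [← Finset.prod_erase_mul _ _ (Finset.mem_univ i), mul_smul]
    refine Submodule.smul_mem _ _ ?_
    rw [Algebra.smul_def, hrr i]
    exact ⟨r' i, rfl⟩
  -- first exact sequence
  let f1 : (R ⧸ Ideal.span {g}) →ₗ[R] (S ⧸ gA) :=
    Submodule.mapQ (Ideal.span {g}) gA (Algebra.linearMap R S) (by
      intro x hx
      obtain ⟨y, rfl⟩ := Ideal.mem_span_singleton'.1 hx
      rw [Submodule.mem_comap, hmemgA]
      exact ⟨y, by rw [mul_comm]; rfl⟩)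
  have hf1 : Function.Injective f1 := by
    rw [← LinearMap.ker_eq_bot, LinearMap.ker_eq_bot']
    intro x hx
    obtain ⟨x, rfl⟩ := Submodule.mkQ_surjective _ x
    rw [Submodule.mkQ_apply, Submodule.mapQ_apply, Submodule.Quotient.mk_eq_zero, hmemgA] at hx
    obtain ⟨y, hy⟩ := hx
    rw [Submodule.mkQ_apply, Submodule.Quotient.mk_eq_zero, Ideal.mem_span_singleton']
    exact ⟨y, hinj (by rw [mul_comm]; exact hy)⟩
  let g1 : (S ⧸ gA) →ₗ[R] (S ⧸ A) := Submodule.factor hgA
  have hg1 : Function.Surjective g1 := Submodule.factor_surjective hgA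
  have hex1 : Function.Exact f1 g1 := by
    intro x
    obtain ⟨s, rfl⟩ := Submodule.mkQ_surjective _ x
    have e1 : g1 (gA.mkQ s) = A.mkQ s := rfl
    rw [e1, Submodule.mkQ_apply, Submodule.Quotient.mk_eq_zero, hmemA]
    constructor
    · rintro ⟨y, rfl⟩
      exact ⟨Submodule.Quotient.mk y, rfl⟩
    · rintro ⟨y, hy⟩
      obtain ⟨y, rfl⟩ := Submodule.mkQ_surjective _ y
      have e2 : f1 (Submodule.mkQ (Ideal.span {g}) y) = gA.mkQ (algebraMap R S y) := rfl
      rw [e2, Submodule.mkQ_apply, Submodule.mkQ_apply, Submodule.Quotient.eq, hmemgA] at hy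
      obtain ⟨z, hz⟩ := hy
      exact ⟨y - g * z, by rw [map_sub, hz]; ring⟩
  -- second exact sequence
  let f2 : (S ⧸ A) →ₗ[R] (S ⧸ gA) := Submodule.mapQ A gA m (Submodule.le_comap_map _ _)
  have hf2 : Function.Injective f2 := by
    rw [← LinearMap.ker_eq_bot, LinearMap.ker_eq_bot']
    intro x hx
    obtain ⟨x, rfl⟩ := Submodule.mkQ_surjective _ x
    rw [Submodule.mkQ_apply, Submodule.mapQ_apply, Submodule.Quotient.mk_eq_zero, hmemgA] at hx
    obtain ⟨y, hy⟩ := hx
    rw [Submodule.mkQ_apply, Submodule.Quotient.mk_eq_zero, hmemA]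
    refine ⟨y, hminj ?_⟩
    rw [← hy, hm, map_mul]
  let g2 : (S ⧸ gA) →ₗ[R] (S ⧸ Ideal.span {algebraMap R S g}) :=
    gA.liftQ (Ideal.Quotient.mkₐ R (Ideal.span {algebraMap R S g})).toLinearMap (by
      intro s hs
      rw [hmemgA] at hs
      obtain ⟨x, rfl⟩ := hs
      rw [LinearMap.mem_ker, AlgHom.toLinearMap_apply, Ideal.Quotient.mkₐ_eq_mk,
        Ideal.Quotient.eq_zero_iff_mem, map_mul]
      exact Ideal.mul_mem_right _ _ (Ideal.mem_span_singleton_self _))
  have hg2 : Function.Surjective g2 := by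
    intro x
    obtain ⟨s, rfl⟩ := Ideal.Quotient.mk_surjective x
    exact ⟨gA.mkQ s, rfl⟩
  have hex2 : Function.Exact f2 g2 := by
    intro x
    obtain ⟨s, rfl⟩ := Submodule.mkQ_surjective _ x
    have e1 : g2 (gA.mkQ s) = Ideal.Quotient.mk (Ideal.span {algebraMap R S g}) s := rfl
    rw [e1, Ideal.Quotient.eq_zero_iff_mem, Ideal.mem_span_singleton']
    constructor
    · rintro ⟨a, rfl⟩
      refine ⟨A.mkQ a, ?_⟩
      have e2 : f2 (A.mkQ a) = gA.mkQ (m a) := rfl
      rw [e2, hm, mul_comm]
    · rintro ⟨y, hy⟩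
      obtain ⟨y, rfl⟩ := Submodule.mkQ_surjective _ y
      have e2 : f2 (A.mkQ y) = gA.mkQ (m y) := rfl
      rw [e2, Submodule.mkQ_apply, Submodule.mkQ_apply, Submodule.Quotient.eq, hmemgA] at hy
      obtain ⟨z, hz⟩ := hy
      refine ⟨y - algebraMap R S z, ?_⟩
      rw [map_mul, hm] at hz
      linear_combination -hz
  have l1 := Module.length_eq_add_of_exact f1 g1 hf1 hg1 hex1
  have l2 := Module.length_eq_add_of_exact f2 g2 hf2 hg2 hex2
  rw [l1, add_comm] at l2
  exact ENat.add_right_injective_of_ne_top hfin l2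

end HB.Pl
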