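import Mathlib

/-!
# PL-LenDd: the length of `S / g`, `S` a semilocal Dedekind domain, finite over the local ring `R` with
the same residue fields

Plan. `(g) = ∏ n ^ e n` (`he` determines the exponents: `Ideal.finprod_heightOneSpectrum_factorization` or
`UniqueFactorizationMonoid`), Chinese remainder `S / g ≃ ∏ S / n ^ e n`, as `R`-modules; length is additive;
`length_R (S / n ^ e) = e`: by induction with `0 → n ^ e / n ^ (e+1) → S / n ^ (e+1) → S / n ^ e → 0` and
`n ^ e / n ^ (e+1) ≃ S / n` (principal quotient), `S / n` is a simple `R`-module because every element of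
`S` is congruent modulo `n` to a constant from `k ⊆ R` (`hres`). The case `e = 0` for all `n` (`g` a unit) is
included.
-/

set_option autoImplicit false

namespace HB.Pl

universe u

/-- Multiplying a nonzero ideal by a maximal ideal adds one to the length. -/
private theorem length_mul_max {k R S : Type u} [Field k] [CommRing R] [Algebra k R] [CommRing S]
    [IsDedekindDomain S] [Algebra R S] [Algebra k S] [IsScalarTower k R S]
    (hnf : ¬ IsField S)
    (n : MaximalSpectrum S) (hres : ∀ s : S, ∃ c : k, s - algebraMap k S c ∈ n.asIdeal)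
    (J : Ideal S) (hJ : J ≠ ⊥) :
    Module.length R (S ⧸ (J * n.asIdeal)) = Module.length R (S ⧸ J) + 1 := by
  have hle : J * n.asIdeal ≤ J := Ideal.mul_le_left
  let g : (S ⧸ (J * n.asIdeal)) →ₗ[R] (S ⧸ J) := (Ideal.Quotient.factorₐ R hle).toLinearMap
  have hg : Function.Surjective g := Ideal.Quotient.factor_surjective hle
  have hgmk : ∀ s : S, g (Ideal.Quotient.mk _ s) = Ideal.Quotient.mk _ s := fun s => rfl
  have hker : ∀ s : S, (Ideal.Quotient.mk (J * n.asIdeal) s) ∈ LinearMap.ker g ↔ s ∈ J := by
    intro s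
    rw [LinearMap.mem_ker, hgmk, Ideal.Quotient.eq_zero_iff_mem]
  have hsimple : IsSimpleModule R (LinearMap.ker g) := by
    rw [isSimpleModule_iff_toSpanSingleton_surjective]
    constructor
    · -- nontrivial
      have hne : ∃ y ∈ J, y ∉ J * n.asIdeal := by
        by_contra hcon
        push Not at hcon
        have h1 : J * n.asIdeal = J * ⊤ := by
          rw [Ideal.mul_top]
          exact le_antisymm hle hcon
        have h2 : n.asIdeal = ⊤ := mul_left_cancel₀ hJ h1
        exact n.isMaximal.ne_top h2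
      obtain ⟨y, hy, hy'⟩ := hne
      refine ⟨⟨⟨Ideal.Quotient.mk _ y, (hker y).2 hy⟩, 0, ?_⟩⟩
      intro h
      apply hy'
      have h3 := congrArg Subtype.val h
      exact Ideal.Quotient.eq_zero_iff_mem.1 h3
    · rintro ⟨x, hx⟩ hx0 ⟨z, hz⟩
      obtain ⟨y, rfl⟩ := Ideal.Quotient.mk_surjective x
      obtain ⟨w, rfl⟩ := Ideal.Quotient.mk_surjective z
      have hy : y ∈ J := (hker y).1 hx
      have hw : w ∈ J := (hker w).1 hz
      have hy' : y ∉ J * n.asIdeal := by
        intro h
        apply hx0
        apply Subtype.ext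
        exact Ideal.Quotient.eq_zero_iff_mem.2 h
      have hK : Ideal.span {y} ⊔ J * n.asIdeal = J := by
        have hKJ : Ideal.span {y} ⊔ J * n.asIdeal ≤ J :=
          sup_le ((Ideal.span_singleton_le_iff_mem J).2 hy) hle
        obtain ⟨L, hL⟩ := Ideal.dvd_iff_le.2 hKJ
        have h4 : J * L ∣ J * n.asIdeal := by
          rw [← hL]
          exact Ideal.dvd_iff_le.2 le_sup_right
        have h5 : L ∣ n.asIdeal := (mul_dvd_mul_iff_left hJ).1 h4
        have h6 : n.asIdeal ≤ L := Ideal.dvd_iff_le.1 h5
        by_cases h7 : L = ⊤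
        · rw [hL, h7, Ideal.mul_top]
        · exfalso
          apply hy'
          have h8 : n.asIdeal = L := n.isMaximal.eq_of_le h7 h6
          rw [← h8] at hL
          rw [← hL]
          exact Ideal.mem_sup_left (Ideal.mem_span_singleton_self y)
      have hw2 : w ∈ Ideal.span {y} ⊔ J * n.asIdeal := by
        rw [hK]; exact hw
      obtain ⟨a, ha, v, hv, hav⟩ := Submodule.mem_sup.1 hw2
      obtain ⟨s, rfl⟩ := Ideal.mem_span_singleton'.1 ha
      obtain ⟨c, hc⟩ := hres s
      refine ⟨algebraMap k R c, ?_⟩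
      apply Subtype.ext
      change (algebraMap k R c) • (Ideal.Quotient.mk (J * n.asIdeal) y) =
        Ideal.Quotient.mk (J * n.asIdeal) w
      have h8 : (algebraMap k R c) • (Ideal.Quotient.mk (J * n.asIdeal) y) =
        Ideal.Quotient.mk (J * n.asIdeal) ((algebraMap k R c) • y) := rfl
      rw [h8, Ideal.Quotient.eq, Algebra.smul_def, ← IsScalarTower.algebraMap_apply k R S, ← hav]
      have h9 : algebraMap k S c * y - (s * y + v) = -(y * (s - algebraMap k S c)) - v := by ring
      rw [h9]
      exact Ideal.sub_mem _ (neg_mem (Ideal.mul_mem_mul hy hc)) hv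
  have hlen := Module.length_eq_add_of_exact (LinearMap.ker g).subtype g
    (Submodule.injective_subtype _) hg (LinearMap.exact_subtype_ker_map g)
  rw [hlen, Module.length_eq_one_iff.2 hsimple, add_comm]

private theorem length_mul_pow {k R S : Type u} [Field k] [CommRing R] [Algebra k R] [CommRing S]
    [IsDedekindDomain S] [Algebra R S] [Algebra k S] [IsScalarTower k R S]
    (hnf : ¬ IsField S)
    (n : MaximalSpectrum S) (hres : ∀ s : S, ∃ c : k, s - algebraMap k S c ∈ n.asIdeal)
    (J : Ideal S) (hJ : J ≠ ⊥) (m : ℕ) :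
    Module.length R (S ⧸ (J * n.asIdeal ^ m)) = Module.length R (S ⧸ J) + (m : ℕ∞) := by
  induction m with
  | zero =>
    rw [pow_zero, mul_one]
    simp
  | succ m ih =>
    have hn : n.asIdeal ≠ ⊥ := Ring.ne_bot_of_isMaximal_of_not_isField n.isMaximal hnf
    rw [pow_succ, ← mul_assoc, length_mul_max (k := k) hnf n hres _
      (mul_ne_zero hJ (pow_ne_zero _ hn)), ih]
    push_cast
    rw [add_assoc]

theorem length_dd {k R S : Type u} [Field k] [CommRing R] [Algebra k R] [CommRing S]
    [IsDedekindDomain S] [Algebra R S] [Algebra k S] [IsScalarTower k R S]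
    [Fintype (MaximalSpectrum S)] (hnf : ¬ IsField S)
    (hres : ∀ (n : MaximalSpectrum S) (s : S), ∃ c : k, s - algebraMap k S c ∈ n.asIdeal)
    (g : S) (hg : g ≠ 0) (e : MaximalSpectrum S → ℕ)
    (he : ∀ (n : MaximalSpectrum S) (m : ℕ), m ≤ e n ↔ g ∈ n.asIdeal ^ m) :
    Module.length R (S ⧸ Ideal.span {g}) = ((∑ n : MaximalSpectrum S, e n : ℕ) : ℕ∞) := by
  classical
  have hmax : ∀ n : MaximalSpectrum S, n.asIdeal ≠ ⊥ := fun n =>
    Ring.ne_bot_of_isMaximal_of_not_isField n.isMaximal hnf
  have hprod : ∀ T : Finset (MaximalSpectrum S), (∏ n ∈ T, n.asIdeal ^ e n) ≠ ⊥ := by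
    intro T
    exact Finset.prod_ne_zero_iff.2 fun n _ => pow_ne_zero _ (hmax n)
  have hlen : ∀ T : Finset (MaximalSpectrum S),
      Module.length R (S ⧸ (∏ n ∈ T, n.asIdeal ^ e n)) = ((∑ n ∈ T, e n : ℕ) : ℕ∞) := by
    intro T
    induction T using Finset.induction_on with
    | empty =>
      rw [Finset.prod_empty, Finset.sum_empty, Ideal.one_eq_top]
      have : Subsingleton (S ⧸ (⊤ : Ideal S)) := Ideal.Quotient.subsingleton_iff.2 rfl
      simp
    | insert n T hn ih =>
      rw [Finset.prod_insert hn, Finset.sum_insert hn, mul_comm,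
        length_mul_pow (k := k) hnf n (hres n) _ (hprod T), ih]
      push_cast
      rw [add_comm]
  have hspan : Ideal.span {g} = ∏ n : MaximalSpectrum S, n.asIdeal ^ e n := by
    have hdvd : (∏ n : MaximalSpectrum S, n.asIdeal ^ e n) ∣ Ideal.span {g} := by
      apply Finset.prod_dvd_of_coprime
      · intro a _ b _ hab
        have hcop : IsCoprime a.asIdeal b.asIdeal := by
          rw [Ideal.isCoprime_iff_sup_eq]
          exact Ideal.IsMaximal.coprime_of_ne a.isMaximal b.isMaximal
            (fun h => hab (MaximalSpectrum.ext h))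
        exact hcop.pow
      · intro n _
        rw [Ideal.dvd_iff_le, Ideal.span_singleton_le_iff_mem]
        exact (he n (e n)).1 le_rfl
    obtain ⟨K, hK⟩ := hdvd
    by_cases hKt : K = ⊤
    · rw [hK, hKt, Ideal.mul_top]
    · exfalso
      obtain ⟨M, hM, hKM⟩ := Ideal.exists_le_maximal K hKt
      let n : MaximalSpectrum S := ⟨M, hM⟩
      have h1 : g ∈ n.asIdeal ^ (e n + 1) := by
        have h2 : Ideal.span {g} ≤ n.asIdeal ^ (e n + 1) := by
          rw [hK, pow_succ]
          apply Ideal.mul_mono
          · rw [← Finset.mul_prod_erase Finset.univ _ (Finset.mem_univ n)]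
            exact Ideal.mul_le_left
          · exact hKM
        exact h2 (Ideal.mem_span_singleton_self g)
      have h3 := (he n (e n + 1)).2 h1
      omega
  rw [hspan]
  exact hlen Finset.univ

end HB.Pl
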