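import Pool.Agent.HB.Pl.LocNorm
import Pool.Agent.HB.Pl.Dd
import Pool.Agent.HB.Pl.Len
import Pool.Agent.HB.Pl.LenDd

/-!
# PL-LN: the order of a function at a point of a (singular) curve is the sum of its orders at the places
over that point

Plan. `S := integralClosure R M` (`loc_norm`); make it a `k`-algebra (`algebraMap k M c ∈ R`). `places_dd` gives the
bijection `e` between maximal ideals of `S` and places containing `S`; a place contains `R` iff it
contains `S` (valuation rings are integrally closed), and then it dominates `R`: an `x ∈ R` with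
`x⁻¹ ∉ R` lies in every maximal ideal of `S` (lying over, `R` local). So `W` = image of `e`. Nonempty: `S` has a
maximal ideal. For `g = a / b`, `a b ∈ R` nonzero, `ordS R g = ord a - ord b` (independent of the choice in the
definition by `Ring.ord_mul`, `Ring.ord_ne_top`), and `ow` is additive, so take `g ∈ R`: `length_eq`, `length_dd` with
`e n = (ow w g).toNat` (last statement of `places_dd`).
-/

set_option autoImplicit false

namespace HB.Pl

universe u

private theorem ln_int {M : Type u} [Field M] {R : Subring M} {w : ValuationSubring M}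
    (h : R ≤ w.toSubring) {s : M} (hs : IsIntegral R s) : s ∈ w := by
  obtain ⟨P, hPm, hP⟩ := hs
  let ι : R →+* w := Subring.inclusion h
  have h1 : IsIntegral w s := by
    refine ⟨P.map ι, hPm.map ι, ?_⟩
    rw [Polynomial.eval₂_map]
    exact hP
  obtain ⟨y, hy⟩ := IsIntegrallyClosed.isIntegral_iff.1 h1
  rw [← hy]
  exact y.2

theorem LN {k M : Type u} [Field k] [IsAlgClosed k] [CharZero k] [Field M] [Algebra k M]
    (hM : FF1 k M) (R : Subring M) (hR : IsCurveLoc k R) :
    ∃ W : Finset (ValuationSubring M), W.Nonempty ∧ (∀ w, w ∈ W ↔ IsPl k w ∧ Domi w R) ∧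
      ∀ g : M, g ≠ 0 → ordS R g = ∑ w ∈ W, ow w g := by
  classical
  obtain ⟨h1, h2, h3, h4, h5, h6, h7, h8, h9, h10, h11, h12, h13⟩ := loc_norm hM R hR
  let _ : Fintype (MaximalSpectrum (integralClosure R M)) := Fintype.ofFinite _
  let φ : k →+* R :=
    { toFun := fun c => ⟨algebraMap k M c, h1 c⟩
      map_one' := Subtype.ext (map_one (algebraMap k M))
      map_mul' := fun a b => Subtype.ext (map_mul (algebraMap k M) a b)
      map_zero' := Subtype.ext (map_zero (algebraMap k M))
      map_add' := fun a b => Subtype.ext (map_add (algebraMap k M) a b) }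
  let _ : Algebra k R := φ.toAlgebra
  let _ : Algebra k (integralClosure R M) := ((algebraMap R (integralClosure R M)).comp φ).toAlgebra
  have t1 : IsScalarTower k R (integralClosure R M) := IsScalarTower.of_algebraMap_eq fun _ => rfl
  have t2 : IsScalarTower k (integralClosure R M) M := IsScalarTower.of_algebraMap_eq fun _ => rfl
  have hres : ∀ (n : MaximalSpectrum (integralClosure R M)) (s : integralClosure R M),
      ∃ c : k, s - algebraMap k (integralClosure R M) c ∈ n.asIdeal := by
    intro n s
    obtain ⟨c, t, ht, hs⟩ := h13 n s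
    refine ⟨c, ?_⟩
    have : s - algebraMap k (integralClosure R M) c = t := by
      apply Subtype.ext
      change (s : M) - algebraMap k M c = t
      rw [hs, add_sub_cancel_left]
    rw [this]
    exact ht
  obtain ⟨e, p1, p2, p3, p4⟩ := places_dd (k := k) (S := integralClosure R M) (M := M) h11 hres
  have hinj : Function.Injective fun n => (e n).1 :=
    Subtype.val_injective.comp e.injective
  refine ⟨Finset.univ.image fun n => (e n).1, ?_, ?_, ?_⟩
  · obtain ⟨m, hm⟩ := Ideal.exists_maximal (integralClosure R M)
    exact ⟨_, Finset.mem_image_of_mem _ (Finset.mem_univ (⟨m, hm⟩ : MaximalSpectrum _))⟩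
  · intro w
    rw [Finset.mem_image]
    constructor
    · rintro ⟨n, _, rfl⟩
      refine ⟨(e n).2.1, fun x hx => (e n).2.2 (algebraMap R (integralClosure R M) ⟨x, hx⟩), ?_⟩
      intro x hx hx'
      have hmax : (n.asIdeal.comap (algebraMap R (integralClosure R M))).IsMaximal := by
        have := n.isMaximal
        exact Ideal.isMaximal_comap_of_isIntegral_of_isMaximal n.asIdeal
      have heq := IsLocalRing.eq_maximalIdeal hmax
      have hxm : (⟨x, hx⟩ : R) ∈ IsLocalRing.maximalIdeal R := by
        rw [IsLocalRing.mem_maximalIdeal, mem_nonunits_iff]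
        rintro ⟨u, hu⟩
        apply hx'
        have h14 : x * ((u⁻¹ : Rˣ) : R) = 1 := by
          have h15 := congrArg (fun z : R => (z : M)) (Units.mul_inv u)
          have h16 : ((u : R) : M) = x := congrArg (fun z : R => (z : M)) hu
          rw [← h16]
          exact h15
        rw [inv_eq_of_mul_eq_one_right h14]
        exact ((u⁻¹ : Rˣ) : R).2
      rw [← heq] at hxm
      exact (p1 n (algebraMap R (integralClosure R M) ⟨x, hx⟩)).2 hxm
    · rintro ⟨hw, hd⟩
      refine ⟨e.symm ⟨w, hw, fun s => ln_int hd.1 s.2⟩, Finset.mem_univ _, ?_⟩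
      rw [Equiv.apply_symm_apply]
  · -- elements of `R`
    have hfs : FaithfulSMul R (integralClosure R M) := by
      rw [faithfulSMul_iff_algebraMap_injective]
      intro a b hab
      exact Subtype.ext (congrArg (fun z : integralClosure R M => (z : M)) hab)
    have key : ∀ g : R, (g : M) ≠ 0 →
        ((Ring.ord R g).toNat : ℤ) = ∑ n, ow (e n).1 (g : M) := by
      intro g hg
      have hg0 : g ≠ 0 := fun h => hg (by rw [h]; rfl)
      have hgS : algebraMap R (integralClosure R M) g ≠ 0 := fun h =>
        hg (congrArg (fun z : integralClosure R M => (z : M)) h)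
      have hpos : ∀ n, 0 ≤ ow (e n).1 (g : M) := fun n =>
        (mem_iff (e n).2.1 hg).1 ((e n).2.2 (algebraMap R (integralClosure R M) g))
      have hl := length_eq (R := R) (S := integralClosure R M) (by
        intro s
        obtain ⟨a, b, hb, hab⟩ := IsFractionRing.div_surjective (A := R) (s : M)
        refine ⟨b, a, nonZeroDivisors.ne_zero hb, ?_⟩
        apply Subtype.ext
        have hb0 : (b : M) ≠ 0 := fun h => nonZeroDivisors.ne_zero hb (Subtype.ext h)
        change (b : M) * (s : M) = a
        have hab' : (a : M) / (b : M) = s := hab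
        rw [← hab', mul_div_cancel₀ _ hb0]) g hg0
      have hd := length_dd (k := k) (R := R) (S := integralClosure R M) h11 hres
        (algebraMap R (integralClosure R M) g) hgS
        (fun n => (ow (e n).1 (g : M)).toNat) (by
          intro n m
          rw [← p4 n (algebraMap R (integralClosure R M) g) m hgS]
          have := hpos n
          change m ≤ (ow (e n).1 (g : M)).toNat ↔ (m : ℤ) ≤ ow (e n).1 (g : M)
          omega)
      rw [hl, hd, ENat.toNat_natCast]
      push_cast
      exact Finset.sum_congr rfl fun n _ => Int.toNat_of_nonneg (hpos n)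
    intro g hg
    rw [Finset.sum_image fun a _ b _ hab => hinj hab]
    have hex : ∃ p : R × R, (p.1 : M) ≠ 0 ∧ (p.2 : M) ≠ 0 ∧ g = (p.1 : M) / (p.2 : M) := by
      obtain ⟨a, b, hb, hab⟩ := IsFractionRing.div_surjective (A := R) g
      have hb0 : (b : M) ≠ 0 := fun h => nonZeroDivisors.ne_zero hb (Subtype.ext h)
      have hab' : (a : M) / (b : M) = g := hab
      refine ⟨(a, b), fun h => hg ?_, hb0, hab'.symm⟩
      have h' : (a : M) = 0 := h
      rw [← hab', h', zero_div]
    unfold ordS
    rw [dif_pos hex]
    obtain ⟨q1, q2, q3⟩ := hex.choose_spec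
    rw [key _ q1, key _ q2, ← Finset.sum_sub_distrib]
    refine Finset.sum_congr rfl fun n _ => ?_
    rw [← ow_div (e n).2.1 q1 q2, ← q3]

end HB.Pl
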