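import Pool.Agent.HB.Pl.DerDual
import Pool.Agent.HB.D.Defs

/-!
# PL-Choice: two points of `y² = x⁶ + 1` over `ℂ` with algebraically independent first coordinates, and
the dual derivations of `ℂ`
-/

set_option autoImplicit false

namespace HB

private theorem y_ne (x y : ℂ) (D : Derivation ℤ ℂ ℂ) (h : y ^ 2 = x ^ 6 + 1) (hD : D x = 1) :
    x ≠ 0 ∧ y ≠ 0 := by
  have hx : x ≠ 0 := by
    rintro rfl
    rw [map_zero] at hD
    exact one_ne_zero hD.symm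
  refine ⟨hx, ?_⟩
  rintro rfl
  have h1 := congrArg D h
  rw [map_add, Derivation.leibniz_pow, Derivation.leibniz_pow, hD, map_zero,
    Derivation.map_one_eq_zero] at h1
  have h2 : (6 : ℂ) * x ^ 5 = 0 := by
    simpa using h1.symm
  have h3 : x ^ 5 = 0 := by
    rcases mul_eq_zero.1 h2 with h4 | h4
    · norm_num at h4
    · exact h4
  exact hx (pow_eq_zero_iff (by norm_num) |>.1 h3)

/-- The choice of the points `p`, `q` and of the derivations `∂/∂ x_p`, `∂/∂ x_q`. -/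
theorem exists_choice : ∃ (Z : ZPair ℂ) (D₁ D₂ : Derivation ℤ ℂ ℂ),
    AlgebraicIndependent ℚ ![Z.xp, Z.xq] ∧
      D₁ Z.xp = 1 ∧ D₁ Z.xq = 0 ∧ D₂ Z.xp = 0 ∧ D₂ Z.xq = 1 := by
  obtain ⟨p, q, h⟩ := Pl.exists_indep_complex
  obtain ⟨D₁, D₂, h1, h2, h3, h4⟩ := Pl.exists_dual p q h
  obtain ⟨yp, hyp⟩ := IsAlgClosed.exists_pow_nat_eq (p ^ 6 + 1) (n := 2) (by norm_num)
  obtain ⟨yq, hyq⟩ := IsAlgClosed.exists_pow_nat_eq (q ^ 6 + 1) (n := 2) (by norm_num)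
  obtain ⟨a1, a2⟩ := y_ne p yp D₁ hyp h1
  obtain ⟨b1, b2⟩ := y_ne q yq D₂ hyq h4
  refine ⟨⟨p, yp, q, yq, hyp, hyq, a1, a2, b1, b2, ?_⟩, D₁, D₂, h, h1, h2, h3, h4⟩
  rintro rfl
  rw [h1] at h2
  exact one_ne_zero h2

end HB
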