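import Pool.Agent.HB.Surf

/-!
# Project HB, parts A5 and G: places of function fields of one variable

`M / k` is a function field of one variable over an algebraically closed field `k` of
characteristic zero; places are discrete valuation rings of `M` with residue field `k`.
-/

set_option autoImplicit false

open Polynomial

namespace HB.Pl

universe u

variable (k : Type u) {M : Type u} [Field k] [Field M] [Algebra k M]

/-- `M` is a function field of one variable over `k`. -/
def FF1 (M : Type u) [Field M] [Algebra k M] : Prop :=
  ∃ g : M, Transcendental k g ∧ FiniteDimensional (IntermediateField.adjoin k ({g} : Set M)) M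

/-- `w` is a place of `M / k`: a discrete valuation ring containing `k` with residue field `k`. -/
structure IsPl (w : ValuationSubring M) : Prop where
  alg : ∀ c : k, algebraMap k M c ∈ w
  dvr : IsDiscreteValuationRing w.toSubring
  res : ∀ x ∈ w, ∃ c : k, x - algebraMap k M c ∈ w.nonunits

/-- The order of `g` at the place `w` (`0` if `g = 0`). -/
noncomputable def ow (w : ValuationSubring M) (g : M) : ℤ := ordS w.toSubring g

open Classical in
/-- The value of `x` at the place `w` (`0` if `x ∉ w`). -/
noncomputable def ev (w : ValuationSubring M) (x : M) : k :=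
  if h : x ∈ w ∧ ∃ c : k, x - algebraMap k M c ∈ w.nonunits then h.2.choose else 0

/-- The valuation ring `w` dominates the subring `R` of `M`. -/
def Domi (w : ValuationSubring M) (R : Subring M) : Prop :=
  R ≤ w.toSubring ∧ ∀ x ∈ R, x⁻¹ ∉ R → x ∈ w.nonunits

/-- `R` is the localisation at a maximal ideal of a finitely generated `k`-algebra with fraction
field `M`. -/
def IsCurveLoc (R : Subring M) : Prop :=
  ∃ B : Subalgebra k M, B.FG ∧ (∀ x : M, ∃ a b : B, b ≠ 0 ∧ x * (b : M) = a) ∧
    ∃ m : Ideal B, m.IsMaximal ∧ ∀ x : M, x ∈ R ↔ ∃ a b : B, b ∉ m ∧ x * (b : M) = a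

end HB.Pl
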