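import Pool.Agent.HB.Pl.Basic

/-!
# PL-NormFin: the normalisation of an affine curve is finite

Plan. `B` is a finitely generated `k`-algebra. Noether normalisation
(`Mathlib.RingTheory.NoetherNormalization`: `exists_integral_inj_algHom_of_fg` or
`exists_finite_inj_algHom_of_fg`): an injective `k[X_1..X_s] → B`, integral. `s = 1`: the transcendence degree
of `M` over `k` is `1` (`FF1`) and `M` is algebraic over the fraction field of the image. (`s ≥ 2` would give
two algebraically independent elements, `s = 0` would make `B`, hence `M`, algebraic over `k`.) Let `z` be the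
image of `X`, `A := k[z]` (a PID, integrally closed), `M` is finite over `k(z)` (finitely generated field
extension, algebraic: `M / k(g)` finite and `k(z, g) / k(z)` algebraic by a polynomial relation between
`z` and `g`), separable (characteristic zero). `IsIntegralClosure.finite A (Frac A) M` : the integral closure
`C` of `A` in `M` is a finite `A`-module; it is also the integral closure of `B` (`B` integral over `A`), hence
finite over `B`.
Part 2: it is a Dedekind domain with fraction field `M`, not a field, and the residue fields at its
maximal ideals are `k` (finitely generated `k`-algebra: `C` is finite over `k[z]`; Nullstellensatz/Zariski's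
lemma `finite_of_finite_type_of_isJacobsonRing`, `IsAlgClosed`).
-/

set_option autoImplicit false

namespace HB.Pl

universe u

private theorem fracRing {k M : Type u} [Field k] [Field M] [Algebra k M] (B : Subalgebra k M)
    (hfrac : ∀ x : M, ∃ a b : B, b ≠ 0 ∧ x * (b : M) = a) : IsFractionRing B M := by
  refine IsFractionRing.of_field _ _ fun x => ?_
  obtain ⟨a, b, hb, h⟩ := hfrac x
  refine ⟨a, b, ?_⟩
  have hb' : (b : M) ≠ 0 := fun h0 => hb (Subtype.ext h0)
  show x = (a : M) / (b : M)
  rw [eq_div_iff hb', h]

open IntermediateField.algebraAdjoinAdjoin in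
private theorem trb {k M : Type u} [Field k] [Field M] [Algebra k M] (hM : FF1 k M) :
    ∃ g : M, IsTranscendenceBasis k (fun _ : Unit => g) := by
  obtain ⟨g, hg, hfin⟩ := hM
  refine ⟨g, isTranscendenceBasis_iff_algebraicIndependent_isAlgebraic.2 ⟨?_, ?_⟩⟩
  · rw [algebraicIndependent_unique_type_iff]
    exact hg
  · have h1 : Set.range (fun _ : Unit => g) = {g} := Set.range_const
    rw [h1, ← IntermediateField.isAlgebraic_adjoin_iff_top]
    exact Algebra.IsAlgebraic.of_finite _ _

private theorem exists_z {k M : Type u} [Field k] [Field M] [Algebra k M]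
    (hM : FF1 k M) (B : Subalgebra k M) (hfg : B.FG)
    (hfrac : ∀ x : M, ∃ a b : B, b ≠ 0 ∧ x * (b : M) = a) :
    ∃ z : B, Transcendental k (z : M) ∧
      (Polynomial.aeval z : Polynomial k →ₐ[k] B).toRingHom.IsIntegral := by
  have hft : Algebra.FiniteType k B := B.fg_iff_finiteType.1 hfg
  obtain ⟨s, g, hginj, hgint⟩ := exists_integral_inj_algHom_of_fg k B
  have hs : s = 1 := by
    let : Algebra (MvPolynomial (Fin s) k) B := g.toRingHom.toAlgebra
    let : Algebra (MvPolynomial (Fin s) k) M := ((algebraMap B M).comp g.toRingHom).toAlgebra
    have : IsScalarTower (MvPolynomial (Fin s) k) B M := .of_algebraMap_eq fun _ => rfl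
    have : IsScalarTower k (MvPolynomial (Fin s) k) M := .of_algebraMap_eq fun x => by
      show algebraMap k M x = algebraMap B M (g (algebraMap k (MvPolynomial (Fin s) k) x))
      rw [g.commutes]
      rfl
    have : Algebra.IsIntegral (MvPolynomial (Fin s) k) B := ⟨hgint⟩
    have := fracRing B hfrac
    have : Algebra.IsAlgebraic B M := IsLocalization.isAlgebraic _ (nonZeroDivisors B)
    have : Algebra.IsAlgebraic (MvPolynomial (Fin s) k) M := .trans _ B _
    have hinj : Function.Injective (algebraMap (MvPolynomial (Fin s) k) M) :=
      (Subtype.val_injective : Function.Injective (Subtype.val : B → M)).comp hginj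
    have : FaithfulSMul (MvPolynomial (Fin s) k) M :=
      (faithfulSMul_iff_algebraMap_injective _ _).2 hinj
    have hb := (IsTranscendenceBasis.mvPolynomial (Fin s) k).algebraMap_comp (A := M)
    obtain ⟨g0, hg0⟩ := trb hM
    have h := hb.lift_cardinalMk_eq hg0
    simpa using h
  subst hs
  refine ⟨g (MvPolynomial.X 0), ?_, ?_⟩
  · have h1 : AlgebraicIndependent k (fun _ : Fin 1 => ((g (MvPolynomial.X 0) : B) : M)) := by
      have h2 := (MvPolynomial.algebraicIndependent_X (Fin 1) k).map' (f := B.val.comp g)
        ((Subtype.val_injective : Function.Injective (Subtype.val : B → M)).comp hginj)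
      convert! h2 using 1
      ext i
      rw [Subsingleton.elim i 0]
      rfl
    rw [algebraicIndependent_unique_type_iff] at h1
    exact h1
  · let ψ : MvPolynomial (Fin 1) k →ₐ[k] Polynomial k := MvPolynomial.aeval fun _ => Polynomial.X
    have h1 : (Polynomial.aeval (g (MvPolynomial.X 0)) : Polynomial k →ₐ[k] B).comp ψ = g := by
      apply MvPolynomial.algHom_ext
      intro i
      rw [Subsingleton.elim i 0]
      simp [ψ]
    refine RingHom.IsIntegral.tower_top ψ.toRingHom _ ?_
    have h2 : (Polynomial.aeval (g (MvPolynomial.X 0)) : Polynomial k →ₐ[k] B).toRingHom.comp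
        ψ.toRingHom = g.toRingHom := congrArg (fun f => f.toRingHom) h1
    rw [h2]
    exact hgint

theorem norm_fin {k M : Type u} [Field k] [IsAlgClosed k] [CharZero k] [Field M] [Algebra k M]
    (hM : FF1 k M) (B : Subalgebra k M) (hfg : B.FG)
    (hfrac : ∀ x : M, ∃ a b : B, b ≠ 0 ∧ x * (b : M) = a) :
    Module.Finite B (integralClosure B M) ∧ IsDedekindDomain (integralClosure B M) ∧
      IsFractionRing (integralClosure B M) M ∧ ¬ IsField (integralClosure B M) ∧
      (∀ (n : MaximalSpectrum (integralClosure B M)) (s : integralClosure B M),
        ∃ c : k, s - algebraMap B (integralClosure B M) (algebraMap k B c) ∈ n.asIdeal) ∧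
      Ring.KrullDimLE 1 B := by
  classical
  obtain ⟨z, hz, hint⟩ := exists_z hM B hfg hfrac
  have hBfrac : IsFractionRing B M := fracRing B hfrac
  let iXB : Algebra (Polynomial k) B := (Polynomial.aeval z : Polynomial k →ₐ[k] B).toRingHom.toAlgebra
  let iXM : Algebra (Polynomial k) M :=
    ((algebraMap B M).comp (Polynomial.aeval z : Polynomial k →ₐ[k] B).toRingHom).toAlgebra
  have t1 : IsScalarTower (Polynomial k) B M := .of_algebraMap_eq fun _ => rfl
  have t2 : IsScalarTower k (Polynomial k) B := .of_algebraMap_eq fun x =>
    ((Polynomial.aeval z : Polynomial k →ₐ[k] B).commutes x).symm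
  have iint : Algebra.IsIntegral (Polynomial k) B := ⟨hint⟩
  have hXM : ∀ q : Polynomial k, algebraMap (Polynomial k) M q = Polynomial.aeval (z : M) q := by
    intro q
    show ((Polynomial.aeval z q : B) : M) = _
    exact (Polynomial.aeval_algHom_apply B.val z q).symm
  have hinj : Function.Injective (algebraMap (Polynomial k) M) := by
    rw [injective_iff_map_eq_zero]
    intro q hq
    rw [hXM] at hq
    by_contra h
    exact hz ⟨q, h, hq⟩
  have : FaithfulSMul (Polynomial k) M := (faithfulSMul_iff_algebraMap_injective _ _).2 hinj
  let iKM : Algebra (FractionRing (Polynomial k)) M := FractionRing.liftAlgebra (Polynomial k) M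
  have t3 : IsScalarTower (Polynomial k) (FractionRing (Polynomial k)) M :=
    FractionRing.isScalarTower_liftAlgebra _ _
  have hBint : ∀ x : B, IsIntegral (Polynomial k) ((x : B) : M) := fun x =>
    (Algebra.IsIntegral.isIntegral (R := Polynomial k) x).map
      (IsScalarTower.toAlgHom (Polynomial k) B M)
  -- finiteness of `M` over `k(z)`
  have hfd : FiniteDimensional (FractionRing (Polynomial k)) M := by
    obtain ⟨S, hS⟩ := hfg
    have hSB : ∀ x ∈ (S : Set M), x ∈ B := fun x hx => hS ▸ Algebra.subset_adjoin hx
    have h1 : FiniteDimensional (FractionRing (Polynomial k))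
        (IntermediateField.adjoin (FractionRing (Polynomial k)) (S : Set M)) :=
      IntermediateField.finiteDimensional_adjoin fun x hx =>
        (hBint ⟨x, hSB x hx⟩).tower_top
    have h2 : IntermediateField.adjoin (FractionRing (Polynomial k)) (S : Set M) = ⊤ := by
      rw [eq_top_iff]
      intro x _
      have hB : ∀ y : M, y ∈ B →
          y ∈ IntermediateField.adjoin (FractionRing (Polynomial k)) (S : Set M) := by
        intro y hy
        rw [← hS] at hy
        induction hy using Algebra.adjoin_induction with
        | mem x hx => exact IntermediateField.subset_adjoin _ _ hx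
        | algebraMap r =>
          have e : algebraMap k M r = algebraMap (FractionRing (Polynomial k)) M
              (algebraMap (Polynomial k) (FractionRing (Polynomial k)) (Polynomial.C r)) := by
            rw [← IsScalarTower.algebraMap_apply, hXM, Polynomial.aeval_C]
          rw [e]
          exact IntermediateField.algebraMap_mem _ _
        | add x y _ _ hx hy => exact add_mem hx hy
        | mul x y _ _ hx hy => exact mul_mem hx hy
      obtain ⟨a, b, hb, h⟩ := hfrac x
      have hb' : (b : M) ≠ 0 := fun h0 => hb (Subtype.ext h0)
      have e : x = (a : M) / (b : M) := by rw [eq_div_iff hb', h]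
      rw [e]
      exact div_mem (hB _ a.2) (hB _ b.2)
    rw [h2] at h1
    exact Module.Finite.equiv (IntermediateField.topEquiv
      (F := FractionRing (Polynomial k)) (E := M)).toLinearEquiv
  have : CharZero (FractionRing (Polynomial k)) :=
    charZero_of_injective_algebraMap (IsFractionRing.injective (Polynomial k)
      (FractionRing (Polynomial k)))
  -- the integral closure
  have t4 : IsScalarTower (Polynomial k) (integralClosure B M) M := .of_algebraMap_eq fun _ => rfl
  have iic : IsIntegralClosure (integralClosure B M) (Polynomial k) M :=
    { algebraMap_injective := Subtype.val_injective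
      isIntegral_iff := by
        intro x
        constructor
        · intro hx
          exact ⟨⟨x, hx.tower_top⟩, rfl⟩
        · rintro ⟨y, rfl⟩
          exact isIntegral_trans (R := Polynomial k) (A := B) _ y.2 }
  have hfinX : Module.Finite (Polynomial k) (integralClosure B M) :=
    IsIntegralClosure.finite (Polynomial k) (FractionRing (Polynomial k)) M _
  have t5 : IsScalarTower (Polynomial k) B (integralClosure B M) := .of_algebraMap_eq fun _ => rfl
  have hfinB : Module.Finite B (integralClosure B M) :=
    Module.Finite.of_restrictScalars_finite (Polynomial k) B _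
  have hCint : Algebra.IsIntegral (Polynomial k) (integralClosure B M) := inferInstance
  refine ⟨hfinB, IsIntegralClosure.isDedekindDomain (Polynomial k) (FractionRing (Polynomial k)) M _,
    IsIntegralClosure.isFractionRing_of_finite_extension (Polynomial k)
      (FractionRing (Polynomial k)) M _, ?_, ?_, ?_⟩
  · intro hf
    refine Polynomial.not_isField k (isField_of_isIntegral_of_isField ?_ hf)
    intro p q hpq
    exact hinj (congrArg (fun y : integralClosure B M => (y : M)) hpq)
  · intro n s
    have hn := n.isMaximal
    let : Field (integralClosure B M ⧸ n.asIdeal) := Ideal.Quotient.field _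
    have : Algebra.FiniteType k (integralClosure B M) := by
      have t6 : IsScalarTower k (Polynomial k) (integralClosure B M) := by
        refine .of_algebraMap_eq fun x => ?_
        apply Subtype.ext
        show algebraMap k M x = algebraMap (Polynomial k) M (algebraMap k (Polynomial k) x)
        rw [hXM]
        simp
      have h1 : Algebra.FiniteType (Polynomial k) (integralClosure B M) := inferInstance
      exact Algebra.FiniteType.trans (S := Polynomial k) inferInstance h1
    have : Algebra.FiniteType k (integralClosure B M ⧸ n.asIdeal) := inferInstance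
    have : Module.Finite k (integralClosure B M ⧸ n.asIdeal) :=
      finite_of_finite_type_of_isJacobsonRing k _
    have : Algebra.IsIntegral k (integralClosure B M ⧸ n.asIdeal) :=
      Algebra.IsIntegral.of_finite k _
    obtain ⟨c, hc⟩ := (IsAlgClosed.algebraMap_bijective_of_isIntegral (k := k)
      (K := integralClosure B M ⧸ n.asIdeal)).2 (Ideal.Quotient.mk _ s)
    refine ⟨c, ?_⟩
    rw [← Ideal.Quotient.eq, ← hc]
    rfl
  · refine Ring.KrullDimLE.mk₁' fun I hI hp => ?_
    apply Ideal.isMaximal_of_isIntegral_of_isMaximal_comap (R := Polynomial k) I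
    have : (Ideal.comap (algebraMap (Polynomial k) B) I).IsPrime := Ideal.comap_isPrime _ _
    exact Ideal.IsPrime.isMaximal inferInstance (Ideal.IsIntegral.comap_ne_bot (Polynomial k) hI)

end HB.Pl
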