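import Pool.Agent.HB.Pl.Over
import Pool.Agent.HB.Pl.Dd
import Pool.Agent.HB.Pl.NormFin

/-!
# PL-DerBd: a derivation of a function field has bounded poles on the ring of a place

Plan. Let `B ⊆ w` be a finitely generated `k`-algebra with fraction field `M` (a finite set of field
generators of `M / k`, each replaced by its inverse if necessary), `S := integralClosure B M`, finite over `B`
(`norm_fin`), `S ⊆ w` (valuation rings are integrally closed). For `N ≤ 0` the set `T N` of the `x ∈ w` with
`D' x = 0` or `N ≤ ow w (D' x)` is a `k`-subalgebra of `M`; `N` small enough: it contains `B` and `S`. Every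
`f ∈ w` is `a / b` with `a b ∈ S`, `b ∉ w.nonunits` (`places_dd`), and `D' (a/b) = (b D' a - a D' b) / b²` has
order `≥ N`.
-/

set_option autoImplicit false

namespace HB.Pl

universe u

section

variable {k M : Type u} [Field k] [Field M] [Algebra k M] {w : ValuationSubring M}

/-- `T N`: the elements of `w` whose derivative has order at least `N`. -/
private def TN (w : ValuationSubring M) (D' : Derivation ℤ M M) (N : ℤ) (x : M) : Prop :=
  x ∈ w ∧ (D' x = 0 ∨ N ≤ ow w (D' x))

private theorem mulB (hw : IsPl k w) {N : ℤ} {a b : M} (ha : a ∈ w) (hb : b = 0 ∨ N ≤ ow w b) :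
    a * b = 0 ∨ N ≤ ow w (a * b) := by
  rcases hb with hb | hb
  · left; rw [hb, mul_zero]
  · by_cases h0 : a * b = 0
    · exact Or.inl h0
    · right
      have ha0 := left_ne_zero_of_mul h0
      have hb0 := right_ne_zero_of_mul h0
      rw [ow_mul hw ha0 hb0]
      have := (mem_iff hw ha0).1 ha
      omega

private theorem addB (hw : IsPl k w) {N : ℤ} {a b : M} (ha : a = 0 ∨ N ≤ ow w a)
    (hb : b = 0 ∨ N ≤ ow w b) : a + b = 0 ∨ N ≤ ow w (a + b) := ow_add hw ha hb

private theorem TN_mul (hw : IsPl k w) {D' : Derivation ℤ M M} {N : ℤ} {a b : M}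
    (ha : TN w D' N a) (hb : TN w D' N b) : TN w D' N (a * b) := by
  refine ⟨w.mul_mem _ _ ha.1 hb.1, ?_⟩
  rw [Derivation.leibniz]
  exact addB hw (mulB hw ha.1 hb.2) (mulB hw hb.1 ha.2)

private theorem TN_add (hw : IsPl k w) {D' : Derivation ℤ M M} {N : ℤ} {a b : M}
    (ha : TN w D' N a) (hb : TN w D' N b) : TN w D' N (a + b) := by
  refine ⟨w.add_mem _ _ ha.1 hb.1, ?_⟩
  rw [map_add]
  exact addB hw ha.2 hb.2

private theorem TN_mono {D' : Derivation ℤ M M} {N N' : ℤ} (h : N' ≤ N) {a : M}
    (ha : TN w D' N a) : TN w D' N' a :=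
  ⟨ha.1, ha.2.imp_right h.trans⟩

private theorem TN_ex {D' : Derivation ℤ M M} (s : Finset M) (hs : ∀ x ∈ s, x ∈ w) :
    ∃ N : ℤ, N ≤ 0 ∧ ∀ x ∈ s, TN w D' N x := by
  classical
  induction s using Finset.induction_on with
  | empty => exact ⟨0, le_rfl, by simp⟩
  | insert a s ha ih =>
    obtain ⟨N, hN, h⟩ := ih fun x hx => hs x (Finset.mem_insert_of_mem hx)
    refine ⟨min N (ow w (D' a)), (min_le_left _ _).trans hN, fun x hx => ?_⟩
    rcases Finset.mem_insert.1 hx with rfl | hx
    · exact ⟨hs _ (Finset.mem_insert_self _ _), Or.inr (min_le_right _ _)⟩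
    · exact TN_mono (min_le_left _ _) (h x hx)

end

private theorem ex_gens {k M : Type u} [Field k] [Field M] [Algebra k M]
    (hM : FF1 k M) (w : ValuationSubring M) :
    ∃ s : Finset M, (∀ x ∈ s, x ∈ w) ∧ IntermediateField.adjoin k (s : Set M) = ⊤ := by
  classical
  obtain ⟨g, -, hfin⟩ := hM
  let b := Module.finBasis (IntermediateField.adjoin k ({g} : Set M)) M
  let t : Finset M := insert g (Finset.univ.image b)
  refine ⟨t.image fun x => if x ∈ w then x else x⁻¹, ?_, ?_⟩
  · intro x hx
    obtain ⟨y, -, rfl⟩ := Finset.mem_image.1 hx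
    split_ifs with h
    · exact h
    · exact (w.mem_or_inv_mem y).resolve_left h
  · have h1 : ∀ y ∈ t, y ∈ IntermediateField.adjoin k
        ((t.image fun x => if x ∈ w then x else x⁻¹ : Finset M) : Set M) := by
      intro y hy
      have h2 : (if y ∈ w then y else y⁻¹) ∈ IntermediateField.adjoin k
        ((t.image fun x => if x ∈ w then x else x⁻¹ : Finset M) : Set M) :=
        IntermediateField.subset_adjoin _ _ (Finset.mem_coe.2 (Finset.mem_image_of_mem _ hy))
      split_ifs at h2 with h3
      · exact h2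
      · have := inv_mem h2
        rwa [inv_inv] at this
    rw [eq_top_iff]
    intro x _
    rw [← b.sum_repr x]
    refine sum_mem fun i _ => ?_
    rw [Algebra.smul_def]
    refine mul_mem ?_ (h1 _ (Finset.mem_insert_of_mem (Finset.mem_image_of_mem _ (Finset.mem_univ i))))
    have h4 : IntermediateField.adjoin k ({g} : Set M) ≤ IntermediateField.adjoin k
        ((t.image fun x => if x ∈ w then x else x⁻¹ : Finset M) : Set M) := by
      rw [IntermediateField.adjoin_le_iff]
      rintro y rfl
      exact h1 _ (Finset.mem_insert_self _ _)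
    exact h4 (b.repr x i).2

theorem der_bdd {k M : Type u} [Field k] [IsAlgClosed k] [CharZero k] [Field M] [Algebra k M]
    (hM : FF1 k M) (D' : Derivation ℤ M M) (D : k → k)
    (hD : ∀ c : k, D' (algebraMap k M c) = algebraMap k M (D c)) {w : ValuationSubring M}
    (hw : IsPl k w) : ∃ N : ℤ, ∀ f ∈ w, D' f = 0 ∨ N ≤ ow w (D' f) := by
  classical
  obtain ⟨s, hsw, hs⟩ := ex_gens hM w
  let B : Subalgebra k M := Algebra.adjoin k (s : Set M)
  have hBfg : B.FG := ⟨s, rfl⟩
  have hfrac : ∀ x : M, ∃ a b : B, b ≠ 0 ∧ x * (b : M) = a := by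
    intro x
    have hx : x ∈ IntermediateField.adjoin k (s : Set M) := by rw [hs]; trivial
    obtain ⟨r, hr, t, ht, hx⟩ := IntermediateField.mem_adjoin_iff_div.1 hx
    by_cases ht0 : t = 0
    · refine ⟨0, 1, one_ne_zero, ?_⟩
      rw [hx, ht0, div_zero, zero_mul]; rfl
    · refine ⟨⟨r, hr⟩, ⟨t, ht⟩, fun h => ht0 (congrArg Subtype.val h), ?_⟩
      change x * t = r
      rw [hx, div_mul_cancel₀ _ ht0]
  obtain ⟨hfin, hded, hfr, hnf, hres, -⟩ := norm_fin hM B hBfg hfrac
  have hBw : ∀ b ∈ B, b ∈ w := by
    intro b hb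
    induction hb using Algebra.adjoin_induction with
    | mem x hx => exact hsw x hx
    | algebraMap r => exact hw.alg r
    | add x y _ _ hx hy => exact w.add_mem _ _ hx hy
    | mul x y _ _ hx hy => exact w.mul_mem _ _ hx hy
  have hSw : ∀ x : integralClosure B M, (x : M) ∈ w := by
    intro x
    let φ : B →+* w := B.val.toRingHom.codRestrict w.toSubring fun b => hBw _ b.2
    let _ : Algebra B w := φ.toAlgebra
    have _ : IsScalarTower B w M := .of_algebraMap_eq fun _ => rfl
    have h1 : IsIntegral w (x : M) := (show IsIntegral B (x : M) from x.2).tower_top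
    obtain ⟨y, hy⟩ := (IsIntegrallyClosed.isIntegral_iff (R := w) (K := M)).1 h1
    rw [← hy]
    exact y.2
  obtain ⟨e, he1, -, he3, -⟩ := places_dd (k := k) (S := integralClosure B M) (M := M) hnf
    (fun n s => hres n s)
  obtain ⟨t, ht⟩ := hfin.fg_top
  have htw : ∀ x ∈ t.image (fun y : integralClosure B M => (y : M)), x ∈ w := by
    intro x hx
    obtain ⟨y, -, rfl⟩ := Finset.mem_image.1 hx
    exact hSw y
  obtain ⟨N, hN0, hN⟩ := TN_ex (D' := D') (s ∪ t.image (fun y : integralClosure B M => (y : M)))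
    (fun x hx => by
      rcases Finset.mem_union.1 hx with hx | hx
      · exact hsw x hx
      · exact htw x hx)
  have hconst : ∀ c : k, TN w D' N (algebraMap k M c) := by
    intro c
    refine ⟨hw.alg c, ?_⟩
    rw [hD]
    by_cases h0 : D c = 0
    · left; rw [h0, map_zero]
    · right; rw [ow_const hw h0]; exact hN0
  have hBT : ∀ b ∈ B, TN w D' N b := by
    intro b hb
    induction hb using Algebra.adjoin_induction with
    | mem x hx => exact hN x (Finset.mem_union_left _ hx)
    | algebraMap r => exact hconst r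
    | add x y _ _ hx hy => exact TN_add hw hx hy
    | mul x y _ _ hx hy => exact TN_mul hw hx hy
  have hST : ∀ x : integralClosure B M, TN w D' N (x : M) := by
    intro x
    have hx : x ∈ Submodule.span B (t : Set (integralClosure B M)) := by rw [ht]; trivial
    induction hx using Submodule.span_induction with
    | mem y hy => exact hN _ (Finset.mem_union_right _ (Finset.mem_image_of_mem _ hy))
    | zero =>
      have h := hconst 0
      rw [map_zero] at h
      exact h
    | add y z _ _ hy hz => exact TN_add hw hy hz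
    | smul b y _ hy =>
      have h := TN_mul hw (hBT b b.2) hy
      exact h
  refine ⟨N, fun f hf => ?_⟩
  obtain ⟨n, hn⟩ := e.surjective ⟨w, hw, hSw⟩
  have hn' : (e n).1 = w := congrArg Subtype.val hn
  have hf' : f ∈ (e n).1 := by rw [hn']; exact hf
  obtain ⟨a, b, hb, hab⟩ := (he3 n f).1 hf'
  have hbn : (b : M) ∉ w.nonunits := by
    rw [← hn']
    exact fun h => hb ((he1 n b).1 h)
  have hab' : f * (b : M) = (a : M) := hab
  have hb0 : (b : M) ≠ 0 := by
    intro h0
    apply hb
    have : b = 0 := Subtype.ext h0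
    rw [this]
    exact Ideal.zero_mem _
  have hbi : (b : M)⁻¹ ∈ w := by
    have h1 := (nonunit_iff hw hb0).not.1 hbn
    rw [mem_iff hw (inv_ne_zero hb0), ow_inv hw hb0]
    omega
  have h2 := congrArg D' hab'
  rw [Derivation.leibniz] at h2
  have h3 : D' f = (b : M)⁻¹ * (D' (a : M) + (-f) * D' (b : M)) := by
    rw [← h2]
    simp only [smul_eq_mul]
    field_simp
    ring
  rw [h3]
  refine mulB hw hbi (addB hw (hST a).2 (mulB hw ?_ (hST b).2))
  exact w.neg_mem _ hf

end HB.Pl
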