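import Mathlib

/-!
# PL-DerDual: derivations of `k` dual to algebraically independent elements

Plan. Extend `{p, q}` to a transcendence basis `B` of `k / ℚ` (`exists_isTranscendenceBasis_superset`). On the
purely transcendental field `ℚ(B)` the partial derivatives exist (`MvPolynomial.pderiv` on the polynomial
ring, extended to the fraction field by the quotient rule). `k / ℚ(B)` is algebraic and separable
(characteristic zero), so a derivation `ℚ(B) → k` extends to `k → k`. Possible routes: (a) `Ω[k⁄ℚ(B)] = 0` and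
`Ω[ℚ(B)⁄ℚ] ⊗ k → Ω[k⁄ℚ]` is bijective because `k / ℚ(B)` is formally étale
(`Algebra.FormallyEtale` for separable algebraic extensions, `Algebra.FormallyEtale.of_isSeparable`,
`KaehlerDifferential` base change for étale algebras); (b) Zorn / direct limit of finite extensions with
uniqueness of the extension; (c) Mathlib may already contain that the differentials of a transcendence
basis form a basis of `Ω` in characteristic zero (search `IsTranscendenceBasis` together with
`KaehlerDifferential`, `Mathlib/RingTheory/Etale/Field`, `Mathlib/FieldTheory/Differential`,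
`Mathlib/RingTheory/Smooth/Field`). Only the existence of the two derivations is needed.
-/

set_option autoImplicit false

namespace HB.Pl

open scoped TensorProduct

section

variable {k : Type} [Field k] [CharZero k] {ι : Type} {v : ι → k}

open scoped IntermediateField.algebraAdjoinAdjoin in
private theorem dual_etale (hv : IsTranscendenceBasis ℚ v) :
    Algebra.FormallyEtale (Algebra.adjoin ℚ (Set.range v)) k := by
  have h1 : Algebra.IsAlgebraic (IntermediateField.adjoin ℚ (Set.range v)) k := hv.isAlgebraic_field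
  have h2 : Algebra.IsSeparable (IntermediateField.adjoin ℚ (Set.range v)) k := inferInstance
  have h3 : Algebra.FormallyEtale (IntermediateField.adjoin ℚ (Set.range v)) k :=
    Algebra.FormallyEtale.of_isSeparable _ k
  have h4 : Algebra.FormallyEtale (Algebra.adjoin ℚ (Set.range v))
      (IntermediateField.adjoin ℚ (Set.range v)) :=
    Algebra.FormallyEtale.of_isLocalization (nonZeroDivisors _)
  exact Algebra.FormallyEtale.comp _ (IntermediateField.adjoin ℚ (Set.range v)) _

/-- extension of a derivation along a formally etale map -/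
private theorem dual_ext (S : Type) [CommRing S] [Algebra ℚ S] [Algebra S k]
    [IsScalarTower ℚ S k] [Algebra.FormallyEtale S k] (d : Derivation ℚ S k) :
    ∃ D : Derivation ℚ k k, ∀ s : S, D (algebraMap S k s) = d s := by
  refine ⟨(((LinearMap.liftBaseChange k d.liftKaehlerDifferential) ∘ₗ
    (KaehlerDifferential.tensorKaehlerEquivOfFormallyEtale ℚ S k).symm.toLinearMap)).compDer
      (KaehlerDifferential.D ℚ k), fun s => ?_⟩
  change (LinearMap.liftBaseChange k d.liftKaehlerDifferential)
    ((KaehlerDifferential.tensorKaehlerEquivOfFormallyEtale ℚ S k).symm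
      (KaehlerDifferential.D ℚ k (algebraMap S k s))) = d s
  rw [KaehlerDifferential.tensorKaehlerEquivOfFormallyEtale_symm_D_algebraMap,
    LinearMap.liftBaseChange_tmul, one_smul, Derivation.liftKaehlerDifferential_comp_D]

/-- the partial derivatives on the subalgebra generated by algebraically independent elements -/
private theorem dual_part (hv : AlgebraicIndependent ℚ v) (i : ι) :
    ∃ d : Derivation ℚ (Algebra.adjoin ℚ (Set.range v)) k, ∀ j (hj : v j ∈
      Algebra.adjoin ℚ (Set.range v)), (i = j → d ⟨v j, hj⟩ = 1) ∧ (i ≠ j → d ⟨v j, hj⟩ = 0) := by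
  classical
  let e := hv.aevalEquiv
  let D : Derivation ℚ (Algebra.adjoin ℚ (Set.range v)) (Algebra.adjoin ℚ (Set.range v)) :=
    Derivation.mk'
      ((e.toLinearMap ∘ₗ (MvPolynomial.pderiv i).toLinearMap) ∘ₗ e.symm.toLinearMap) (by
        intro a b
        change e (MvPolynomial.pderiv i (e.symm (a * b))) =
          a • e (MvPolynomial.pderiv i (e.symm b)) + b • e (MvPolynomial.pderiv i (e.symm a))
        rw [map_mul, Derivation.leibniz, map_add, smul_eq_mul, smul_eq_mul, map_mul, map_mul,
          e.apply_symm_apply, e.apply_symm_apply, smul_eq_mul, smul_eq_mul])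
  refine ⟨(Algebra.linearMap (Algebra.adjoin ℚ (Set.range v)) k).compDer D, fun j hj => ?_⟩
  have h1 : e.symm ⟨v j, hj⟩ = MvPolynomial.X j := by
    rw [AlgEquiv.symm_apply_eq]
    apply Subtype.ext
    rw [AlgebraicIndependent.aevalEquiv_apply_coe, MvPolynomial.aeval_X]
  have h2 : (Algebra.linearMap (Algebra.adjoin ℚ (Set.range v)) k).compDer D ⟨v j, hj⟩ =
      algebraMap (Algebra.adjoin ℚ (Set.range v)) k (e (MvPolynomial.pderiv i (MvPolynomial.X j))) := by
    rw [← h1]
    rfl
  rw [h2, MvPolynomial.pderiv_X]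
  constructor
  · rintro rfl
    rw [Pi.single_eq_same, map_one, map_one]
  · intro hij
    rw [Pi.single_eq_of_ne (Ne.symm hij), map_zero, map_zero]

private theorem dual_all (hv : IsTranscendenceBasis ℚ v) (i : ι) :
    ∃ D : Derivation ℤ k k, ∀ j, (i = j → D (v j) = 1) ∧ (i ≠ j → D (v j) = 0) := by
  obtain ⟨d, hd⟩ := dual_part hv.1 i
  have := dual_etale hv
  obtain ⟨D, hD⟩ := dual_ext (Algebra.adjoin ℚ (Set.range v)) d
  refine ⟨D.restrictScalars ℤ, fun j => ?_⟩
  have hj : v j ∈ Algebra.adjoin ℚ (Set.range v) := Algebra.subset_adjoin ⟨j, rfl⟩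
  have h1 : D.restrictScalars ℤ (v j) = d ⟨v j, hj⟩ := hD ⟨v j, hj⟩
  rw [h1]
  exact hd j hj

end

theorem exists_dual {k : Type} [Field k] [CharZero k] (p q : k)
    (h : AlgebraicIndependent ℚ ![p, q]) :
    ∃ D₁ D₂ : Derivation ℤ k k, D₁ p = 1 ∧ D₁ q = 0 ∧ D₂ p = 0 ∧ D₂ q = 1 := by
  obtain ⟨t, hst, ht⟩ := exists_isTranscendenceBasis_superset (s := Set.range ![p, q]) h.coe_range
  have hp : p ∈ t := hst ⟨0, rfl⟩
  have hq : q ∈ t := hst ⟨1, rfl⟩
  have hpq : p ≠ q := by
    intro hpq
    have h1 : (0 : Fin 2) = 1 := h.injective (by simpa using hpq)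
    exact absurd h1 (by decide)
  obtain ⟨D₁, h₁⟩ := dual_all ht ⟨p, hp⟩
  obtain ⟨D₂, h₂⟩ := dual_all ht ⟨q, hq⟩
  refine ⟨D₁, D₂, ?_, ?_, ?_, ?_⟩
  · exact (h₁ ⟨p, hp⟩).1 rfl
  · exact (h₁ ⟨q, hq⟩).2 fun h => hpq (congrArg Subtype.val h)
  · exact (h₂ ⟨p, hp⟩).2 fun h => hpq (congrArg Subtype.val h).symm
  · exact (h₂ ⟨q, hq⟩).1 rfl

/-- The complex numbers contain two algebraically independent elements. -/
theorem exists_indep_complex : ∃ p q : ℂ, AlgebraicIndependent ℚ ![p, q] := by
  obtain ⟨s, hs⟩ := exists_isTranscendenceBasis ℚ ℂ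
  have hnt : Nontrivial s := by
    by_contra hcon
    rw [not_nontrivial_iff_subsingleton] at hcon
    have h1 := IsAlgClosed.cardinal_le_max_transcendence_basis' (fun x : s => (x : ℂ)) hs
    have h2 : Cardinal.mk s ≤ 1 := Cardinal.le_one_iff_subsingleton.2 hcon
    have h3 : Cardinal.mk ℂ ≤ Cardinal.aleph0 := by
      refine h1.trans (max_le (max_le ?_ (h2.trans ?_)) le_rfl)
      · exact Cardinal.mk_le_aleph0
      · exact Cardinal.one_le_aleph0
    rw [Cardinal.mk_complex] at h3
    exact absurd Cardinal.aleph0_lt_continuum (not_lt.2 h3)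
  obtain ⟨a, b, hab⟩ := hnt.exists_pair_ne
  refine ⟨a, b, ?_⟩
  have hinj : Function.Injective ![a, b] := by
    intro i j hij
    fin_cases i <;> fin_cases j
    · rfl
    · exact absurd hij hab
    · exact absurd hij.symm hab
    · rfl
  have h1 := hs.1.comp ![a, b] hinj
  have h2 : ((fun x : s => (x : ℂ)) ∘ ![a, b]) = ![(a : ℂ), (b : ℂ)] := by
    funext i
    fin_cases i <;> rfl
  rw [← h2]
  exact h1

end HB.Pl
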