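import Pool.Agent.HB.Pl.Basic

/-!
# PL-DerExt: extension of derivations to a function field

Plan. `D` is an additive derivation of `k`. On `k[X]` the map `p ↦ mapCoeff D p + y * derivative p`
(`Derivation.mapCoeffs`, `Polynomial.derivative`) is a derivation; transport it to the subring `k[g]`
(`g` transcendental) and extend it to the fraction field `k(g) = IntermediateField.adjoin k {g}` by the
quotient rule (`Derivation.localization..`? or define it on `RatFunc k`), then to the finite separable
extension `M` (`Differential` structure on a finite extension of a differential field of characteristic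
zero: `differentialFiniteDimensional` in `Mathlib.FieldTheory.Differential.Basic`, with
`DifferentialAlgebra`, or: `M` is formally étale over `k(g)`, so derivations extend uniquely). All
derivations are `ℤ`-linear.
-/

set_option autoImplicit false

namespace HB.Pl

universe u

open Polynomial in
theorem exists_der {k M : Type u} [Field k] [CharZero k] [Field M] [Algebra k M]
    (D : Derivation ℤ k k) (g : M) (hg : Transcendental k g)
    [FiniteDimensional (IntermediateField.adjoin k ({g} : Set M)) M] (y : k) :
    ∃ D' : Derivation ℤ M M, (∀ c : k, D' (algebraMap k M c) = algebraMap k M (D c)) ∧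
      D' g = algebraMap k M y := by
  classical
  letI : Differential k := ⟨D⟩
  letI algM : Algebra k[X] M := (aeval g).toRingHom.toAlgebra
  let gE : IntermediateField.adjoin k ({g} : Set M) :=
    ⟨g, IntermediateField.mem_adjoin_simple_self k g⟩
  letI algE : Algebra k[X] (IntermediateField.adjoin k ({g} : Set M)) :=
    (aeval gE).toRingHom.toAlgebra
  have hM : ∀ p : k[X], algebraMap k[X] M p = aeval g p := fun p => rfl
  have hE : ∀ p : k[X], algebraMap k[X] (IntermediateField.adjoin k ({g} : Set M)) p =
      aeval gE p := fun p => rfl
  have hEM : ∀ p : k[X], aeval g p =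
      algebraMap (IntermediateField.adjoin k ({g} : Set M)) M (aeval gE p) := by
    intro p
    rw [← aeval_algebraMap_apply]
    rfl
  haveI : IsScalarTower k[X] (IntermediateField.adjoin k ({g} : Set M)) M :=
    IsScalarTower.of_algebraMap_eq hEM
  have hinj : Function.Injective
      (algebraMap k[X] (IntermediateField.adjoin k ({g} : Set M))) := by
    intro p q hpq
    have h1 : aeval g p = aeval g q := by
      rw [hEM, hEM]
      exact congrArg _ hpq
    exact (transcendental_iff_injective.mp hg) h1
  haveI : FaithfulSMul k[X] (IntermediateField.adjoin k ({g} : Set M)) :=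
    (faithfulSMul_iff_algebraMap_injective _ _).mpr hinj
  haveI : IsFractionRing k[X] (IntermediateField.adjoin k ({g} : Set M)) := by
    refine IsFractionRing.of_field _ _ (fun z => ?_)
    obtain ⟨r, t, hrt⟩ := (IntermediateField.mem_adjoin_simple_iff k (z : M)).mp z.2
    refine ⟨r, t, ?_⟩
    apply Subtype.ext
    rw [hE, hE, IntermediateField.coe_div, hrt, hEM, hEM]
    rfl
  haveI : Algebra.FormallyEtale k[X] (IntermediateField.adjoin k ({g} : Set M)) :=
    Algebra.FormallyEtale.of_isLocalization (nonZeroDivisors k[X])
  haveI : CharZero (IntermediateField.adjoin k ({g} : Set M)) :=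
    charZero_of_injective_algebraMap (algebraMap k _).injective
  haveI : Algebra.FormallyEtale (IntermediateField.adjoin k ({g} : Set M)) M :=
    Algebra.FormallyEtale.of_isSeparable _ _
  haveI : Algebra.FormallyEtale k[X] M :=
    Algebra.FormallyEtale.comp k[X] (IntermediateField.adjoin k ({g} : Set M)) M
  let δ : Derivation ℤ k[X] M :=
    (Algebra.linearMap k[X] M).compDer (Differential.implicitDeriv (C y))
  let F : Ω[M⁄ℤ] →ₗ[M] M := (δ.liftKaehlerDifferential.liftBaseChange M).comp
    (KaehlerDifferential.tensorKaehlerEquivOfFormallyEtale ℤ k[X] M).symm.toLinearMap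
  let D' : Derivation ℤ M M := F.compDer (KaehlerDifferential.D ℤ M)
  have key : ∀ p : k[X], D' (algebraMap k[X] M p) = δ p := by
    intro p
    change δ.liftKaehlerDifferential.liftBaseChange M
      ((KaehlerDifferential.tensorKaehlerEquivOfFormallyEtale ℤ k[X] M).symm
        (KaehlerDifferential.D ℤ M (algebraMap k[X] M p))) = δ p
    rw [KaehlerDifferential.tensorKaehlerEquivOfFormallyEtale_symm_D_algebraMap,
      LinearMap.liftBaseChange_tmul, one_smul, Derivation.liftKaehlerDifferential_comp_D]
  refine ⟨D', ?_, ?_⟩
  · intro c
    have h1 := key (C c)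
    rw [hM, aeval_C] at h1
    rw [h1]
    change algebraMap k[X] M (Differential.implicitDeriv (C y) (C c)) = _
    rw [Differential.implicitDeriv_C, hM, aeval_C]
    rfl
  · have h1 := key X
    rw [hM, aeval_X] at h1
    rw [h1]
    change algebraMap k[X] M (Differential.implicitDeriv (C y) X) = _
    rw [Differential.implicitDeriv_X, hM, aeval_C]

end HB.Pl
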