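import Pool.Agent.HB.Pl.Basic

/-!
# PL-DerPres: derivations at a place: the two cases `D' π = 0` and `D' = d/dπ`

Plan for `der_pres`. Let `e := ow w π > 0` and `N` maximal (or the minimum of the orders `ow w (D' f)`, `f ∈ w`)
with the bound `hb`. Let `τ` be a uniformiser, `π = u * τ ^ e` with `u` a unit of `w`. Then
`0 = D' π = τ ^ e * D' u + e * u * τ ^ (e - 1) * D' τ`, so `ow (D' τ) ≥ N + 1` (or `D' τ = 0`; here `e ≠ 0` in `k`).
Suppose `N < 0`. For `f ∈ w`, `f = c + τ f₁` (`decomp`), `D' f = D c + (D' τ) f₁ + τ D' f₁` has order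
`≥ min 0 (N + 1)`, so `N + 1` is also a bound. Induct: `0` is a bound (bounds `N` with `N ≤ 0`: if `N` is a bound and
`N < 0` then `N + 1` is a bound). So `D' f ∈ w`; with `N = 0`: `ow (D' τ) ≥ 1`, hence `D' (τ f₁) ∈ nonunits`, and
`f - c ∈ nonunits` gives `D' f - D c ∈ nonunits`, `ev (D' f) = D (ev f)`.
Plan for `der_pole`. `e := ow w π`, `π = u τ ^ e`, `1 = D' π = τ ^ e * D' u + e u τ ^ (e-1) D' τ`. For `f = c + τ f₁`:
`D' f = (D' τ) f₁ + τ D' f₁` (`D' c = 0`). If `N` is a bound with `N < 1 - e` then from the equation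
`ow (D' τ) ≥ min (N + e, 0) - (e - 1) ≥ N + 1`, so `N + 1` is a bound. Hence `1 - e` is a bound
(or if some bound is `≥ 1 - e` we are done).
-/

set_option autoImplicit false

namespace HB.Pl

universe u

section aux

variable {k M : Type u} [Field k] [Field M] [Algebra k M] {w : ValuationSubring M}

private def OB (w : ValuationSubring M) (n : ℤ) (a : M) : Prop := a = 0 ∨ n ≤ ow w a

private theorem OB.mono {n m : ℤ} {a : M} (h : OB w n a) (hm : m ≤ n) : OB w m a :=
  h.imp id fun h => hm.trans h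

private theorem OB.mul (hw : IsPl k w) {n m : ℤ} {a b : M} (ha : OB w n a) (hb : OB w m b) :
    OB w (n + m) (a * b) := by
  rcases ha with rfl | ha
  · left; rw [zero_mul]
  rcases hb with rfl | hb
  · left; rw [mul_zero]
  by_cases ha0 : a = 0
  · left; rw [ha0, zero_mul]
  by_cases hb0 : b = 0
  · left; rw [hb0, mul_zero]
  right
  rw [ow_mul hw ha0 hb0]
  linarith

private theorem OB.add (hw : IsPl k w) {n : ℤ} {a b : M} (ha : OB w n a) (hb : OB w n b) :
    OB w n (a + b) := ow_add hw ha hb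

private theorem OB.of_mem (hw : IsPl k w) {a : M} (ha : a ∈ w) : OB w 0 a := by
  by_cases h : a = 0
  · exact Or.inl h
  · exact Or.inr ((mem_iff hw h).1 ha)

private theorem OB.const (hw : IsPl k w) (c : k) : OB w 0 (algebraMap k M c) :=
  OB.of_mem hw (hw.alg c)

private theorem OB.nonunit (hw : IsPl k w) {a : M} (ha : OB w 1 a) : a ∈ w.nonunits := by
  by_cases h : a = 0
  · rw [h]; exact w.nonunits.zero_mem
  · rw [nonunit_iff hw h]
    have := ha.resolve_left h
    linarith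

/-- the key equation for the derivative of a uniformiser -/
private theorem key_eq [CharZero k] (D' : Derivation ℤ M M) (hw : IsPl k w) {π τ : M}
    (hπ : 0 < ow w π) (hτ0 : τ ≠ 0) (hτ : ow w τ = 1) :
    ∃ (v u : M), OB w 0 v ∧ u ∈ w ∧
      D' τ = v * τ ^ (1 - ow w π) * (D' π - τ ^ (ow w π) * D' u) := by
  have hπ0 : π ≠ 0 := by
    rintro rfl
    rw [ow_zero] at hπ
    exact lt_irrefl _ hπ
  obtain ⟨e, he⟩ := Int.eq_ofNat_of_zero_le hπ.le
  have he1 : 1 ≤ e := by omega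
  rw [he]
  have hpow : τ ^ e ≠ 0 := pow_ne_zero _ hτ0
  set u := π / τ ^ e with hu
  have hu0 : u ≠ 0 := div_ne_zero hπ0 hpow
  have huo : ow w u = 0 := by
    rw [hu, ow_div hw hπ0 hpow, ow_pow hw hτ0, hτ, he]
    ring
  have hπu : π = u * τ ^ e := by rw [hu]; field_simp
  have hek : (e : k) ≠ 0 := by
    have : e ≠ 0 := by omega
    exact_mod_cast this
  have heM : (e : M) ≠ 0 := by
    intro h
    apply hek
    have : algebraMap k M (e : k) = 0 := by rw [map_natCast]; exact h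
    exact (map_eq_zero (algebraMap k M)).1 this
  have heo : ow w (e : M) = 0 := by
    have := ow_const (M := M) hw hek
    rwa [map_natCast] at this
  refine ⟨(u * e)⁻¹, u, ?_, ?_, ?_⟩
  · right
    rw [ow_inv hw (mul_ne_zero hu0 heM), ow_mul hw hu0 heM, huo, heo]
    simp
  · rw [mem_iff hw hu0, huo]
  · have h1 : D' π = u * (e * (τ ^ (e - 1) * D' τ)) + τ ^ e * D' u := by
      conv_lhs => rw [hπu]
      rw [D'.leibniz, D'.leibniz_pow]
      simp only [smul_eq_mul, nsmul_eq_mul]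
    have h2 : τ ^ (1 - (e : ℤ)) * τ ^ (e - 1) = 1 := by
      rw [← zpow_natCast, ← zpow_add₀ hτ0]
      have : (1 - (e : ℤ)) + ((e - 1 : ℕ) : ℤ) = 0 := by
        push_cast [Nat.cast_sub he1]
        ring
      rw [this, zpow_zero]
    have h3 : (τ ^ ((e : ℕ) : ℤ) : M) = τ ^ e := zpow_natCast _ _
    change D' τ = (u * e)⁻¹ * τ ^ (1 - (e : ℤ)) * (D' π - τ ^ ((e : ℕ) : ℤ) * D' u)
    rw [h3, h1]
    have h4 : (u * (e : M))⁻¹ * (u * e) = 1 := inv_mul_cancel₀ (mul_ne_zero hu0 heM)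
    calc D' τ = ((u * (e : M))⁻¹ * (u * e)) * (τ ^ (1 - (e : ℤ)) * τ ^ (e - 1)) * D' τ := by
          rw [h4, h2, one_mul, one_mul]
      _ = _ := by ring

private theorem OB.zpow (hw : IsPl k w) {τ : M} (hτ0 : τ ≠ 0) (hτ : ow w τ = 1) (n : ℤ) :
    OB w n (τ ^ n) := by
  right
  rw [ow_zpow hw hτ0, hτ, mul_one]

private theorem nonunit_fac (hw : IsPl k w) {τ : M} (hτ0 : τ ≠ 0) (hτ : ow w τ = 1) {f : M}
    (hf : f ∈ w.nonunits) : ∃ g ∈ w, f = τ * g := by
  by_cases h : f = 0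
  · exact ⟨0, w.zero_mem, by rw [h, mul_zero]⟩
  rw [nonunit_iff hw h] at hf
  refine ⟨f / τ, ?_, by field_simp⟩
  rw [mem_iff hw (div_ne_zero h hτ0), ow_div hw h hτ0, hτ]
  linarith

end aux

theorem der_pres {k M : Type u} [Field k] [CharZero k] [Field M] [Algebra k M]
    (D' : Derivation ℤ M M) (D : k → k)
    (hD : ∀ c : k, D' (algebraMap k M c) = algebraMap k M (D c)) {w : ValuationSubring M}
    (hw : IsPl k w) (hb : ∃ N : ℤ, ∀ f ∈ w, D' f = 0 ∨ N ≤ ow w (D' f)) {π : M}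
    (hπ : 0 < ow w π) (h0 : D' π = 0) :
    (∀ f ∈ w, D' f ∈ w) ∧ (∀ f ∈ w.nonunits, D' f ∈ w.nonunits) ∧
      ∀ f ∈ w, ev k w (D' f) = D (ev k w f) := by
  obtain ⟨τ, hτ0, hτ⟩ := exists_unif hw
  have htau : ∀ N : ℤ, (∀ f ∈ w, OB w N (D' f)) → OB w (N + 1) (D' τ) := by
    intro N hN
    obtain ⟨v, u, hv, hu, h⟩ := key_eq D' hw hπ hτ0 hτ
    rw [h, h0, zero_sub]
    have h1 : OB w (ow w π + N) (τ ^ (ow w π) * D' u) := (OB.zpow hw hτ0 hτ _).mul hw (hN u hu)
    have h2 : OB w (ow w π + N) (-(τ ^ (ow w π) * D' u)) := by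
      rcases h1 with h1 | h1
      · left; rw [h1, neg_zero]
      · right; rwa [ow_neg hw]
    exact ((hv.mul hw (OB.zpow hw hτ0 hτ _)).mul hw h2).mono (by linarith)
  have hstep : ∀ m : ℕ, (∀ f ∈ w, OB w (-(m : ℤ)) (D' f)) → ∀ f ∈ w, OB w 0 (D' f) := by
    intro m
    induction m with
    | zero => intro h f hf; simpa using h f hf
    | succ m ih =>
      intro h
      apply ih
      intro f hf
      obtain ⟨f₁, hf₁, hdec⟩ := decomp hw hτ hf
      rw [hdec, map_add, hD, D'.leibniz]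
      simp only [smul_eq_mul]
      refine OB.add hw ((OB.const hw _).mono (by simp)) (OB.add hw ?_ ?_)
      · refine (OB.mul hw (n := 1) (Or.inr hτ.ge) (h f₁ hf₁)).mono ?_
        push_cast
        linarith
      · refine (OB.mul hw (OB.of_mem hw hf₁) (htau _ h)).mono ?_
        push_cast
        linarith
  obtain ⟨N, hN⟩ := hb
  have hB0 : ∀ f ∈ w, OB w 0 (D' f) := by
    apply hstep N.natAbs
    intro f hf
    refine OB.mono (hN f hf) ?_
    omega
  have hmem : ∀ f ∈ w, D' f ∈ w := by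
    intro f hf
    by_cases h : D' f = 0
    · rw [h]; exact w.zero_mem
    · rw [mem_iff hw h]
      exact (hB0 f hf).resolve_left h
  have hnon : ∀ f ∈ w.nonunits, D' f ∈ w.nonunits := by
    intro f hf
    obtain ⟨g, hg, rfl⟩ := nonunit_fac hw hτ0 hτ hf
    apply OB.nonunit hw
    rw [D'.leibniz]
    simp only [smul_eq_mul]
    refine OB.add hw ?_ ?_
    · exact (OB.mul hw (n := 1) (Or.inr hτ.ge) (hB0 g hg)).mono (by linarith)
    · exact (OB.mul hw (OB.of_mem hw hg) (htau _ hB0)).mono (by linarith)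
  refine ⟨hmem, hnon, ?_⟩
  intro f hf
  apply ev_unique hw
  have := hnon _ (ev_spec hw hf)
  rwa [map_sub, hD] at this

theorem der_pole {k M : Type u} [Field k] [CharZero k] [Field M] [Algebra k M]
    (D' : Derivation ℤ M M) (hD : ∀ c : k, D' (algebraMap k M c) = 0) {w : ValuationSubring M}
    (hw : IsPl k w) (hb : ∃ N : ℤ, ∀ f ∈ w, D' f = 0 ∨ N ≤ ow w (D' f)) {π : M}
    (hπ : 0 < ow w π) (h1 : D' π = 1) :
    ∀ f ∈ w, D' f = 0 ∨ 1 - ow w π ≤ ow w (D' f) := by
  obtain ⟨τ, hτ0, hτ⟩ := exists_unif hw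
  have htau : ∀ N : ℤ, (∀ f ∈ w, OB w N (D' f)) → N + ow w π ≤ 0 → OB w (N + 1) (D' τ) := by
    intro N hN hle
    obtain ⟨v, u, hv, hu, h⟩ := key_eq D' hw hπ hτ0 hτ
    rw [h, h1, sub_eq_add_neg (1 : M)]
    have h1 : OB w (ow w π + N) (τ ^ (ow w π) * D' u) := (OB.zpow hw hτ0 hτ _).mul hw (hN u hu)
    have h2 : OB w (ow w π + N) (-(τ ^ (ow w π) * D' u)) := by
      rcases h1 with h1 | h1
      · left; rw [h1, neg_zero]
      · right; rwa [ow_neg hw]
    have h3 : OB w (ow w π + N) (1 : M) := by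
      right
      rw [ow_one hw]
      linarith
    exact ((hv.mul hw (OB.zpow hw hτ0 hτ _)).mul hw (h3.add hw h2)).mono (by linarith)
  have hstep : ∀ m : ℕ, (∀ f ∈ w, OB w (1 - ow w π - (m : ℤ)) (D' f)) →
      ∀ f ∈ w, OB w (1 - ow w π) (D' f) := by
    intro m
    induction m with
    | zero => intro h f hf; simpa using h f hf
    | succ m ih =>
      intro h
      apply ih
      intro f hf
      obtain ⟨f₁, hf₁, hdec⟩ := decomp hw hτ hf
      rw [hdec, map_add, hD, zero_add, D'.leibniz]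
      simp only [smul_eq_mul]
      refine OB.add hw ?_ ?_
      · refine (OB.mul hw (n := 1) (Or.inr hτ.ge) (h f₁ hf₁)).mono ?_
        push_cast
        linarith
      · refine (OB.mul hw (OB.of_mem hw hf₁) (htau _ h ?_)).mono ?_
        · push_cast
          linarith [Int.natCast_nonneg m]
        · push_cast
          linarith
  obtain ⟨N, hN⟩ := hb
  apply hstep (1 - ow w π - N).natAbs
  intro f hf
  refine OB.mono (hN f hf) ?_
  omega

end HB.Pl
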