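import Pool.Agent.HB.Pl.Basic

/-!
# PL-Form: the regular differentials `x ^ i dx / y` (`i = 0, 1`) of the curve `y² = x⁶ + 1`

`fm D' i x y = x ^ i * D' x / y` is the value of the differential at the point `(x, y)` with coordinates in `M`
on the derivation `D'`.
Plan. Cases. (1) `x ∈ w`, `y` a unit of `w` (`y ∈ w` because `y² ∈ w`): clear. (2) `x ∈ w`, `y ∈ nonunits`: `x ^ 6 + 1 = y²`,
so `x` is a unit (`ev x ^ 6 = -1`); `2 y D' y = 6 x ^ 5 D' x`, so `D' x / y = D' y / (3 x ^ 5)` (`y ≠ 0`; if `y = 0` then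
`fm = 0` by division by zero; in `fm_ev`: `ev y = 0`, so the right side is `0`, and `ev (D' y) = D (ev y) = D 0 = 0`
since `D' y ∈ nonunits` by `h2`). (3) `x ∉ w`: `u := 1/x ∈ nonunits`, `v := y / x ^ 3`, `v² = 1 + u ^ 6`, so `v` is a unit of
`w`; `D' x = - D' u / u²`, `D' x / y = - u D' u / v`, `x D' x / y = - D' u / v`; in `fm_ev` the value is `0` because
`D' u ∈ nonunits` by `h2`.
-/

set_option autoImplicit false

namespace HB.Pl

universe u

/-- The value at the point `(x, y)` and the derivation `D'` of the differential `x ^ i dx / y`. -/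
def fm {M : Type u} [Field M] (D' : M → M) (i : ℕ) (x y : M) : M := x ^ i * D' x / y

private theorem mem_of_sq {M : Type u} [Field M] {w : ValuationSubring M} {y : M}
    (h : y ^ 2 ∈ w) : y ∈ w := by
  rcases w.mem_or_inv_mem y with h1 | h1
  · exact h1
  by_cases hy : y = 0
  · rw [hy]
    exact w.zero_mem
  have h2 : y = y ^ 2 * y⁻¹ := by field_simp
  rw [h2]
  exact w.mul_mem _ _ h h1

private theorem fm_case2 {k M : Type u} [Field k] [CharZero k] [Field M] [Algebra k M]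
    {w : ValuationSubring M} (hw : IsPl k w) (D' : Derivation ℤ M M) {i : ℕ}
    {x y : M} (h : y ^ 2 = x ^ 6 + 1) (hx : x ∈ w) (hy : y ∈ w.nonunits) :
    ∃ c ∈ w, fm D' i x y = c * D' y := by
  have : CharZero M := charZero_of_injective_algebraMap (algebraMap k M).injective
  by_cases hy0 : y = 0
  · exact ⟨0, w.zero_mem, by unfold fm; rw [hy0, div_zero, zero_mul]⟩
  have hyw : y ∈ w := w.nonunits_subset hy
  have hevy : ev k w y = 0 := (ev_eq_zero_iff hw hyw).2 hy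
  have hev : (0 : k) = ev k w x ^ 6 + 1 := by
    have h1 := congrArg (ev k w) h
    rw [ev_pow hw hyw, hevy, ev_add hw (pow_mem hx 6) w.one_mem, ev_pow hw hx, ev_one hw] at h1
    rw [← h1]
    ring
  have hevx : ev k w x ≠ 0 := by
    intro h0
    rw [h0] at hev
    simp at hev
  obtain ⟨hxi, -⟩ := ev_inv hw hx hevx
  have hx0 : x ≠ 0 := by
    intro h0
    rw [h0, ev_zero hw] at hevx
    exact hevx rfl
  have h3 : (3 : M)⁻¹ ∈ w := by
    have h4 := hw.alg (3 : k)⁻¹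
    rwa [map_inv₀, map_ofNat] at h4
  have hD : 2 * y * D' y = 6 * x ^ 5 * D' x := by
    have h1 := congrArg D' h
    rw [Derivation.leibniz_pow, map_add, Derivation.leibniz_pow, Derivation.map_one_eq_zero] at h1
    simp only [smul_eq_mul, nsmul_eq_mul] at h1
    norm_num at h1
    linear_combination h1
  refine ⟨x ^ i * ((3 : M)⁻¹ * x⁻¹ ^ 5), w.mul_mem _ _ (pow_mem hx i)
    (w.mul_mem _ _ h3 (pow_mem hxi 5)), ?_⟩
  have h5 : D' x = y * D' y * ((3 : M)⁻¹ * x⁻¹ ^ 5) := by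
    field_simp
    linear_combination (-1 / 2 : M) * hD
  unfold fm
  rw [h5]
  field_simp

private theorem fm_case3 {k M : Type u} [Field k] [CharZero k] [Field M] [Algebra k M]
    {w : ValuationSubring M} (hw : IsPl k w) (D' : Derivation ℤ M M) {i : ℕ} (hi : i ≤ 1)
    {x y : M} (h : y ^ 2 = x ^ 6 + 1) (hx : x ∉ w) :
    ∃ c ∈ w, ∃ u ∈ w.nonunits, fm D' i x y = c * D' u := by
  have hx0 : x ≠ 0 := by
    intro h0
    exact hx (by rw [h0]; exact w.zero_mem)
  have hu : x⁻¹ ∈ w.nonunits := by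
    rw [ValuationSubring.mem_nonunits_iff_or]
    right
    rwa [inv_inv]
  have huw : x⁻¹ ∈ w := w.nonunits_subset hu
  have hevu : ev k w x⁻¹ = 0 := (ev_eq_zero_iff hw huw).2 hu
  have hv2 : (y / x ^ 3) ^ 2 = 1 + x⁻¹ ^ 6 := by
    field_simp
    linear_combination h
  have hvw : y / x ^ 3 ∈ w := by
    apply mem_of_sq
    rw [hv2]
    exact w.add_mem _ _ w.one_mem (pow_mem huw 6)
  have hevv : ev k w (y / x ^ 3) ≠ 0 := by
    intro h0
    have h1 := congrArg (ev k w) hv2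
    rw [ev_pow hw hvw, h0, ev_add hw w.one_mem (pow_mem huw 6), ev_pow hw huw, ev_one hw,
      hevu] at h1
    norm_num at h1
  obtain ⟨hvi, -⟩ := ev_inv hw hvw hevv
  have hy0 : y ≠ 0 := by
    intro h0
    rw [h0, zero_div, ev_zero hw] at hevv
    exact hevv rfl
  have hD : D' x⁻¹ = - x⁻¹ ^ 2 * D' x := by
    have h1 : D' (x * x⁻¹) = 0 := by
      rw [mul_inv_cancel₀ hx0, Derivation.map_one_eq_zero]
    rw [Derivation.leibniz, smul_eq_mul, smul_eq_mul] at h1
    have h2 : D' x⁻¹ = x⁻¹ * (x * D' x⁻¹) := by field_simp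
    rw [h2]
    have h3 : x * D' x⁻¹ = - (x⁻¹ * D' x) := by linear_combination h1
    rw [h3]
    ring
  have hD' : D' x = - x ^ 2 * D' x⁻¹ := by
    rw [hD]
    field_simp
  refine ⟨-(x⁻¹ ^ (1 - i)) * (y / x ^ 3)⁻¹, w.mul_mem _ _ (w.neg_mem _ (pow_mem huw _)) hvi,
    x⁻¹, hu, ?_⟩
  unfold fm
  rw [hD']
  generalize D' x⁻¹ = d
  interval_cases i
  · simp only [Nat.sub_zero, pow_one, pow_zero, one_mul]
    field_simp
  · simp only [Nat.sub_self, pow_one, pow_zero]
    field_simp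

theorem fm_bd {k M : Type u} [Field k] [CharZero k] [Field M] [Algebra k M]
    {w : ValuationSubring M} (hw : IsPl k w) (D' : Derivation ℤ M M) {N : ℤ} (hN : N ≤ 0)
    (hb : ∀ f ∈ w, D' f = 0 ∨ N ≤ ow w (D' f)) {i : ℕ} (hi : i ≤ 1) {x y : M}
    (h : y ^ 2 = x ^ 6 + 1) : fm D' i x y = 0 ∨ N ≤ ow w (fm D' i x y) := by
  have key : ∃ c ∈ w, ∃ f ∈ w, fm D' i x y = c * D' f := by
    by_cases hx : x ∈ w
    · have hy : y ∈ w := mem_of_sq (by rw [h]; exact w.add_mem _ _ (pow_mem hx 6) w.one_mem)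
      by_cases hyn : y ∈ w.nonunits
      · obtain ⟨c, hc, e⟩ := fm_case2 hw D' (i := i) h hx hyn
        exact ⟨c, hc, y, hy, e⟩
      · rw [ValuationSubring.mem_nonunits_iff_or, not_or, not_not] at hyn
        refine ⟨x ^ i * y⁻¹, w.mul_mem _ _ (pow_mem hx i) hyn.2, x, hx, ?_⟩
        unfold fm
        ring
    · obtain ⟨c, hc, u, hu, e⟩ := fm_case3 hw D' hi h hx
      exact ⟨c, hc, u, w.nonunits_subset hu, e⟩
  obtain ⟨c, hc, f, hf, e⟩ := key
  rw [e]
  by_cases hc0 : c = 0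
  · left
    rw [hc0, zero_mul]
  by_cases hD0 : D' f = 0
  · left
    rw [hD0, mul_zero]
  right
  rw [ow_mul hw hc0 hD0]
  have h1 := (mem_iff hw hc0).1 hc
  have h2 := (hb f hf).resolve_left hD0
  linarith

open Classical in
theorem fm_ev {k M : Type u} [Field k] [CharZero k] [Field M] [Algebra k M]
    {w : ValuationSubring M} (hw : IsPl k w) (D' : Derivation ℤ M M) (D : Derivation ℤ k k)
    (h1 : ∀ f ∈ w, D' f ∈ w) (h2 : ∀ f ∈ w.nonunits, D' f ∈ w.nonunits)
    (h3 : ∀ f ∈ w, ev k w (D' f) = D (ev k w f)) {i : ℕ} (hi : i ≤ 1) {x y : M}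
    (h : y ^ 2 = x ^ 6 + 1) :
    fm D' i x y ∈ w ∧ ev k w (fm D' i x y) =
      if x ∈ w then ev k w x ^ i * D (ev k w x) / ev k w y else 0 := by
  have key : ∀ c ∈ w, ∀ u ∈ w.nonunits, c * D' u ∈ w ∧ ev k w (c * D' u) = 0 := by
    intro c hc u hu
    have h4 : c * D' u ∈ w.nonunits := by
      rw [mul_comm]
      exact nonunits_mul hw (h2 u hu) hc
    exact ⟨w.nonunits_subset h4, (ev_eq_zero_iff hw (w.nonunits_subset h4)).2 h4⟩
  by_cases hx : x ∈ w
  · rw [if_pos hx]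
    have hy : y ∈ w := mem_of_sq (by rw [h]; exact w.add_mem _ _ (pow_mem hx 6) w.one_mem)
    by_cases hyn : y ∈ w.nonunits
    · obtain ⟨c, hc, e⟩ := fm_case2 hw D' (i := i) h hx hyn
      rw [(ev_eq_zero_iff hw hy).2 hyn, div_zero, e]
      exact key c hc y hyn
    · have hevy : ev k w y ≠ 0 := fun h0 => hyn ((ev_eq_zero_iff hw hy).1 h0)
      have h4 : x ^ i * D' x ∈ w := w.mul_mem _ _ (pow_mem hx i) (h1 x hx)
      obtain ⟨h5, h6⟩ := ev_div hw h4 hy hevy
      refine ⟨h5, ?_⟩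
      unfold fm
      rw [h6, ev_mul hw (pow_mem hx i) (h1 x hx), ev_pow hw hx, h3 x hx]
  · rw [if_neg hx]
    obtain ⟨c, hc, u, hu, e⟩ := fm_case3 hw D' hi h hx
    rw [e]
    exact key c hc u hu

end HB.Pl
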