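import Pool.Agent.HB.A.LocD
import Pool.Agent.HB.A.CurveA
import Pool.Agent.HB.Pl.Basic

/-!
# PL-KapA: the local rings of a curve on a surface are localisations of a finitely generated algebra

Plan. `chi`: the restriction to the curve of the functions of a chart.
* `chi_fg`: `S.chart l` is a finitely generated `k`-algebra (`S.chart_ft`), so its image is.
* `chi_frac`: `C.1 = LocalSubring.ofPrime (S.chart l) p` (`PD.ofPrime_of_chart`), so (`mem_ofPrime`) an
  element of `C.1` is `a / b`, `a b ∈ S.chart l`, `b ∉ p`; then `b⁻¹ ∈ C.1` (`notMem_iff_inv_mem`), so the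
  residue of `b` is nonzero and `residue (a/b) * residue b = residue a`.
* `isCurveLoc`: choose `l` with `S.chart l ≤ P.1.toSubring` (`Pt.exists_chart`), then
  `S.chart l ≤ C.1.toSubring` (`h : On P C`). `P.1 = ofPrime (S.chart l) q`, `q` maximal
  (`Pt.ofPrime_of_chart`). `B := (C.chi hl).range`, `m := q.map (C.chi hl).rangeRestrict`; it is maximal
  (`Ideal.IsMaximal.map_of_surjective_of_ker_le` or by hand; the kernel is contained in `q`: `a` with zero
  residue is not a unit of `C.1`, so not a unit of `P.1`, so in `q` by `notMem_iff_inv_mem`).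
  An element of `C.loc P` is the residue of some `a / b ∈ P.1`, `b ∉ q`; `chi b ∉ m`: if `chi b = chi b'` with
  `b' ∈ q` then `b - b' ∈ ker ≤ q`. Conversely if `x * chi b = chi a`, `chi b ∉ m`, then `b ∉ q`, `b⁻¹ ∈ P.1`,
  and `x = residue (a / b)`.
-/

set_option autoImplicit false

open IsLocalRing

namespace HB

universe u

namespace Surf

variable {k L : Type u} [Field k] [Field L] [Algebra k L] {S : Surf k L}

/-- The restriction to the curve of the functions of a chart. -/
noncomputable def PD.chi (C : S.PD) {l : L} (h : S.chart l ≤ C.1.toSubring) :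
    S.chart l →ₐ[k] C.kap :=
  { toRingHom := (residue C.1.toSubring).comp (Subring.inclusion h)
    commutes' := fun c => by
      rw [IsScalarTower.algebraMap_apply k C.1.toSubring C.kap]
      rfl }

theorem PD.chi_apply (C : S.PD) {l : L} (h : S.chart l ≤ C.1.toSubring) (a : S.chart l) :
    C.chi h a = residue C.1.toSubring ⟨(a : L), h a.2⟩ := rfl

variable [CharZero k] [IsAlgClosed k]

omit [CharZero k] [IsAlgClosed k] in
private theorem chi_ne_zero (C : S.PD) {l : L} (h : S.chart l ≤ C.1.toSubring) {b : S.chart l}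
    (hb0 : (b : L) ≠ 0) (hb : (b : L)⁻¹ ∈ C.1.toSubring) : C.chi h b ≠ 0 := by
  rw [PD.chi_apply, Ne, residue_eq_zero_iff, mem_maximalIdeal, mem_nonunits_iff, not_not]
  exact IsUnit.of_mul_eq_one (⟨(b : L)⁻¹, hb⟩ : C.1.toSubring) (Subtype.ext (mul_inv_cancel₀ hb0))

omit [CharZero k] [IsAlgClosed k] in
private theorem chi_mul (C : S.PD) {l : L} (h : S.chart l ≤ C.1.toSubring) {z : C.1.toSubring}
    {a b : S.chart l} (hb0 : (b : L) ≠ 0) (hz : (z : L) = (a : L) / (b : L)) :
    residue C.1.toSubring z * C.chi h b = C.chi h a := by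
  rw [PD.chi_apply, PD.chi_apply, ← map_mul]
  congr 1
  apply Subtype.ext
  change (z : L) * (b : L) = a
  rw [hz, div_mul_cancel₀ _ hb0]

theorem PD.chi_fg (C : S.PD) {l : L} (hl : l ∈ S.V) (h0 : l ≠ 0) (h : S.chart l ≤ C.1.toSubring) :
    (C.chi h).range.FG := by
  have := S.chart_ft hl h0
  exact (Subalgebra.fg_iff_finiteType _).2
    (Algebra.FiniteType.of_surjective (C.chi h).rangeRestrict (C.chi h).rangeRestrict_surjective)

theorem PD.chi_frac (C : S.PD) {l : L} (hl : l ∈ S.V) (h0 : l ≠ 0)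
    (h : S.chart l ≤ C.1.toSubring) (x : C.kap) :
    ∃ a b : (C.chi h).range, b ≠ 0 ∧ x * (b : C.kap) = a := by
  obtain ⟨z, rfl⟩ := residue_surjective (R := C.1.toSubring) x
  obtain ⟨p, hp, hh, e⟩ := C.ofPrime_of_chart hl h0 h
  have := hp
  have hz : (z : L) ∈ (LocalSubring.ofPrime (S.chart l) p).toSubring := by
    rw [← e]
    exact z.2
  obtain ⟨a, b, hb, hzab⟩ := (mem_ofPrime (S.chart l) p).1 hz
  obtain ⟨hb0, hb1⟩ := (notMem_iff_inv_mem (S.chart l) p b).1 hb
  rw [← e] at hb1
  refine ⟨(C.chi h).rangeRestrict a, (C.chi h).rangeRestrict b, ?_, chi_mul C h hb0 hzab⟩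
  intro h1
  exact chi_ne_zero C h hb0 hb1 (congrArg Subtype.val h1)

theorem PD.isCurveLoc (C : S.PD) (P : S.Pt) (h : On P C) : Pl.IsCurveLoc k (C.loc P) := by
  obtain ⟨l, hl, hle⟩ := P.exists_chart
  obtain ⟨hlV, h0⟩ := ne_zero_of_mem hl
  have hC : S.chart l ≤ C.1.toSubring := hle.trans h
  obtain ⟨q, hq, hqm, e⟩ := P.ofPrime_of_chart hlV h0 hle
  have := hq
  have := hqm
  have hinv : ∀ b : S.chart l, b ∉ q → (b : L) ≠ 0 ∧ (b : L)⁻¹ ∈ P.1.toSubring := by
    intro b hb
    rw [e]
    exact (notMem_iff_inv_mem (S.chart l) q b).1 hb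
  have hsur := (C.chi hC).rangeRestrict_surjective
  have hker : RingHom.ker (C.chi hC).rangeRestrict ≤ q := by
    intro b hb
    by_contra hbq
    obtain ⟨h1, h2⟩ := hinv b hbq
    exact chi_ne_zero C hC h1 (h h2) (congrArg Subtype.val ((RingHom.mem_ker).1 hb))
  have hmax : (q.map (C.chi hC).rangeRestrict).IsMaximal :=
    Ideal.IsMaximal.map_of_surjective_of_ker_le hsur hker
  have hmem : ∀ b : S.chart l,
      (C.chi hC).rangeRestrict b ∈ q.map (C.chi hC).rangeRestrict ↔ b ∈ q := by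
    intro b
    constructor
    · intro hb
      obtain ⟨c, hc, hcb⟩ := (Ideal.mem_map_iff_of_surjective _ hsur).1 hb
      have h1 : b - c ∈ q := by
        apply hker
        rw [RingHom.mem_ker, map_sub, hcb, sub_self]
      have h2 := q.add_mem h1 hc
      rwa [sub_add_cancel] at h2
    · exact fun hb => Ideal.mem_map_of_mem _ hb
  refine ⟨(C.chi hC).range, C.chi_fg hlV h0 hC, C.chi_frac hlV h0 hC,
    q.map (C.chi hC).rangeRestrict, hmax, fun x => ?_⟩
  constructor
  · rintro ⟨y, hy, rfl⟩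
    have hyP : (y : L) ∈ P.1.toSubring := hy
    rw [e] at hyP
    obtain ⟨a, b, hb, hyab⟩ := (mem_ofPrime (S.chart l) q).1 hyP
    exact ⟨(C.chi hC).rangeRestrict a, (C.chi hC).rangeRestrict b,
      fun h1 => hb ((hmem b).1 h1), chi_mul C hC (hinv b hb).1 hyab⟩
  · rintro ⟨a', b', hb', hxab⟩
    obtain ⟨a, rfl⟩ := hsur a'
    obtain ⟨b, rfl⟩ := hsur b'
    have hb : b ∉ q := fun h1 => hb' ((hmem b).2 h1)
    obtain ⟨hb0, hb1⟩ := hinv b hb
    have hyP : (a : L) / (b : L) ∈ P.1.toSubring := by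
      rw [div_eq_mul_inv]
      exact P.1.toSubring.mul_mem (hle a.2) hb1
    refine ⟨⟨(a : L) / (b : L), h hyP⟩, hyP, ?_⟩
    have h1 := chi_mul C hC (z := ⟨(a : L) / (b : L), h hyP⟩) (a := a) (b := b) hb0 rfl
    have h2 : C.chi hC b ≠ 0 := chi_ne_zero C hC hb0 (h hb1)
    have h3 : x * C.chi hC b = C.chi hC a := hxab
    exact mul_right_cancel₀ h2 (h1.trans h3.symm)

end Surf

end HB
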