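import Pool.Agent.HB.Pl.NormFin

/-!
# PL-LocNorm: the local ring of a curve at a point and its normalisation

`R = B_m`, `B` a finitely generated `k`-algebra with fraction field `M` (`IsCurveLoc`).
Plan. `R` is the localisation of `B` at `m` (`IsLocalization.AtPrime R m` for the inclusion `B → R`): local,
noetherian, of dimension at most one (`norm_fin`: `Ring.KrullDimLE 1 B`), fraction field `M`. It is not a field:
`m ≠ 0` because `B` is not a field (a finitely generated `k`-algebra which is a field is `k`, but `M ≠ k` by
`FF1`). Residues: `B / m = k` by the Nullstellensatz. The integral closure `S` of `R` in `M` is the localisation of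
`C := integralClosure B M` at `B \ m` (clear denominators in an integral equation:
`IsIntegral.of_mem..`/`IsLocalization.integralClosure`/`IsIntegralClosure` for localisations), hence generated
as an `R`-module by generators of the `B`-module `C`: finite. `S` is integrally closed with fraction field `M`,
noetherian, dimension at most one (integral over `R`), hence Dedekind, not a field (a field integral
extension would make `R` a field). It is semilocal: every maximal ideal contracts to the maximal ideal
of `R`, and there are finitely many primes over an ideal in a finite extension (or: they contain a fixed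
nonzero `x ∈ m`, Dedekind). Residue field at `n`: `n ∩ C` is a maximal ideal of `C` and `C / (n ∩ C) = k`.
-/

set_option autoImplicit false

open IsLocalRing

namespace HB.Pl

universe u

section Aux

variable {k M : Type u} [Field k] [Field M] [Algebra k M] {R : Subring M} {B : Subalgebra k M}
  {m : Ideal B}

private theorem mem_R (h1 : (1 : B) ∉ m)
    (hR : ∀ x : M, x ∈ R ↔ ∃ a b : B, b ∉ m ∧ x * (b : M) = a) (b : B) : (b : M) ∈ R :=
  (hR _).2 ⟨b, 1, h1, by simp⟩

/-- the inclusion -/
private def incl (h1 : (1 : B) ∉ m)
    (hR : ∀ x : M, x ∈ R ↔ ∃ a b : B, b ∉ m ∧ x * (b : M) = a) : B →+* R :=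
  B.val.toRingHom.codRestrict R fun b => mem_R h1 hR b

/-- the inclusion of the integral closures -/
private def inclC [Algebra B R] [IsScalarTower B R M] :
    integralClosure B M →+* integralClosure R M :=
  (integralClosure B M).val.toRingHom.codRestrict (integralClosure R M).toSubring
    fun x => IsIntegral.tower_top x.2

end Aux

theorem loc_norm {k M : Type u} [Field k] [IsAlgClosed k] [CharZero k] [Field M] [Algebra k M]
    (hM : FF1 k M) (R : Subring M) (hR : IsCurveLoc k R) :
    (∀ c : k, algebraMap k M c ∈ R) ∧ IsLocalRing R ∧ IsNoetherianRing R ∧ Ring.KrullDimLE 1 R ∧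
      IsFractionRing R M ∧ ¬ IsField R ∧
      (∀ x ∈ R, ∃ c : k, x = algebraMap k M c ∨ (x - algebraMap k M c)⁻¹ ∉ R) ∧
      Module.Finite R (integralClosure R M) ∧ IsDedekindDomain (integralClosure R M) ∧
      IsFractionRing (integralClosure R M) M ∧ ¬ IsField (integralClosure R M) ∧
      Finite (MaximalSpectrum (integralClosure R M)) ∧
      ∀ (n : MaximalSpectrum (integralClosure R M)) (s : integralClosure R M),
        ∃ c : k, ∃ t ∈ n.asIdeal, (s : M) = algebraMap k M c + (t : M) := by
  obtain ⟨B, hfg, hfrac, m, hm, hR⟩ := hR
  obtain ⟨hfin, hded, hfr, hnf, hres, hdim⟩ := norm_fin hM B hfg hfrac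
  have hprime : m.IsPrime := hm.isPrime
  have h1 : (1 : B) ∉ m := fun h => hm.ne_top ((Ideal.eq_top_iff_one m).2 h)
  let _ : Algebra B R := (incl h1 hR).toAlgebra
  have hBR : ∀ b : B, ((algebraMap B R b : R) : M) = (b : M) := fun _ => rfl
  have _ : IsScalarTower B R M := IsScalarTower.of_algebraMap_eq fun _ => rfl
  have hne : ∀ b : B, b ∉ m → (b : M) ≠ 0 := by
    intro b hb h0
    apply hb
    have : b = 0 := Subtype.ext h0
    rw [this]
    exact m.zero_mem
  -- `R` is the localisation of `B`
  have hlocR : IsLocalization m.primeCompl R := by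
    refine ⟨⟨?_, ?_, ?_⟩⟩
    · rintro ⟨b, hb⟩
      have hb' : b ∉ m := hb
      have hinv : (b : M)⁻¹ ∈ R := (hR _).2 ⟨1, b, hb', by
        rw [inv_mul_cancel₀ (hne b hb')]; rfl⟩
      refine IsUnit.of_mul_eq_one (⟨(b : M)⁻¹, hinv⟩ : R) ?_
      apply Subtype.ext
      change (b : M) * (b : M)⁻¹ = 1
      exact mul_inv_cancel₀ (hne b hb')
    · rintro ⟨x, hx⟩
      obtain ⟨a, b, hb, e⟩ := (hR x).1 hx
      exact ⟨(a, ⟨b, hb⟩), Subtype.ext e⟩
    · intro x y h
      refine ⟨1, ?_⟩
      have : x = y := Subtype.ext (congrArg (fun r : R => (r : M)) h)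
      rw [this]
  have hlocR' : IsLocalization.AtPrime R m := hlocR
  have hlocal : IsLocalRing R := IsLocalization.AtPrime.isLocalRing R m
  have hBnoeth : IsNoetherianRing B := by
    have _ : Algebra.FiniteType k B := (Subalgebra.fg_iff_finiteType B).1 hfg
    exact Algebra.FiniteType.isNoetherianRing k B
  have hRnoeth : IsNoetherianRing R := IsLocalization.isNoetherianRing m.primeCompl R hBnoeth
  have hle : m.primeCompl ≤ nonZeroDivisors B := by
    intro b hb
    rw [mem_nonZeroDivisors_iff_ne_zero]
    rintro rfl
    exact hb m.zero_mem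
  have hdimB : Ring.DimensionLEOne B := ⟨fun {p} hp hpp => hpp.isMaximal_of_ne_bot hp⟩
  have hdimR : Ring.DimensionLEOne R := Ring.DimensionLEOne.localization R hle
  have hfracR : IsFractionRing R M := by
    apply IsFractionRing.of_field
    intro z
    obtain ⟨a, b, hb, e⟩ := hfrac z
    refine ⟨algebraMap B R a, algebraMap B R b, ?_⟩
    have hb' : (b : M) ≠ 0 := fun h => hb (Subtype.ext h)
    change z = (a : M) / (b : M)
    rw [eq_div_iff hb', e]
  -- integral closures
  let _ : Algebra (integralClosure B M) (integralClosure R M) :=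
    (inclC (R := R) (B := B)).toAlgebra
  have _ : IsScalarTower (integralClosure B M) (integralClosure R M) M :=
    IsScalarTower.of_algebraMap_eq fun _ => rfl
  have _ : IsScalarTower B (integralClosure B M) (integralClosure R M) :=
    IsScalarTower.of_algebraMap_eq fun _ => rfl
  have _ : IsScalarTower B R (integralClosure R M) := IsScalarTower.of_algebraMap_eq fun _ => rfl
  have hlocM : IsLocalization (Algebra.algebraMapSubmonoid M m.primeCompl) M := by
    apply IsLocalization.self
    rintro _ ⟨b, hb, rfl⟩
    exact (IsUnit.mk0 _ (hne b hb))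
  have hlocC : IsLocalization
      (Algebra.algebraMapSubmonoid (integralClosure B M) m.primeCompl) (integralClosure R M) :=
    IsLocalization.integralClosure (R := B) (S := M) (Rf := R) (Sf := M) m.primeCompl
  have hfinS : Module.Finite R (integralClosure R M) :=
    Module.Finite.of_isLocalization B (integralClosure B M) m.primeCompl
  have hleC : Algebra.algebraMapSubmonoid (integralClosure B M) m.primeCompl ≤
      nonZeroDivisors (integralClosure B M) := by
    rintro _ ⟨b, hb, rfl⟩
    rw [mem_nonZeroDivisors_iff_ne_zero]
    intro h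
    apply hne b hb
    exact congrArg (fun r : integralClosure B M => (r : M)) h
  have hdedS : IsDedekindDomain (integralClosure R M) :=
    IsLocalization.isDedekindDomain (A := integralClosure B M) hleC (integralClosure R M)
  have hfracS : IsFractionRing (integralClosure R M) M := by
    apply IsFractionRing.of_field
    intro z
    obtain ⟨a, b, hb, e⟩ := hfrac z
    refine ⟨algebraMap R _ (algebraMap B R a), algebraMap R _ (algebraMap B R b), ?_⟩
    have hb' : (b : M) ≠ 0 := fun h => hb (Subtype.ext h)
    change z = (a : M) / (b : M)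
    rw [eq_div_iff hb', e]
  -- `m ≠ ⊥`
  have hmbot : ∃ x : B, x ∈ m ∧ x ≠ 0 := by
    by_contra hcon
    push Not at hcon
    apply hnf
    have hBf : IsField B := by
      refine ⟨⟨0, 1, zero_ne_one⟩, mul_comm, ?_⟩
      intro a ha
      have ham : a ∉ m := fun h => ha (hcon a h)
      obtain ⟨b, i, hi, e⟩ := hm.exists_inv ham
      rw [hcon i hi, add_zero] at e
      exact ⟨b, by rw [mul_comm]; exact e⟩
    exact isField_of_isIntegral_of_isField' hBf
  have hnfR : ¬ IsField R := by
    intro hf
    obtain ⟨x, hx, hx0⟩ := hmbot
    have hx0' : algebraMap B R x ≠ 0 := fun h =>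
      hx0 (Subtype.ext (congrArg (fun r : R => (r : M)) h))
    obtain ⟨y, hy⟩ := hf.mul_inv_cancel hx0'
    obtain ⟨a, b, hb, e⟩ := (hR (y : M)).1 y.2
    apply hb
    have h2 : (x : M) * (y : M) = 1 := congrArg (fun r : R => (r : M)) hy
    have h3 : b = x * a := by
      apply Subtype.ext
      change (b : M) = (x : M) * (a : M)
      rw [← e, ← mul_assoc, h2, one_mul]
    rw [h3]
    exact m.mul_mem_right _ hx
  have hintS : Algebra.IsIntegral R (integralClosure R M) := inferInstance
  -- maximal ideals of the integral closure of `R` lie over `m`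
  have hover : ∀ n : Ideal (integralClosure R M), n.IsMaximal →
      n.comap (algebraMap R (integralClosure R M)) = maximalIdeal R := by
    intro n hn
    exact IsLocalRing.eq_maximalIdeal (Ideal.isMaximal_comap_of_isIntegral_of_isMaximal n)
  -- residues at `m`
  have hresB : ∀ a : B, ∃ c : k, a - algebraMap k B c ∈ m := by
    intro a
    obtain ⟨n, hn, hn'⟩ := Ideal.exists_ideal_over_maximal_of_isIntegral
      (S := integralClosure B M) m (by
        rw [(RingHom.injective_iff_ker_eq_bot _).1]
        · exact bot_le
        · intro x y h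
          exact Subtype.ext (congrArg (fun r : integralClosure B M => (r : M)) h))
    obtain ⟨c, hc⟩ := hres ⟨n, hn⟩ (algebraMap B _ a)
    refine ⟨c, ?_⟩
    rw [← hn', Ideal.mem_comap, map_sub]
    exact hc
  refine ⟨fun c => (hR _).2 ⟨algebraMap k B c, 1, h1, by simp⟩, hlocal, hRnoeth, inferInstance,
    hfracR, hnfR, ?_, hfinS, hdedS, hfracS, ?_, ?_, ?_⟩
  · intro x hx
    obtain ⟨a, b, hb, e⟩ := (hR x).1 hx
    obtain ⟨ca, hca⟩ := hresB a
    obtain ⟨cb, hcb⟩ := hresB b
    have hcb0 : cb ≠ 0 := by
      rintro rfl
      rw [map_zero, sub_zero] at hcb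
      exact hb hcb
    have hmem : a - algebraMap k B (ca / cb) * b ∈ m := by
      have h2 : a - algebraMap k B (ca / cb) * b =
          (a - algebraMap k B ca) - algebraMap k B (ca / cb) * (b - algebraMap k B cb) := by
        rw [mul_sub, ← map_mul, div_mul_cancel₀ _ hcb0]
        ring
      rw [h2]
      exact m.sub_mem hca (m.mul_mem_left _ hcb)
    refine ⟨ca / cb, ?_⟩
    by_cases hz : x = algebraMap k M (ca / cb)
    · exact Or.inl hz
    right
    intro hinv
    obtain ⟨a', b', hb', e'⟩ := (hR _).1 hinv
    have hz' : x - algebraMap k M (ca / cb) ≠ 0 := sub_ne_zero.2 hz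
    have h4 : (x - algebraMap k M (ca / cb)) * (b : M) =
        ((a - algebraMap k B (ca / cb) * b : B) : M) := by
      rw [sub_mul, e]
      rfl
    have h3 : b' * b = a' * (a - algebraMap k B (ca / cb) * b) := by
      apply Subtype.ext
      change (b' : M) * (b : M) = (a' : M) * ((a - algebraMap k B (ca / cb) * b : B) : M)
      rw [← h4, ← e']
      field_simp
    have h5 : b' * b ∈ m := by
      rw [h3]
      exact m.mul_mem_left _ hmem
    rcases hprime.mem_or_mem h5 with h6 | h6
    · exact hb' h6
    · exact hb h6
  · intro hf
    apply hnfR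
    refine isField_of_isIntegral_of_isField (R := R) (S := integralClosure R M) ?_ hf
    intro x y h
    exact Subtype.ext (congrArg (fun r : integralClosure R M => (r : M)) h)
  · have hfin2 := Algebra.QuasiFinite.finite_primesOver (R := R) (S := integralClosure R M)
      (maximalIdeal R)
    have _ := hfin2.to_subtype
    refine Finite.of_injective (β := (maximalIdeal R).primesOver (integralClosure R M))
      (fun n => ⟨n.asIdeal, n.isMaximal.isPrime, ⟨(hover n.asIdeal n.isMaximal).symm⟩⟩) ?_
    intro n n' h
    apply MaximalSpectrum.ext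
    exact congrArg (fun r : (maximalIdeal R).primesOver (integralClosure R M) => r.1) h
  · intro n s
    -- the contraction of `n` to the integral closure of `B` is maximal
    have hcompB : (n.asIdeal.comap (algebraMap (integralClosure B M) (integralClosure R M))).comap
        (algebraMap B (integralClosure B M)) = m := by
      rw [Ideal.comap_comap, ← IsScalarTower.algebraMap_eq,
        IsScalarTower.algebraMap_eq B R (integralClosure R M), ← Ideal.comap_comap,
        hover n.asIdeal n.isMaximal]
      exact IsLocalization.AtPrime.under_maximalIdeal R m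
    have hpr : (n.asIdeal.comap
        (algebraMap (integralClosure B M) (integralClosure R M))).IsPrime := by
      have := n.isMaximal.isPrime
      exact Ideal.comap_isPrime _ _
    have hmax : (n.asIdeal.comap
        (algebraMap (integralClosure B M) (integralClosure R M))).IsMaximal := by
      refine Ideal.isMaximal_of_isIntegral_of_isMaximal_comap (R := B) _ ?_
      rw [hcompB]
      exact hm
    obtain ⟨⟨u, _, b, hb, rfl⟩, e⟩ := IsLocalization.surj
      (Algebra.algebraMapSubmonoid (integralClosure B M) m.primeCompl) s
    have hb' : b ∉ m := hb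
    have e' : (s : M) * (b : M) = (u : M) := congrArg (fun r : integralClosure R M => (r : M)) e
    obtain ⟨cu, hcu⟩ := hres ⟨_, hmax⟩ u
    obtain ⟨cb, hcb⟩ := hresB b
    have hcb0 : cb ≠ 0 := by
      rintro rfl
      rw [map_zero, sub_zero] at hcb
      exact hb' hcb
    have hinv : (b : M)⁻¹ ∈ R := (hR _).2 ⟨1, b, hb', by
      rw [inv_mul_cancel₀ (hne b hb')]; rfl⟩
    have hu : algebraMap (integralClosure B M) (integralClosure R M)
        (u - algebraMap B _ (algebraMap k B cu)) ∈ n.asIdeal := hcu
    have hbn : algebraMap (integralClosure B M) (integralClosure R M)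
        (algebraMap B _ (b - algebraMap k B cb)) ∈ n.asIdeal := by
      have h7 := hcb
      rw [← hcompB] at h7
      exact h7
    refine ⟨cu / cb, algebraMap R (integralClosure R M) ⟨(b : M)⁻¹, hinv⟩ *
      (algebraMap (integralClosure B M) (integralClosure R M)
        (u - algebraMap B _ (algebraMap k B cu)) -
        algebraMap R (integralClosure R M) (algebraMap B R (algebraMap k B (cu / cb))) *
        algebraMap (integralClosure B M) (integralClosure R M)
        (algebraMap B _ (b - algebraMap k B cb))), ?_, ?_⟩
    · exact n.asIdeal.mul_mem_left _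
        (n.asIdeal.sub_mem hu (n.asIdeal.mul_mem_left _ hbn))
    · change (s : M) = algebraMap k M (cu / cb) + (b : M)⁻¹ * (((u : M) - algebraMap k M cu) -
        algebraMap k M (cu / cb) * ((b : M) - algebraMap k M cb))
      have h8 := hne b hb'
      have h9 : algebraMap k M cb ≠ 0 := (map_ne_zero _).2 hcb0
      rw [map_div₀]
      field_simp
      rw [← e']
      ring

end HB.Pl
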