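import Pool.Agent.HB.Pl.Basic

/-!
# PL-Over: the places of `M` over a discrete valuation ring `R` of a subfield `F`, `M / F` finite
separable: they correspond to the maximal ideals of the integral closure `S` of `R` in `M`.

Plan.  `S := integralClosure R M` is finite over `R` (`IsIntegralClosure.finite`, separability), a Dedekind
domain with fraction field `M` (`integralClosure.isDedekindDomain`, `integralClosure.isFractionRing_of_finite_extension`),
with finitely many maximal ideals, all over the maximal ideal of `R` (integral extension: `Ideal.comap`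
of a maximal ideal is maximal; finiteness: all contain `ϖ ≠ 0`,
`UniqueFactorizationMonoid`/`Ideal.finite_factors` or `IsDedekindDomain.HeightOneSpectrum.Support.finite`).
For `n` maximal (nonzero: contains `ϖ`), put `w_n := (n.valuation M).valuationSubring`
(`IsDedekindDomain.HeightOneSpectrum.valuation`); then `s ∈ w_n` for `s ∈ S`, and a nonunit iff `s ∈ n`
(`valuation_lt_one_iff_mem`); `x ∈ w_n` iff `x = a / b`, `a b ∈ S`, `b ∉ n`
(`IsDedekindDomain.HeightOneSpectrum` / localisation at a prime of a Dedekind domain is a DVR: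
`IsLocalization.AtPrime.isDiscreteValuationRing_of_dedekind_domain`; the valuation ring is that
localisation). Residue field: `S / n` is a finite extension of `R / m = k` (via `hres`), so an algebraic
extension of the algebraically closed field `k`: `S / n = k`
(`IsAlgClosed.algebraMap_bijective_of_isIntegral`); then `res` for `w_n`: `x = a / b` with `b ∉ n`,
`a ≡ α`, `b ≡ β ≠ 0` mod `n`, `x - α / β ∈ nonunits`. Order: `ow w_n s` = multiplicity of `n` in `(s)`:
`length (R_w / s) = ` the exponent (`Ring.ord_eq_addVal`, `intValuation_def`), or: `s = u τ^e` in the DVR.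
Surjectivity: if `w` is a place over `R`, then `S ≤ w` (a valuation ring is integrally closed,
elements of `S` are integral over `R ⊆ w`), `n := S ∩ w.nonunits` is a prime containing `ϖ`, so
maximal, `w_n ≤ w`, and `IsPl.eq_of_le`. Last statement: `⋂ S_n = S`
(`IsDedekindDomain.HeightOneSpectrum` : `mem_integers_of_valuation_le_one`).
-/

set_option autoImplicit false

open IsLocalRing

namespace HB.Pl

universe u

section

variable {k R F M : Type u} [Field k] [IsAlgClosed k] [Field M] [Algebra k M]
    [CommRing R] [IsDomain R] [IsDiscreteValuationRing R] [Field F] [Algebra R F]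
    [IsFractionRing R F] [Algebra F M] [Algebra R M] [IsScalarTower R F M]
    [FiniteDimensional F M] [Algebra.IsSeparable F M] [Algebra k R] [IsScalarTower k R M]

omit [IsAlgClosed k] [Algebra k M] [IsDomain R] [IsDiscreteValuationRing R] [Field F] [Algebra R F]
    [IsFractionRing R F] [Algebra F M] [IsScalarTower R F M]
    [FiniteDimensional F M] [Algebra.IsSeparable F M] [Algebra k R] [IsScalarTower k R M]
    [Field k] in
private theorem over_comap [IsDomain R] [IsLocalRing R] (n : Ideal (integralClosure R M)) (hn : n.IsMaximal) :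
    n.comap (algebraMap R (integralClosure R M)) = maximalIdeal R := by
  haveI := hn
  have h := Ideal.isMaximal_comap_of_isIntegral_of_isMaximal (R := R) n
  exact IsLocalRing.eq_maximalIdeal h

private theorem over_res (hres : ∀ r : R, ∃ c : k, r - algebraMap k R c ∈ maximalIdeal R)
    (n : Ideal (integralClosure R M)) (hn : n.IsMaximal) (s : integralClosure R M) :
    ∃ c : k, s - algebraMap k (integralClosure R M) c ∈ n := by
  haveI := hn
  have hcm := over_comap (R := R) (M := M) n hn
  haveI : Algebra.IsIntegral k (integralClosure R M ⧸ n) := by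
    refine ⟨fun t => ?_⟩
    obtain ⟨s, rfl⟩ := Ideal.Quotient.mk_surjective t
    obtain ⟨p, hpm, hp⟩ := Algebra.IsIntegral.isIntegral (R := R) s
    set f : R →+* (integralClosure R M ⧸ n) := (Ideal.Quotient.mk n).comp (algebraMap R (integralClosure R M)) with hf
    set g : k →+* (integralClosure R M ⧸ n) := algebraMap k (integralClosure R M ⧸ n) with hg
    have hfg : ∀ r, ∃ c, g c = f r := by
      intro r
      obtain ⟨c, hc⟩ := hres r
      refine ⟨c, ?_⟩
      have h1 : algebraMap R (integralClosure R M) (r - algebraMap k R c) ∈ n := by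
        rw [← hcm] at hc; exact hc
      have h2 : Ideal.Quotient.mk n (algebraMap R (integralClosure R M) (r - algebraMap k R c)) = 0 :=
        Ideal.Quotient.eq_zero_iff_mem.2 h1
      rw [map_sub, map_sub, sub_eq_zero] at h2
      rw [hf, RingHom.comp_apply, h2, hg, ← IsScalarTower.algebraMap_apply k R (integralClosure R M)]
      rfl
    have hl : p.map f ∈ Polynomial.lifts g := by
      rw [Polynomial.lifts_iff_coeff_lifts]
      intro i
      rw [Polynomial.coeff_map]
      obtain ⟨c, hc⟩ := hfg (p.coeff i)
      exact ⟨c, hc⟩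
    obtain ⟨q, hq, -, hqm⟩ := Polynomial.lifts_and_degree_eq_and_monic hl (hpm.map f)
    refine ⟨q, hqm, ?_⟩
    rw [← Polynomial.eval_map, ← hg, hq, Polynomial.eval_map, hf, ← Polynomial.hom_eval₂, hp, map_zero]
  obtain ⟨c, hc⟩ := (IsAlgClosed.algebraMap_bijective_of_isIntegral (k := k)
    (K := integralClosure R M ⧸ n)).2 (Ideal.Quotient.mk n s)
  refine ⟨c, ?_⟩
  rw [← Ideal.Quotient.eq_zero_iff_mem, map_sub, sub_eq_zero, ← hc]
  rfl

end

private theorem nonunits_valuation {M : Type u} [Field M] {Γ : Type*} [LinearOrderedCommGroupWithZero Γ]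
    (v : Valuation M Γ) (x : M) : x ∈ v.valuationSubring.nonunits ↔ v x < 1 := by
  rw [ValuationSubring.mem_nonunits_iff]
  exact (v.isEquiv_valuation_valuationSubring.lt_one_iff_lt_one).symm

private theorem over_dvr {A M : Type u} [CommRing A] [IsDedekindDomain A] [Field M] [Algebra A M]
    [IsFractionRing A M] (v : IsDedekindDomain.HeightOneSpectrum A) :
    IsDiscreteValuationRing (v.valuation M).valuationSubring := by
  rw [← IsDedekindDomain.HeightOneSpectrum.valuationSubringAtPrime_eq_valuationSubring]
  have h : IsLocalization.AtPrime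
      (IsDedekindDomain.HeightOneSpectrum.valuationSubringAtPrime M v) v.asIdeal :=
    inferInstanceAs (IsLocalization v.asIdeal.primeCompl _)
  exact IsLocalization.AtPrime.isDiscreteValuationRing_of_dedekind_domain A v.ne_bot _

theorem places_over {k R F M : Type u} [Field k] [IsAlgClosed k] [Field M] [Algebra k M]
    [CommRing R] [IsDomain R] [IsDiscreteValuationRing R] [Field F] [Algebra R F]
    [IsFractionRing R F] [Algebra F M] [Algebra R M] [IsScalarTower R F M]
    [FiniteDimensional F M] [Algebra.IsSeparable F M] [Algebra k R] [IsScalarTower k R M]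
    (hres : ∀ r : R, ∃ c : k, r - algebraMap k R c ∈ maximalIdeal R) :
    Finite (MaximalSpectrum (integralClosure R M)) ∧
    ∃ e : MaximalSpectrum (integralClosure R M) ≃ {w : ValuationSubring M // IsPl k w ∧
        (∀ r : R, algebraMap R M r ∈ w) ∧ ∀ r ∈ maximalIdeal R, algebraMap R M r ∈ w.nonunits},
      (∀ (n : MaximalSpectrum (integralClosure R M)) (s : integralClosure R M),
        (s : M) ∈ (e n).1 ∧ ((s : M) ∈ (e n).1.nonunits ↔ s ∈ n.asIdeal)) ∧
      (∀ a : M, (∀ n, a ∈ (e n).1) → a ∈ integralClosure R M) ∧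
      ∀ (n : MaximalSpectrum (integralClosure R M)) (s : integralClosure R M) (m : ℕ), s ≠ 0 →
        ((m : ℤ) ≤ ow (e n).1 (s : M) ↔ s ∈ n.asIdeal ^ m) := by
  haveI : IsFractionRing (integralClosure R M) M :=
    integralClosure.isFractionRing_of_finite_extension F M
  haveI : IsDedekindDomain (integralClosure R M) := integralClosure.isDedekindDomain R F M
  have hinj : Function.Injective (algebraMap R (integralClosure R M)) := by
    have h1 : Function.Injective (algebraMap R M) := by
      rw [IsScalarTower.algebraMap_eq R F M]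
      exact (algebraMap F M).injective.comp (IsFractionRing.injective R F)
    intro a b hab
    apply h1
    have := congrArg (algebraMap (integralClosure R M) M) hab
    simpa [← IsScalarTower.algebraMap_apply] using this
  obtain ⟨ϖ, hϖm, hϖ0⟩ := Submodule.exists_mem_ne_zero_of_ne_bot (IsDiscreteValuationRing.not_a_field R)
  have hS0 : algebraMap R (integralClosure R M) ϖ ≠ 0 := fun h => hϖ0 (hinj (by rw [h, map_zero]))
  have hmem : ∀ n : Ideal (integralClosure R M), n.IsMaximal →
      ∀ r ∈ maximalIdeal R, algebraMap R (integralClosure R M) r ∈ n := by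
    intro n hn r hr
    rw [← over_comap (R := R) (M := M) n hn] at hr
    exact hr
  have hbot : ∀ n : Ideal (integralClosure R M), n.IsMaximal → n ≠ ⊥ := by
    intro n hn h
    have := hmem n hn ϖ hϖm
    rw [h] at this
    exact hS0 (by simpa using this)
  let V : MaximalSpectrum (integralClosure R M) → IsDedekindDomain.HeightOneSpectrum (integralClosure R M) :=
    fun n => ⟨n.asIdeal, n.isMaximal.isPrime, hbot _ n.isMaximal⟩
  let W : MaximalSpectrum (integralClosure R M) → ValuationSubring M :=
    fun n => ((V n).valuation M).valuationSubring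
  have hW : ∀ n x, x ∈ W n ↔ (V n).valuation M x ≤ 1 := fun n x => Iff.rfl
  have hWn : ∀ n x, x ∈ (W n).nonunits ↔ (V n).valuation M x < 1 := fun n x =>
    nonunits_valuation _ x
  have hWS : ∀ n (s : integralClosure R M), (s : M) ∈ W n := fun n s =>
    (hW n _).2 ((V n).valuation_le_one s)
  have hWSn : ∀ n (s : integralClosure R M), (s : M) ∈ (W n).nonunits ↔ s ∈ n.asIdeal := by
    intro n s
    rw [hWn]
    exact (V n).valuation_lt_one_iff_mem s
  have halgk : ∀ c : k, algebraMap k M c = ((algebraMap k (integralClosure R M) c : integralClosure R M) : M) :=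
    fun c => rfl
  have halgR : ∀ r : R, algebraMap R M r = ((algebraMap R (integralClosure R M) r : integralClosure R M) : M) :=
    fun c => rfl
  have hPl : ∀ n, IsPl k (W n) := by
    intro n
    refine ⟨fun c => ?_, ?_, fun x hx => ?_⟩
    · rw [halgk]; exact hWS n _
    · exact over_dvr (V n)
    · obtain ⟨a, ha⟩ := (V n).exists_valuation_sub_lt_of_integer ((hW n x).1 hx) 1
      obtain ⟨c, hc⟩ := over_res (R := R) (M := M) hres n.asIdeal n.isMaximal a
      refine ⟨c, ?_⟩
      rw [hWn]
      have h1 : x - algebraMap k M c = -(algebraMap (integralClosure R M) M a - x) +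
          algebraMap (integralClosure R M) M (a - algebraMap k (integralClosure R M) c) := by
        rw [map_sub, halgk]
        simp only [Subalgebra.algebraMap_apply]
        show x - _ = -((a : M) - x) + ((a : M) - _)
        ring
      rw [h1]
      refine Valuation.map_add_lt _ ?_ ?_
      · rw [Valuation.map_neg]; simpa using ha
      · exact ((V n).valuation_lt_one_iff_mem _).2 hc
  have hWR : ∀ n, (∀ r : R, algebraMap R M r ∈ W n) ∧ ∀ r ∈ maximalIdeal R, algebraMap R M r ∈ (W n).nonunits := by
    intro n
    refine ⟨fun r => ?_, fun r hr => ?_⟩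
    · rw [halgR]; exact hWS n _
    · rw [halgR]; exact (hWSn n _).2 (hmem _ n.isMaximal r hr)
  let e0 : MaximalSpectrum (integralClosure R M) → {w : ValuationSubring M // IsPl k w ∧
        (∀ r : R, algebraMap R M r ∈ w) ∧ ∀ r ∈ maximalIdeal R, algebraMap R M r ∈ w.nonunits} :=
    fun n => ⟨W n, hPl n, hWR n⟩
  have hinj0 : Function.Injective e0 := by
    intro n n' h
    have h1 : W n = W n' := congrArg Subtype.val h
    apply MaximalSpectrum.ext
    ext s
    rw [← hWSn n s, ← hWSn n' s, h1]
  have hsurj0 : Function.Surjective e0 := by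
    rintro ⟨w, hw, hwR, hwm⟩
    have hSw : ∀ s : integralClosure R M, (s : M) ∈ w := by
      intro s
      let φ : R →+* w := (algebraMap R M).codRestrict w.toSubring hwR
      obtain ⟨p, hpm, hp⟩ : IsIntegral R (s : M) := s.2
      have h1 : IsIntegral w (s : M) := by
        refine ⟨p.map φ, hpm.map φ, ?_⟩
        rw [Polynomial.eval₂_map]
        exact hp
      obtain ⟨y, hy⟩ := (IsIntegrallyClosed.isIntegral_iff (K := M)).1 h1
      rw [← hy]; exact y.2
    let ψ : integralClosure R M →+* w := (algebraMap (integralClosure R M) M).codRestrict w.toSubring hSw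
    have hψ : ∀ s, ((ψ s : w) : M) = (s : M) := fun s => rfl
    have hnon : ∀ s, ψ s ∈ maximalIdeal w ↔ (s : M) ∈ w.nonunits := by
      intro s
      rw [← hψ, ValuationSubring.coe_mem_nonunits_iff]
    let n : Ideal (integralClosure R M) := (maximalIdeal w).comap ψ
    have hnp : n.IsPrime := Ideal.comap_isPrime ψ _
    have hnm : n.IsMaximal := by
      refine Ideal.isMaximal_of_isIntegral_of_isMaximal_comap n (R := R) ?_
      have h1 : maximalIdeal R ≤ n.comap (algebraMap R (integralClosure R M)) := by
        intro r hr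
        show ψ _ ∈ maximalIdeal w
        rw [hnon, ← halgR]
        exact hwm r hr
      have h2 : n.comap (algebraMap R (integralClosure R M)) ≠ ⊤ := (Ideal.comap_isPrime _ _).ne_top
      have h3 := (IsLocalRing.maximalIdeal.isMaximal R).eq_of_le h2 h1
      rw [← h3]; infer_instance
    refine ⟨⟨n, hnm⟩, ?_⟩
    apply Subtype.ext
    refine IsPl.eq_of_le (hPl ⟨n, hnm⟩) hw ?_
    intro x hx
    obtain ⟨a, ⟨d, hd⟩, hxd⟩ := (V ⟨n, hnm⟩).exists_primeCompl_mul_eq_of_integer x hx
    have hd' : (d : M) ∉ w.nonunits := fun h => hd ((hnon d).2 h)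
    have hd0 : (d : M) ≠ 0 := by
      intro h
      apply hd
      have : d = 0 := Subtype.ext h
      rw [this]; exact Ideal.zero_mem _
    have hdi : (d : M)⁻¹ ∈ w := by
      by_contra hcon
      exact hd' ((ValuationSubring.mem_nonunits_iff_or w).2 (Or.inr hcon))
    have hx2 : x = (a : M) * (d : M)⁻¹ := by
      rw [eq_mul_inv_iff_mul_eq₀ hd0]
      exact hxd
    rw [hx2]
    exact w.mul_mem _ _ (hSw a) hdi
  refine ⟨?_, Equiv.ofBijective e0 ⟨hinj0, hsurj0⟩, fun n s => ⟨hWS n s, hWSn n s⟩, ?_, ?_⟩
  · have hfin := Ideal.finite_factors (I := Ideal.span {algebraMap R (integralClosure R M) ϖ})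
      (by simpa [Ideal.span_singleton_eq_bot] using hS0)
    haveI := hfin.to_subtype
    refine Finite.of_injective (fun n : MaximalSpectrum (integralClosure R M) =>
      (⟨V n, ?_⟩ : {v : IsDedekindDomain.HeightOneSpectrum (integralClosure R M) |
        v.asIdeal ∣ Ideal.span {algebraMap R (integralClosure R M) ϖ}})) ?_
    · show n.asIdeal ∣ _
      rw [Ideal.dvd_iff_le, Ideal.span_singleton_le_iff_mem]
      exact hmem _ n.isMaximal ϖ hϖm
    · intro n n' h
      apply MaximalSpectrum.ext
      have := congrArg (fun t => t.1.asIdeal) h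
      exact this
  · intro a ha
    have h1 := IsDedekindDomain.HeightOneSpectrum.mem_integers_of_valuation_le_one
      (R := integralClosure R M) M a (fun v => by
        have h2 := ha ⟨v.asIdeal, v.isMaximal⟩
        exact h2)
    obtain ⟨s, hs⟩ := h1
    rw [← hs]; exact s.2
  · intro n s m hs
    show (m : ℤ) ≤ ow (W n) (s : M) ↔ s ∈ n.asIdeal ^ m
    have hs' : (s : M) ≠ 0 := fun h => hs (Subtype.ext h)
    obtain ⟨π, hπ⟩ := (V n).valuation_exists_uniformizer M
    have hπ0 : π ≠ 0 := by
      rintro rfl
      rw [map_zero] at hπ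
      exact WithZero.coe_ne_zero hπ.symm
    obtain ⟨τ, hτ0, hτ⟩ := exists_unif (hPl n)
    have hπn : π ∈ (W n).nonunits := by
      rw [hWn, hπ, ← WithZero.exp_zero, WithZero.exp_lt_exp]; norm_num
    have hπ1 : 0 < ow (W n) π := (nonunit_iff (hPl n) hπ0).1 hπn
    have hτn : τ ∈ (W n).nonunits := (nonunit_iff (hPl n) hτ0).2 (by rw [hτ]; norm_num)
    have hτπ : τ / π ∈ W n := by
      rw [hW, map_div₀, hπ]
      have h1 : (V n).valuation M τ < 1 := (hWn n τ).1 hτn
      have hτv : (V n).valuation M τ ≠ 0 := (Valuation.ne_zero_iff _).2 hτ0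
      have hz := WithZero.exp_log hτv
      rw [← hz, ← WithZero.exp_zero, WithZero.exp_lt_exp] at h1
      rw [← hz, ← WithZero.exp_sub, ← WithZero.exp_zero, WithZero.exp_le_exp]
      omega
    have h2 : 0 ≤ ow (W n) (τ / π) := (mem_iff (hPl n) (div_ne_zero hτ0 hπ0)).1 hτπ
    rw [ow_div (hPl n) hτ0 hπ0, hτ] at h2
    have hπ2 : ow (W n) π = 1 := by omega
    have h3 : (m : ℤ) ≤ ow (W n) (s : M) ↔ 0 ≤ ow (W n) ((s : M) / π ^ m) := by
      rw [ow_div (hPl n) hs' (pow_ne_zero _ hπ0), ow_pow (hPl n) hπ0, hπ2]
      constructor <;> intro h <;> linarith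
    rw [h3, ← mem_iff (hPl n) (div_ne_zero hs' (pow_ne_zero _ hπ0)), hW, map_div₀, map_pow, hπ,
      ← (V n).intValuation_le_pow_iff_mem, ← (V n).valuation_of_algebraMap (K := M)]
    have h4 : (WithZero.exp (-1 : ℤ)) ^ m = WithZero.exp (-(m : ℤ)) := by
      rw [← WithZero.exp_nsmul]; simp
    rw [h4, div_le_one₀ WithZero.exp_pos]
    rfl

end HB.Pl
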