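import Pool.Agent.HB.Pl.Over
import Pool.Agent.HB.Pl.DerExt
import Pool.Agent.HB.Pl.DerBd
import Pool.Agent.HB.Pl.DerPres
import Pool.Agent.HB.Pl.Form

/-!
# PL-PhiForm: the 2-form satisfies the hypotheses of the residue theorem `RT`

Points `(x j, y j)`, `j = 0, 1`, of the curve `y² = x⁶ + 1` over the function field `M`; at `j` we use the
differential `x ^ j dx / y`. `phw` is the value at the place `w` of the 2-form on `(D₁, D₂)`.
Plan. `E_i := ` the extension of `D_i` with `E_i g = 0`, `∂ :=` the extension of `0` with `∂ g = 1` (`exists_der`).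
`A := fm E₁ 0 * fm E₂ 1 - fm E₂ 0 * fm E₁ 1` (at the points `j = 0`, `j = 1`).
At `w` with `ow w g ≠ 0`: `π := g` or `g⁻¹` has `0 < ow w π`, `E_i π = 0` (`Derivation.leibniz_inv`): `der_pres` (with `der_bdd`),
`fm_ev`, `ev_mul`, `ev_sub`. At `w` with `0 < ow w (g - c) =: e`, `c ≠ 0`: `E_i' := E_i + D_i(c) • ∂` has `E_i' (g - c) = 0`
(`E_i (g - c) = - D_i c`), restricts to `D_i` on `k`: `der_pres` gives bound `0` for `fm E_i' j`, `der_pole` (with
`π = g - c`) gives `1 - e` for `fm ∂ j` (`fm_bd`). `fm` is linear in the derivation, so with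
`a_ij = fm E_i' j`, `b_j = fm ∂ j`, `c_i = D_i c`:
`A = (a_10 - c_1 b_0)(a_21 - c_2 b_1) - (a_20 - c_2 b_0)(a_11 - c_1 b_1)
 = (a_10 a_21 - a_20 a_11) + c_1 (a_20 b_1 - b_0 a_21) + c_2 (b_0 a_11 - a_10 b_1)`,
the terms with `b_0 b_1` cancel. So `A = 0` or `ow A ≥ 1 - e > - e`.
-/

set_option autoImplicit false

namespace HB.Pl

universe u

open Classical in
/-- The value at the place `w` of the differential `x ^ j dx / y` at the point `(x, y)`, evaluated on the
derivation `D` of the constants. -/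
noncomputable def fw (k : Type u) {M : Type u} [Field k] [Field M] [Algebra k M] (D : k → k)
    (j : ℕ) (w : ValuationSubring M) (x y : M) : k :=
  if x ∈ w then ev k w x ^ j * D (ev k w x) / ev k w y else 0

/-- The value at the place `w` of the 2-form. -/
noncomputable def phw (k : Type u) {M : Type u} [Field k] [Field M] [Algebra k M]
    (D₁ D₂ : k → k) (w : ValuationSubring M) (x y : Fin 2 → M) : k :=
  fw k D₁ 0 w (x 0) (y 0) * fw k D₂ 1 w (x 1) (y 1) -
    fw k D₂ 0 w (x 0) (y 0) * fw k D₁ 1 w (x 1) (y 1)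

private def OBp {M : Type u} [Field M] (w : ValuationSubring M) (n : ℤ) (a : M) : Prop :=
  a = 0 ∨ n ≤ ow w a

private theorem OBp.mono {M : Type u} [Field M] {w : ValuationSubring M} {n m : ℤ} {a : M}
    (h : OBp w n a) (hm : m ≤ n) : OBp w m a :=
  h.imp id fun h => hm.trans h

private theorem OBp.mul {k M : Type u} [Field k] [Field M] [Algebra k M]
    {w : ValuationSubring M} (hw : IsPl k w) {n m : ℤ} {a b : M} (ha : OBp w n a)
    (hb : OBp w m b) : OBp w (n + m) (a * b) := by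
  rcases ha with rfl | ha
  · left; rw [zero_mul]
  rcases hb with rfl | hb
  · left; rw [mul_zero]
  by_cases ha0 : a = 0
  · left; rw [ha0, zero_mul]
  by_cases hb0 : b = 0
  · left; rw [hb0, mul_zero]
  right
  rw [ow_mul hw ha0 hb0]
  linarith

private theorem OBp.const {k M : Type u} [Field k] [Field M] [Algebra k M]
    {w : ValuationSubring M} (hw : IsPl k w) (c : k) : OBp w 0 (algebraMap k M c) := by
  by_cases h : c = 0
  · left; rw [h, map_zero]
  · right; rw [ow_const hw h]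

private theorem phi_one {k M : Type u} [Field k] [CharZero k] [Field M] [Algebra k M]
    {w : ValuationSubring M} (hw : IsPl k w) {g : M} (hg0 : g ≠ 0) (hgw : ow w g ≠ 0)
    (E : Derivation ℤ M M) (D : Derivation ℤ k k)
    (hE : ∀ c : k, E (algebraMap k M c) = algebraMap k M (D c)) (hEg : E g = 0)
    (hb : ∃ N : ℤ, ∀ f ∈ w, E f = 0 ∨ N ≤ ow w (E f)) {i : ℕ} (hi : i ≤ 1) {x y : M}
    (h : y ^ 2 = x ^ 6 + 1) :
    fm E i x y ∈ w ∧ ev k w (fm E i x y) = fw k D i w x y := by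
  have key : ∃ π : M, 0 < ow w π ∧ E π = 0 := by
    rcases lt_or_gt_of_ne hgw with h1 | h1
    · refine ⟨g⁻¹, ?_, ?_⟩
      · rw [ow_inv hw hg0]
        linarith
      · have h2 : E (g * g⁻¹) = 0 := by
          rw [mul_inv_cancel₀ hg0, Derivation.map_one_eq_zero]
        rw [Derivation.leibniz, hEg, smul_zero, add_zero, smul_eq_mul] at h2
        exact (mul_eq_zero.1 h2).resolve_left hg0
    · exact ⟨g, h1, hEg⟩
  obtain ⟨π, hπ, hEπ⟩ := key
  obtain ⟨h1, h2, h3⟩ := der_pres E D hE hw hb hπ hEπ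
  exact fm_ev hw E D h1 h2 h3 hi h

theorem phi_form {k M : Type u} [Field k] [IsAlgClosed k] [CharZero k] [Field M] [Algebra k M]
    (g : M) (hg : Transcendental k g)
    [FiniteDimensional (IntermediateField.adjoin k ({g} : Set M)) M] (x y : Fin 2 → M)
    (h : ∀ j, y j ^ 2 = x j ^ 6 + 1) (D₁ D₂ : Derivation ℤ k k) :
    ∃ A : M, (∀ w : ValuationSubring M, IsPl k w → ow w g ≠ 0 →
        A ∈ w ∧ ev k w A = phw k D₁ D₂ w x y) ∧
      ∀ w : ValuationSubring M, IsPl k w → ∀ c : k, c ≠ 0 →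
        0 < ow w (g - algebraMap k M c) →
        A = 0 ∨ - ow w (g - algebraMap k M c) < ow w A := by
  have hM : FF1 k M := ⟨g, hg, inferInstance⟩
  have hg0 : g ≠ 0 := by
    rintro rfl
    exact hg isAlgebraic_zero
  obtain ⟨E₁, hE₁, hE₁g⟩ := exists_der D₁ g hg 0
  obtain ⟨E₂, hE₂, hE₂g⟩ := exists_der D₂ g hg 0
  obtain ⟨P, hP, hPg⟩ := exists_der (0 : Derivation ℤ k k) g hg 1
  rw [map_zero] at hE₁g hE₂g
  rw [map_one] at hPg
  have hP' : ∀ c : k, P (algebraMap k M c) = 0 := by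
    intro c
    rw [hP]
    simp
  refine ⟨fm E₁ 0 (x 0) (y 0) * fm E₂ 1 (x 1) (y 1) -
    fm E₂ 0 (x 0) (y 0) * fm E₁ 1 (x 1) (y 1), ?_, ?_⟩
  · intro w hw hgw
    have b₁ := der_bdd hM E₁ D₁ hE₁ hw
    have b₂ := der_bdd hM E₂ D₂ hE₂ hw
    obtain ⟨m10, e10⟩ := phi_one hw hg0 hgw E₁ D₁ hE₁ hE₁g b₁ (i := 0) (by norm_num) (h 0)
    obtain ⟨m11, e11⟩ := phi_one hw hg0 hgw E₁ D₁ hE₁ hE₁g b₁ (i := 1) (by norm_num) (h 1)
    obtain ⟨m20, e20⟩ := phi_one hw hg0 hgw E₂ D₂ hE₂ hE₂g b₂ (i := 0) (by norm_num) (h 0)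
    obtain ⟨m21, e21⟩ := phi_one hw hg0 hgw E₂ D₂ hE₂ hE₂g b₂ (i := 1) (by norm_num) (h 1)
    have n1 := w.mul_mem _ _ m10 m21
    have n2 := w.mul_mem _ _ m20 m11
    refine ⟨sub_mem n1 n2, ?_⟩
    rw [ev_sub hw n1 n2, ev_mul hw m10 m21, ev_mul hw m20 m11, e10, e11, e20, e21]
    rfl
  · intro w hw c hc he
    set e := ow w (g - algebraMap k M c) with hedef
    have e1 : 1 ≤ e := he
    set c₁ := algebraMap k M (D₁ c) with hc₁
    set c₂ := algebraMap k M (D₂ c) with hc₂
    have gen : ∀ (E : Derivation ℤ M M) (D : Derivation ℤ k k),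
        (∀ c : k, E (algebraMap k M c) = algebraMap k M (D c)) → E g = 0 →
        ∀ j : Fin 2, ∀ i : ℕ, i ≤ 1 →
        OBp w 0 (fm E i (x j) (y j) + algebraMap k M (D c) * fm P i (x j) (y j)) := by
      intro E D hE hEg j i hi
      let E' : Derivation ℤ M M := E + algebraMap k M (D c) • P
      have hE'a : ∀ z : M, E' z = E z + algebraMap k M (D c) * P z := fun z => rfl
      have hE' : ∀ a : k, E' (algebraMap k M a) = algebraMap k M (D a) := by
        intro a
        rw [hE'a, hE, hP', mul_zero, add_zero]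
      have hE'g : E' (g - algebraMap k M c) = 0 := by
        rw [map_sub, hE', hE'a, hEg, hPg, mul_one, zero_add, sub_self]
      obtain ⟨h1, -, -⟩ := der_pres E' D hE' hw (der_bdd hM E' D hE' hw) he hE'g
      have h2 : ∀ f ∈ w, E' f = 0 ∨ 0 ≤ ow w (E' f) := by
        intro f hf
        by_cases h0 : E' f = 0
        · exact Or.inl h0
        · exact Or.inr ((mem_iff hw h0).1 (h1 f hf))
      have h3 := fm_bd hw E' le_rfl h2 hi (h j)
      have h4 : fm E' i (x j) (y j) =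
          fm E i (x j) (y j) + algebraMap k M (D c) * fm P i (x j) (y j) := by
        unfold fm
        rw [hE'a]
        ring
      rw [← h4]
      exact h3
    have hpole : ∀ f ∈ w, P f = 0 ∨ 1 - e ≤ ow w (P f) := by
      apply der_pole P hP' hw (der_bdd hM P (fun _ => 0) (fun c => by rw [hP', map_zero]) hw) he
      rw [map_sub, hP', hPg, sub_zero]
    have genP : ∀ j : Fin 2, ∀ i : ℕ, i ≤ 1 → OBp w (1 - e) (fm P i (x j) (y j)) := by
      intro j i hi
      exact fm_bd hw P (by linarith) hpole hi (h j)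
    have a10 := gen E₁ D₁ hE₁ hE₁g 0 0 (by norm_num)
    have a11 := gen E₁ D₁ hE₁ hE₁g 1 1 le_rfl
    have a20 := gen E₂ D₂ hE₂ hE₂g 0 0 (by norm_num)
    have a21 := gen E₂ D₂ hE₂ hE₂g 1 1 le_rfl
    have b0 := genP 0 0 (by norm_num)
    have b1 := genP 1 1 le_rfl
    have t1 := (a10.mul hw a21).mono (m := 1 - e) (by linarith)
    have t2 := (a20.mul hw a11).mono (m := 1 - e) (by linarith)
    have t3 := (a20.mul hw b1).mono (m := 1 - e) (by linarith)
    have t4 := (b0.mul hw a21).mono (m := 1 - e) (by linarith)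
    have t5 := (b0.mul hw a11).mono (m := 1 - e) (by linarith)
    have t6 := (a10.mul hw b1).mono (m := 1 - e) (by linarith)
    have u1 : OBp w (1 - e) _ := ow_sub hw t1 t2
    have u2 : OBp w (1 - e) _ :=
      ((OBp.const hw (D₁ c)).mul hw (ow_sub hw t3 t4)).mono (m := 1 - e) (by linarith)
    have u3 : OBp w (1 - e) _ :=
      ((OBp.const hw (D₂ c)).mul hw (ow_sub hw t5 t6)).mono (m := 1 - e) (by linarith)
    have u := ow_add hw (ow_add hw u1 u2) u3
    have v : fm E₁ 0 (x 0) (y 0) * fm E₂ 1 (x 1) (y 1) -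
        fm E₂ 0 (x 0) (y 0) * fm E₁ 1 (x 1) (y 1) = 0 ∨
        1 - e ≤ ow w (fm E₁ 0 (x 0) (y 0) * fm E₂ 1 (x 1) (y 1) -
        fm E₂ 0 (x 0) (y 0) * fm E₁ 1 (x 1) (y 1)) := by
      convert u using 2
      · ring
      · congr 1
        ring
    rcases v with v | v
    · exact Or.inl v
    · right
      linarith

end HB.Pl
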