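import Pool.Agent.HB.Pl.Basic

/-!
# PL-RatPl: the local ring at `h = 0` of the rational function field `k(h)`

Plan. `V := {x ∈ k(h) | ∃ p q, q(0) ≠ 0, x * q(h) = p(h)}`. It is a subring (products of the `p`'s and
`q`'s; `q(h) ≠ 0` because `h` is transcendental). Every `x ≠ 0` in `k(h)` is `p(h) / q(h)`
(`IntermediateField.mem_adjoin_simple_iff`); cancel the power of `X` dividing `p` and `q`: `x = h ^ n * p₁(h) / q₁(h)`
with `n ∈ ℤ`, `p₁(0) q₁(0) ≠ 0`. So `x ∈ V` or `x⁻¹ ∈ V`; `h` is irreducible in `V` and every nonzero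
element of `V` is a unit times a power of `h`
(`IsDiscreteValuationRing.ofHasUnitMulPowIrreducibleFactorization`). `x = p/q ∈ V`, `c = p(0)/q(0)`:
`x - c` has numerator vanishing at `0`.
-/

set_option autoImplicit false

open IsLocalRing Polynomial IntermediateField

namespace HB.Pl

universe u

section Rat

variable {k M : Type u} [Field k] [Field M] [Algebra k M]

private theorem split_X {p : k[X]} (hp : p ≠ 0) :
    ∃ (n : ℕ) (q : k[X]), q.eval 0 ≠ 0 ∧ p = Polynomial.X ^ n * q := by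
  obtain ⟨q, hq, hd⟩ := Polynomial.exists_eq_pow_rootMultiplicity_mul_and_not_dvd p hp 0
  rw [Polynomial.C_0, sub_zero] at hq hd
  refine ⟨_, q, ?_, hq⟩
  intro h
  exact hd (Polynomial.X_dvd_iff.mpr (by rwa [Polynomial.coeff_zero_eq_eval_zero]))

private theorem aev_inj {h : M} (ht : Transcendental k h) {p q : k[X]}
    (hpq : aeval h p = aeval h q) : p = q :=
  transcendental_iff_injective.mp ht hpq

private theorem aev_ne {h : M} (ht : Transcendental k h) {q : k[X]} (hq : q.eval 0 ≠ 0) :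
    aeval h q ≠ 0 := by
  intro h0
  have h1 : q = 0 := aev_inj ht (by rw [h0, map_zero])
  rw [h1, Polynomial.eval_zero] at hq
  exact hq rfl

private theorem h_ne {h : M} (ht : Transcendental k h) : h ≠ 0 := by
  rintro rfl
  exact ht isAlgebraic_zero

private theorem frac {F : IntermediateField k M} {h : M}
    (hF : F = IntermediateField.adjoin k ({h} : Set M)) {x : F} (hx : x ≠ 0) :
    ∃ (n m : ℕ) (p q : k[X]), p.eval 0 ≠ 0 ∧ q.eval 0 ≠ 0 ∧
      (x : M) * (h ^ m * aeval h q) = h ^ n * aeval h p := by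
  subst hF
  have hx0 : (x : M) ≠ 0 := by
    intro h0
    exact hx (Subtype.ext h0)
  obtain ⟨r, s, hrs⟩ := (mem_adjoin_simple_iff k (x : M)).mp x.2
  have hs : aeval h s ≠ 0 := by
    intro h0
    rw [h0, div_zero] at hrs
    exact hx0 hrs
  have hr : aeval h r ≠ 0 := by
    intro h0
    rw [h0, zero_div] at hrs
    exact hx0 hrs
  have hs0 : s ≠ 0 := by
    rintro rfl
    exact hs (map_zero _)
  have hr0 : r ≠ 0 := by
    rintro rfl
    exact hr (map_zero _)
  obtain ⟨n, p, hp, rfl⟩ := split_X hr0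
  obtain ⟨m, q, hq, rfl⟩ := split_X hs0
  refine ⟨n, m, p, q, hp, hq, ?_⟩
  have h1 : aeval h (Polynomial.X ^ m * q) = h ^ m * aeval h q := by
    rw [map_mul, map_pow, aeval_X]
  have h2 : aeval h (Polynomial.X ^ n * p) = h ^ n * aeval h p := by
    rw [map_mul, map_pow, aeval_X]
  rw [← h1, ← h2, hrs, div_mul_cancel₀ _ hs]

/-- the local ring at `h = 0` -/
private noncomputable def vs (F : IntermediateField k M) (h : M)
    (hF : F = IntermediateField.adjoin k ({h} : Set M)) (ht : Transcendental k h) :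
    ValuationSubring F where
  carrier := {x | ∃ p q : k[X], q.eval 0 ≠ 0 ∧ (x : M) * aeval h q = aeval h p}
  mul_mem' := by
    rintro x y ⟨p, q, hq, h1⟩ ⟨p', q', hq', h2⟩
    refine ⟨p * p', q * q', ?_, ?_⟩
    · rw [Polynomial.eval_mul]
      exact mul_ne_zero hq hq'
    · rw [map_mul, map_mul, ← h1, ← h2]
      push_cast
      ring
  one_mem' := ⟨1, 1, by simp, by simp⟩
  add_mem' := by
    rintro x y ⟨p, q, hq, h1⟩ ⟨p', q', hq', h2⟩
    refine ⟨p * q' + p' * q, q * q', ?_, ?_⟩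
    · rw [Polynomial.eval_mul]
      exact mul_ne_zero hq hq'
    · rw [map_mul, map_add, map_mul, map_mul, ← h1, ← h2]
      push_cast
      ring
  zero_mem' := ⟨0, 1, by simp, by simp⟩
  neg_mem' := by
    rintro x ⟨p, q, hq, h1⟩
    refine ⟨-p, q, hq, ?_⟩
    rw [map_neg, ← h1]
    push_cast
    ring
  mem_or_inv_mem' := by
    intro x
    by_cases hx : x = 0
    · left
      subst hx
      exact ⟨0, 1, by simp, by simp⟩
    · obtain ⟨n, m, p, q, hp, hq, h1⟩ := frac hF hx
      have hx0 : (x : M) ≠ 0 := fun h0 => hx (Subtype.ext h0)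
      have hh := h_ne ht
      rcases le_total m n with hmn | hmn
      · left
        refine ⟨Polynomial.X ^ (n - m) * p, q, hq, ?_⟩
        have h2 : h ^ n = h ^ m * h ^ (n - m) := by
          rw [← pow_add, Nat.add_sub_cancel' hmn]
        rw [map_mul, map_pow, aeval_X]
        apply mul_left_cancel₀ (pow_ne_zero m hh)
        rw [← mul_assoc (h ^ m) (h ^ (n - m)), ← h2, ← h1]
        ring
      · right
        refine ⟨Polynomial.X ^ (m - n) * q, p, hp, ?_⟩
        have h2 : h ^ m = h ^ n * h ^ (m - n) := by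
          rw [← pow_add, Nat.add_sub_cancel' hmn]
        rw [map_mul, map_pow, aeval_X]
        apply mul_left_cancel₀ (pow_ne_zero n hh)
        rw [← mul_assoc (h ^ n) (h ^ (m - n)), ← h2]
        apply mul_left_cancel₀ hx0
        rw [h1]
        push_cast
        field_simp

variable {F : IntermediateField k M} {h : M}
    (hF : F = IntermediateField.adjoin k ({h} : Set M)) (ht : Transcendental k h)

private theorem mem_vs {x : F} :
    x ∈ vs F h hF ht ↔ ∃ p q : k[X], q.eval 0 ≠ 0 ∧ (x : M) * aeval h q = aeval h p := Iff.rfl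

private theorem non_iff {x : F} : x ∈ (vs F h hF ht).nonunits ↔
    ∃ p q : k[X], q.eval 0 ≠ 0 ∧ p.eval 0 = 0 ∧ (x : M) * aeval h q = aeval h p := by
  rw [ValuationSubring.mem_nonunits_iff_or]
  constructor
  · rintro (rfl | hx)
    · exact ⟨0, 1, by simp, by simp, by simp⟩
    · obtain ⟨p, q, hq, h1⟩ := ((vs F h hF ht).mem_or_inv_mem x).resolve_right hx
      by_cases hp : p.eval 0 = 0
      · exact ⟨p, q, hq, hp, h1⟩
      · refine absurd ?_ hx
        refine ⟨q, p, hp, ?_⟩
        have hx0 : (x : M) ≠ 0 := by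
          intro h0
          rw [h0, zero_mul] at h1
          exact aev_ne ht hp h1.symm
        rw [← h1]
        push_cast
        field_simp
  · rintro ⟨p, q, hq, hp, h1⟩
    by_cases hx0 : x = 0
    · left; exact hx0
    · right
      rintro ⟨p', q', hq', h2⟩
      have hx1 : (x : M) ≠ 0 := fun h0 => hx0 (Subtype.ext h0)
      have h3 : p * p' = q * q' := by
        apply aev_inj ht
        rw [map_mul, map_mul, ← h1, ← h2]
        push_cast
        field_simp
      have h4 := congrArg (Polynomial.eval 0) h3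
      rw [Polynomial.eval_mul, Polynomial.eval_mul, hp, zero_mul] at h4
      exact mul_ne_zero hq hq' h4.symm

private theorem unit_iff {x : vs F h hF ht} : ¬ IsUnit x ↔
    ∃ p q : k[X], q.eval 0 ≠ 0 ∧ p.eval 0 = 0 ∧ ((x : F) : M) * aeval h q = aeval h p := by
  rw [← non_iff hF ht, ValuationSubring.coe_mem_nonunits_iff, IsLocalRing.mem_maximalIdeal]
  rfl

private theorem irr (hm : h ∈ F) (h' : (⟨h, hm⟩ : F) ∈ vs F h hF ht) :
    Irreducible (⟨⟨h, hm⟩, h'⟩ : vs F h hF ht) := by
  rw [irreducible_iff]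
  constructor
  · rw [unit_iff]
    exact ⟨Polynomial.X, 1, by simp, by simp, by simp⟩
  · intro a b hab
    by_contra hcon
    rw [not_or] at hcon
    obtain ⟨p, q, hq, hp, h1⟩ := (unit_iff hF ht).mp hcon.1
    obtain ⟨p', q', hq', hp', h2⟩ := (unit_iff hF ht).mp hcon.2
    obtain ⟨r, rfl⟩ := Polynomial.X_dvd_iff.mpr
      (show p.coeff 0 = 0 by rw [Polynomial.coeff_zero_eq_eval_zero]; exact hp)
    obtain ⟨r', rfl⟩ := Polynomial.X_dvd_iff.mpr
      (show p'.coeff 0 = 0 by rw [Polynomial.coeff_zero_eq_eval_zero]; exact hp')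
    have hab' : h = ((a : F) : M) * ((b : F) : M) := by
      have h3 := congrArg (fun z : vs F h hF ht => ((z : F) : M)) hab
      exact h3
    have h3 : Polynomial.X * (q * q') = Polynomial.X * (r * (Polynomial.X * r')) := by
      apply aev_inj ht
      have h4 : aeval h (Polynomial.X * (r * (Polynomial.X * r')) : k[X]) =
          aeval h (Polynomial.X * r : k[X]) * aeval h (Polynomial.X * r' : k[X]) := by
        rw [← map_mul]
        congr 1
        ring
      rw [h4, ← h1, ← h2, map_mul, map_mul, aeval_X]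
      nth_rewrite 1 [hab']
      ring
    have h5 := mul_left_cancel₀ Polynomial.X_ne_zero h3
    have h6 := congrArg (Polynomial.eval 0) h5
    rw [Polynomial.eval_mul, Polynomial.eval_mul, Polynomial.eval_mul, Polynomial.eval_X, zero_mul,
      mul_zero] at h6
    exact mul_ne_zero hq hq' h6

private theorem fac (hm : h ∈ F) (h' : (⟨h, hm⟩ : F) ∈ vs F h hF ht) {x : vs F h hF ht}
    (hx : x ≠ 0) : ∃ n : ℕ, Associated ((⟨⟨h, hm⟩, h'⟩ : vs F h hF ht) ^ n) x := by
  have hh := h_ne ht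
  have hx1 : (x : F) ≠ 0 := fun h0 => hx (Subtype.ext h0)
  obtain ⟨n, m, p, q, hp, hq, h1⟩ := frac hF hx1
  obtain ⟨p₁, q₁, hq₁, h2⟩ := (mem_vs hF ht).mp x.2
  have hmn : m ≤ n := by
    by_contra hlt
    push Not at hlt
    have h3 : Polynomial.X ^ (m - n) * (p₁ * q) = p * q₁ := by
      apply aev_inj ht
      rw [map_mul, map_mul, map_mul, map_pow, aeval_X, ← h2]
      apply mul_left_cancel₀ (pow_ne_zero n hh)
      have h4 : h ^ m = h ^ n * h ^ (m - n) := by
        rw [← pow_add, Nat.add_sub_cancel' hlt.le]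
      rw [← mul_assoc, ← h4, ← mul_assoc (h ^ n) (aeval h p), ← h1]
      ring
    have h5 := congrArg (Polynomial.eval 0) h3
    rw [Polynomial.eval_mul, Polynomial.eval_pow, Polynomial.eval_X, zero_pow (by omega), zero_mul,
      Polynomial.eval_mul] at h5
    exact mul_ne_zero hp hq₁ h5.symm
  have hhF : (⟨h, hm⟩ : F) ≠ 0 := by
    intro h0
    exact hh (congrArg Subtype.val h0)
  let u : F := (x : F) * ((⟨h, hm⟩ : F) ^ (n - m))⁻¹
  have hu : (u : M) * aeval h q = aeval h p := by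
    have h4 : h ^ n = h ^ m * h ^ (n - m) := by
      rw [← pow_add, Nat.add_sub_cancel' hmn]
    have h5 : (u : M) = ((x : F) : M) * (h ^ (n - m))⁻¹ := by
      change (((x : F) * ((⟨h, hm⟩ : F) ^ (n - m))⁻¹ : F) : M) = _
      push_cast
      rfl
    rw [h5]
    apply mul_left_cancel₀ (pow_ne_zero n hh)
    rw [← h1, h4]
    field_simp
  have hu0 : (u : M) ≠ 0 := by
    intro h0
    rw [h0, zero_mul] at hu
    exact aev_ne ht hp hu.symm
  have hu1 : u ≠ 0 := by
    intro h0
    exact hu0 (congrArg Subtype.val h0)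
  have huV : u ∈ vs F h hF ht := ⟨p, q, hq, hu⟩
  have huV' : u⁻¹ ∈ vs F h hF ht := by
    refine ⟨q, p, hp, ?_⟩
    rw [← hu]
    push_cast
    field_simp
  refine ⟨n - m, ⟨⟨u, huV⟩, ⟨u⁻¹, huV'⟩, Subtype.ext (mul_inv_cancel₀ hu1),
    Subtype.ext (inv_mul_cancel₀ hu1)⟩, ?_⟩
  apply Subtype.ext
  change (⟨h, hm⟩ : F) ^ (n - m) * ((x : F) * ((⟨h, hm⟩ : F) ^ (n - m))⁻¹) = (x : F)
  rw [mul_comm, mul_assoc, inv_mul_cancel₀ (pow_ne_zero _ hhF), mul_one]

end Rat

theorem rat_pl {k M : Type u} [Field k] [Field M] [Algebra k M] (F : IntermediateField k M)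
    (h : M) (hF : F = IntermediateField.adjoin k ({h} : Set M)) (ht : Transcendental k h)
    (hm : h ∈ F) :
    ∃ V : ValuationSubring F, IsDiscreteValuationRing V ∧
      (∀ x : F, x ∈ V ↔ ∃ p q : k[X], q.eval 0 ≠ 0 ∧ (x : M) * aeval h q = aeval h p) ∧
      (∀ c : k, algebraMap k F c ∈ V) ∧
      (∀ x ∈ V, ∃ c : k, x - algebraMap k F c ∈ V.nonunits) ∧
      (∃ h' : (⟨h, hm⟩ : F) ∈ V, Irreducible (⟨⟨h, hm⟩, h'⟩ : V)) ∧
      ∀ x : F, x ∈ V.nonunits ↔
        ∃ p q : k[X], q.eval 0 ≠ 0 ∧ p.eval 0 = 0 ∧ (x : M) * aeval h q = aeval h p := by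
  have h' : (⟨h, hm⟩ : F) ∈ vs F h hF ht := ⟨Polynomial.X, 1, by simp, by simp⟩
  refine ⟨vs F h hF ht, ?_, fun x => Iff.rfl, ?_, ?_, ⟨h', irr hF ht hm h'⟩,
    fun x => non_iff hF ht⟩
  · apply IsDiscreteValuationRing.ofHasUnitMulPowIrreducibleFactorization
    exact ⟨⟨⟨h, hm⟩, h'⟩, irr hF ht hm h', fun hx => fac hF ht hm h' hx⟩
  · intro c
    refine ⟨Polynomial.C c, 1, by simp, ?_⟩
    rw [map_one, mul_one, aeval_C]
    rfl
  · rintro x ⟨p, q, hq, h1⟩
    refine ⟨p.eval 0 / q.eval 0, ?_⟩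
    rw [non_iff hF ht]
    refine ⟨p - Polynomial.C (p.eval 0 / q.eval 0) * q, q, hq, ?_, ?_⟩
    · rw [Polynomial.eval_sub, Polynomial.eval_mul, Polynomial.eval_C, div_mul_cancel₀ _ hq,
        sub_self]
    · rw [map_sub, map_mul, aeval_C, ← h1]
      have h2 : ((x - algebraMap k F (p.eval 0 / q.eval 0) : F) : M) =
          (x : M) - algebraMap k M (p.eval 0 / q.eval 0) := by
        push_cast
        rfl
      rw [h2]
      ring

end HB.Pl
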