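import Mathlib

/-!
# PL-TraceMod: the trace modulo the maximal ideal

`R` is a discrete valuation ring with residue field `k`, `S` a Dedekind domain finite over `R`, all
residue fields of `S` are `k` (`v n s` = value of `s` at the maximal ideal `n`), `e n` = exponent of `n` in
`ϖ S`. Then `trace a ≡ ∑ e n * v n a`.

Plan. `S` is a finite torsion free module over the PID `R`, so free. `Algebra.trace_quotient_mk`
(Mathlib.RingTheory.Trace.Quotient, `R` local): the residue of `trace R S a` is the trace over `R/m` of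
multiplication by `a` on `S / m S`. `m S = ϖ S = ∏ n ^ e n` and the Chinese remainder theorem
(`IsDedekindDomain.quotientEquivPiOfProdEq` or `Ideal.quotientInfRingEquivPiQuotient`) give
`S / ϖ S ≃ ∏ S / n ^ e n`, the trace of a finite product of algebras is the sum of the traces
(`Algebra.trace_pi`?, or with a basis `Pi.basis`: block diagonal matrix). On `S / n ^ e` multiplication by
`a` is `v n a • 1 +` a nilpotent map (`a - v n a ∈ n`), so the trace is `v n a * dim (S / n ^ e)`
(`LinearMap.isNilpotent_trace_of_isNilpotent`), and `dim_{R/m} S / n ^ e = e` (each `n ^ i / n ^ (i+1)` is one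
dimensional over `S / n = k`: `Ideal.finrank_prime_pow_ramificationIdx`, or
`Module.length`/`Ideal.rank_pow_quot`). It may be convenient to do everything over `k` (a `k`-algebra
isomorphism `k ≃ R / m` by `hres`).
-/

set_option autoImplicit false

open IsLocalRing

namespace HB.Pl

universe u

/-- additivity of the trace for a surjection with one dimensional kernel. -/
private theorem trace_step {k V V' : Type*} [Field k] [AddCommGroup V] [Module k V]
    [AddCommGroup V'] [Module k V'] [Module.Finite k V'] (f : V →ₗ[k] V')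
    (hf : Function.Surjective f) (x : V) (hx : x ≠ 0) (hfx : f x = 0)
    (hker : ∀ y, f y = 0 → ∃ c : k, y = c • x) (T : V →ₗ[k] V) (T' : V' →ₗ[k] V')
    (hT : ∀ y, f (T y) = T' (f y)) (c : k) (hTx : T x = c • x) :
    Module.Finite k V ∧ LinearMap.trace k V T = c + LinearMap.trace k V' T' := by
  have hfin : Module.Finite k V := by
    have h1 : LinearMap.ker f ≤ Submodule.span k {x} := by
      intro y hy
      obtain ⟨c, rfl⟩ := hker y hy
      exact Submodule.smul_mem _ _ (Submodule.subset_span rfl)
    have : Module.Finite k (Submodule.span k {x}) := inferInstance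
    have : Module.Finite k (LinearMap.ker f) :=
      Module.Finite.of_injective (Submodule.inclusion h1) (Submodule.inclusion_injective h1)
    have : Module.Finite k (V ⧸ LinearMap.ker f) :=
      Module.Finite.equiv (f.quotKerEquivOfSurjective hf).symm
    exact Module.Finite.of_submodule_quotient (LinearMap.ker f)
  refine ⟨hfin, ?_⟩
  obtain ⟨g, hg⟩ := f.exists_rightInverse_of_surjective (LinearMap.range_eq_top.2 hf)
  have hg' : ∀ y, f (g y) = y := fun y => LinearMap.congr_fun hg y
  -- the coordinate along `x`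
  have hex : ∀ y : V, ∃ c : k, y - g (f y) = c • x := fun y =>
    hker _ (by rw [map_sub, hg', sub_self])
  choose φ hφ using hex
  have hinj : ∀ c c' : k, c • x = c' • x → c = c' := by
    intro c c' h
    have : (c - c') • x = 0 := by rw [sub_smul, h, sub_self]
    rcases smul_eq_zero.1 this with h | h
    · exact sub_eq_zero.1 h
    · exact absurd h hx
  let φl : V →ₗ[k] k :=
    { toFun := φ
      map_add' := by
        intro y z
        apply hinj
        rw [← hφ, add_smul, ← hφ, ← hφ, map_add, map_add]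
        abel
      map_smul' := by
        intro a y
        apply hinj
        rw [← hφ, RingHom.id_apply, smul_eq_mul, mul_smul, ← hφ, map_smul, map_smul, smul_sub] }
  have hφx : φl x = 1 := by
    apply hinj
    show φ x • x = _
    rw [← hφ, hfx, map_zero, sub_zero, one_smul]
  have hdec : T = (T ∘ₗ g) ∘ₗ f + φl.smulRight (c • x) := by
    ext y
    have h1 : y = g (f y) + φ y • x := by rw [← hφ]; abel
    conv_lhs => rw [h1]
    rw [map_add, map_smul, hTx]
    rfl
  have e1 : LinearMap.trace k V T = LinearMap.trace k V ((T ∘ₗ g) ∘ₗ f) +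
      LinearMap.trace k V (φl.smulRight (c • x)) := by
    rw [← map_add, ← hdec]
  have e2 : LinearMap.trace k V ((T ∘ₗ g) ∘ₗ f) = LinearMap.trace k V' T' := by
    rw [LinearMap.trace_comp_comm']
    congr 1
    ext y
    show f (T (g y)) = T' y
    rw [hT, hg']
  rw [e1, e2, LinearMap.trace_smulRight, map_smul, hφx, smul_eq_mul, mul_one, add_comm]

private theorem trace_top {k S : Type*} [Field k] [CommRing S] [Algebra k S] (a : S) (J : Ideal S)
    (hJ : J = ⊤) : Module.Finite k (S ⧸ J) ∧
      LinearMap.trace k (S ⧸ J) (Algebra.lmul k _ (Ideal.Quotient.mk J a)) = 0 := by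
  subst hJ
  have hsub : Subsingleton (S ⧸ (⊤ : Ideal S)) := Ideal.Quotient.subsingleton_iff.2 rfl
  refine ⟨Module.Finite.of_surjective (0 : k →ₗ[k] (S ⧸ (⊤ : Ideal S)))
    fun y => ⟨0, Subsingleton.elim _ _⟩, ?_⟩
  have h0 : Algebra.lmul k (S ⧸ (⊤ : Ideal S)) (Ideal.Quotient.mk ⊤ a) = 0 :=
    LinearMap.ext fun y => Subsingleton.elim _ _
  rw [h0, map_zero]

/-- the quotient of a Dedekind domain by a product of maximal ideals: dimension and trace. -/
private theorem trace_prod {k S : Type*} [Field k] [CommRing S] [IsDedekindDomain S] [Algebra k S]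
    (a : S) (w : Ideal S → k) (T : Multiset (Ideal S))
    (hT : ∀ P ∈ T, P.IsMaximal ∧ P ≠ ⊥ ∧ (∀ s : S, ∃ c : k, s - algebraMap k S c ∈ P) ∧
      a - algebraMap k S (w P) ∈ P) :
    Module.Finite k (S ⧸ T.prod) ∧
      LinearMap.trace k (S ⧸ T.prod) (Algebra.lmul k _ (Ideal.Quotient.mk T.prod a)) =
        (T.map w).sum := by
  classical
  induction T using Multiset.induction_on with
  | empty =>
    rw [Multiset.map_zero, Multiset.sum_zero]
    exact trace_top a _ (by rw [Multiset.prod_zero, Ideal.one_eq_top])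
  | cons P T ih =>
    obtain ⟨hfin, htr⟩ := ih (fun Q hQ => hT Q (Multiset.mem_cons_of_mem hQ))
    obtain ⟨hPm, hP0, hPk, hPa⟩ := hT P (Multiset.mem_cons_self P T)
    set I : Ideal S := T.prod with hI
    have hI0 : I ≠ ⊥ := by
      rw [hI, ← Ideal.zero_eq_bot, Ne, Multiset.prod_eq_zero_iff]
      intro h
      exact (hT 0 (Multiset.mem_cons_of_mem h)).2.1 Ideal.zero_eq_bot
    rw [Multiset.prod_cons, Multiset.map_cons, Multiset.sum_cons, ← hI]
    have hle : P * I ≤ I := Ideal.mul_le_right
    have hne : P * I ≠ I := by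
      intro h
      have h1 : P * I = 1 * I := by rw [h, one_mul]
      have h2 := mul_right_cancel₀ (by rwa [Ideal.zero_eq_bot] : I ≠ 0) h1
      rw [Ideal.one_eq_top] at h2
      exact hPm.ne_top h2
    obtain ⟨x, hxI, hxn⟩ := Set.not_subset.1 (fun h : (I : Set S) ⊆ (P * I : Ideal S) =>
      hne (le_antisymm hle h))
    -- `x` generates `I` modulo `P I`
    have hgen : Ideal.span {x} ⊔ P * I = I := by
      have h1 : Ideal.span {x} ⊔ P * I ≤ I :=
        sup_le ((Ideal.span_singleton_le_iff_mem _).2 hxI) hle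
      obtain ⟨J, hJ⟩ := Ideal.dvd_iff_le.2 h1
      have h2 : P * I ≤ I * J := hJ ▸ le_sup_right
      have h3 : P ≤ J := by
        have : I * J ∣ P * I := Ideal.dvd_iff_le.2 h2
        rw [mul_comm P I] at this
        exact Ideal.dvd_iff_le.1 ((mul_dvd_mul_iff_left (by rwa [Ideal.zero_eq_bot] : I ≠ 0)).1 this)
      by_cases h4 : J = ⊤
      swap
      · exfalso
        have h4 : P = J := hPm.eq_of_le h4 h3
        apply hxn
        have h5 : x ∈ I * J := by
          rw [← hJ]
          exact Ideal.mem_sup_left (Ideal.mem_span_singleton_self x)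
        rw [← h4, mul_comm] at h5
        exact h5
      · rw [hJ, h4, Ideal.mul_top]
    let f : (S ⧸ P * I) →ₗ[k] (S ⧸ I) := (Ideal.Quotient.factorₐ k hle).toLinearMap
    have hfmk : ∀ s : S, f (Ideal.Quotient.mk (P * I) s) = Ideal.Quotient.mk I s := fun s => rfl
    refine (fun h => ⟨h.1, h.2.trans (by rw [htr])⟩) (trace_step f ?_
      (Ideal.Quotient.mk (P * I) x) ?_ ?_ ?_ (Algebra.lmul k _ (Ideal.Quotient.mk (P * I) a))
      (Algebra.lmul k _ (Ideal.Quotient.mk I a)) ?_ (w P) ?_)
    · intro y
      obtain ⟨s, rfl⟩ := Ideal.Quotient.mk_surjective y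
      exact ⟨Ideal.Quotient.mk (P * I) s, hfmk s⟩
    · rw [Ne, Ideal.Quotient.eq_zero_iff_mem]
      exact hxn
    · rw [hfmk, Ideal.Quotient.eq_zero_iff_mem]
      exact hxI
    · intro y
      obtain ⟨s, rfl⟩ := Ideal.Quotient.mk_surjective y
      intro hs
      rw [hfmk, Ideal.Quotient.eq_zero_iff_mem, ← hgen, Ideal.mem_span_singleton_sup] at hs
      obtain ⟨b, z, hz, rfl⟩ := hs
      obtain ⟨c, hc⟩ := hPk b
      refine ⟨c, ?_⟩
      rw [Algebra.smul_def]
      have e1 : algebraMap k (S ⧸ P * I) c = Ideal.Quotient.mk (P * I) (algebraMap k S c) := rfl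
      rw [e1, ← map_mul, Ideal.Quotient.eq]
      have e2 : b * x + z - algebraMap k S c * x = (b - algebraMap k S c) * x + z := by ring
      rw [e2]
      exact Ideal.add_mem _ (Ideal.mul_mem_mul hc hxI) hz
    · intro y
      obtain ⟨s, rfl⟩ := Ideal.Quotient.mk_surjective y
      show f (Ideal.Quotient.mk (P * I) a * Ideal.Quotient.mk (P * I) s) =
        Ideal.Quotient.mk I a * f (Ideal.Quotient.mk (P * I) s)
      rw [← map_mul, hfmk, hfmk, map_mul]
    · show Ideal.Quotient.mk (P * I) a * Ideal.Quotient.mk (P * I) x =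
        w P • Ideal.Quotient.mk (P * I) x
      rw [Algebra.smul_def]
      have e1 : algebraMap k (S ⧸ P * I) (w P) = Ideal.Quotient.mk (P * I) (algebraMap k S (w P)) :=
        rfl
      rw [e1, ← map_mul, ← map_mul, Ideal.Quotient.eq, ← sub_mul]
      exact Ideal.mul_mem_mul hPa hxI

theorem trace_mod {k R S : Type u} [Field k] [CommRing R] [IsDomain R]
    [IsDiscreteValuationRing R] [CommRing S] [IsDomain S] [IsDedekindDomain S] [Algebra R S]
    [Module.Finite R S] [FaithfulSMul R S] [Algebra k R] [Algebra k S] [IsScalarTower k R S]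
    [Fintype (MaximalSpectrum S)]
    (hres : ∀ r : R, ∃ c : k, r - algebraMap k R c ∈ maximalIdeal R)
    {ϖ : R} (hϖ : Irreducible ϖ) (v : MaximalSpectrum S → S → k)
    (hv : ∀ n s, s - algebraMap k S (v n s) ∈ n.asIdeal) (e : MaximalSpectrum S → ℕ)
    (he : ∀ (n : MaximalSpectrum S) (m : ℕ), m ≤ e n ↔ algebraMap R S ϖ ∈ n.asIdeal ^ m) (a : S) :
    Algebra.trace R S a - algebraMap k R (∑ n : MaximalSpectrum S, (e n : k) * v n a) ∈
      maximalIdeal R := by
  classical
  have : Module.IsTorsionFree R S := by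
    rw [Module.isTorsionFree_iff_algebraMap_injective]
    exact FaithfulSMul.algebraMap_injective R S
  have : Module.Free R S := Module.free_of_finite_type_torsion_free'
  have hinj : Function.Injective (algebraMap R S) := FaithfulSMul.algebraMap_injective R S
  have hϖ0 : algebraMap R S ϖ ≠ 0 := by
    rw [Ne, map_eq_zero_iff _ hinj]
    exact hϖ.ne_zero
  -- the ideal `ϖ S`
  set I : Ideal S := Ideal.map (algebraMap R S) (maximalIdeal R) with hI
  have hI' : I = Ideal.span {algebraMap R S ϖ} := by
    rw [hI, hϖ.maximalIdeal_eq, Ideal.map_span, Set.image_singleton]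
  have hI0 : I ≠ ⊥ := by
    rw [hI', Ne, Ideal.span_singleton_eq_bot]
    exact hϖ0
  set T := UniqueFactorizationMonoid.normalizedFactors I with hT
  have hTprod : T.prod = I := Ideal.prod_normalizedFactors_eq_self hI0
  have hTmem : ∀ P ∈ T, P.IsMaximal ∧ P ≠ ⊥ := by
    intro P hP
    have h1 := UniqueFactorizationMonoid.prime_of_normalized_factor P hP
    have h0 : P ≠ ⊥ := by
      have := h1.ne_zero
      rwa [Ideal.zero_eq_bot] at this
    exact ⟨(Ideal.isPrime_of_prime h1).isMaximal h0, h0⟩
  let w : Ideal S → k := fun P => if h : P.IsMaximal then v ⟨P, h⟩ a else 0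
  have hw : ∀ n : MaximalSpectrum S, w n.asIdeal = v n a := by
    intro n
    simp only [w]
    rw [dif_pos n.isMaximal]
  obtain ⟨hfin, htr⟩ := trace_prod (k := k) a w T (by
    intro P hP
    obtain ⟨h1, h2⟩ := hTmem P hP
    refine ⟨h1, h2, fun s => ⟨v ⟨P, h1⟩ s, hv ⟨P, h1⟩ s⟩, ?_⟩
    have := hw ⟨P, h1⟩
    simp only at this
    rw [this]
    exact hv ⟨P, h1⟩ a)
  rw [hTprod] at hfin htr
  -- the sum over the factors
  have hcount : ∀ n : MaximalSpectrum S, T.count n.asIdeal = e n := by
    intro n
    have := n.isMaximal.isPrime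
    apply Ideal.count_normalizedFactors_eq
    · rw [hI', Ideal.span_singleton_le_iff_mem]
      exact (he n (e n)).1 le_rfl
    · rw [hI', Ideal.span_singleton_le_iff_mem]
      intro h
      have := (he n (e n + 1)).2 h
      omega
  have hsum : (T.map w).sum = ∑ n : MaximalSpectrum S, (e n : k) * v n a := by
    rw [Finset.sum_multiset_map_count]
    have h1 : ∑ n : MaximalSpectrum S, (e n : k) * v n a =
        ∑ P ∈ (Finset.univ : Finset (MaximalSpectrum S)).map
          ⟨MaximalSpectrum.asIdeal, fun a b h => MaximalSpectrum.ext h⟩, (T.count P) • w P := by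
      rw [Finset.sum_map]
      refine Finset.sum_congr rfl fun n _ => ?_
      show _ = T.count n.asIdeal • w n.asIdeal
      rw [hcount, hw, nsmul_eq_mul]
    rw [h1]
    refine Finset.sum_subset ?_ ?_
    · intro P hP
      rw [Multiset.mem_toFinset] at hP
      rw [Finset.mem_map]
      exact ⟨⟨P, (hTmem P hP).1⟩, Finset.mem_univ _, rfl⟩
    · intro P _ hP
      rw [Multiset.mem_toFinset] at hP
      rw [Multiset.count_eq_zero_of_notMem hP, zero_smul]
  rw [hsum] at htr
  -- passage from `k` to `R / m`
  have hbij : Function.Bijective ((Ideal.Quotient.mk (maximalIdeal R)).comp (algebraMap k R)) := by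
    constructor
    · exact RingHom.injective _
    · intro y
      obtain ⟨r, rfl⟩ := Ideal.Quotient.mk_surjective y
      obtain ⟨c, hc⟩ := hres r
      refine ⟨c, ?_⟩
      rw [RingHom.comp_apply, eq_comm, Ideal.Quotient.eq]
      exact hc
  let ε : k ≃+* R ⧸ maximalIdeal R := RingEquiv.ofBijective _ hbij
  have hε : ∀ c, ε c = Ideal.Quotient.mk (maximalIdeal R) (algebraMap k R c) := fun c => rfl
  have h1 := Algebra.trace_eq_of_ringEquiv (C := S ⧸ I) ε (by
    ext c
    rw [RingHom.comp_apply]
    show algebraMap (R ⧸ maximalIdeal R) (S ⧸ I) (Ideal.Quotient.mk (maximalIdeal R) (algebraMap k R c)) = _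
    rw [Ideal.Quotient.algebraMap_quotient_map_quotient, ← IsScalarTower.algebraMap_apply]
    rfl) (Ideal.Quotient.mk I a)
  have h2 := Algebra.trace_quotient_mk (R := R) (S := S) a
  rw [← Ideal.Quotient.eq, ← h2, ← h1, ← hε, Algebra.trace_apply, htr]

end HB.Pl
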