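import Pool.Agent.HB.Pl.Over
import Pool.Agent.HB.Pl.TraceMod

/-!
# PL-TraceLoc: trace of an element which is integral at all places over a discrete valuation ring

Plan. `places_over` gives `e : MaximalSpectrum S ≃ places over R`; `W` := the image (finite). If `a ∈ w` for
all `w ∈ W` then `a ∈ S = integralClosure R M`. `trace_mod` with `v n s := ev k (e n).1 s`
(`ev_spec`, and the description of `n`), exponent `(ow (e n).1 ϖ).toNat` (last statement of `places_over`).
`Algebra.trace F M a = algebraMap R F (Algebra.trace R S a)`: `Algebra.trace_localization` /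
`Algebra.intTrace` (`Algebra.algebraMap_intTrace`, `Algebra.trace_eq_intTrace`).
-/

set_option autoImplicit false

open IsLocalRing

namespace HB.Pl

universe u

theorem trace_loc {k R F M : Type u} [Field k] [IsAlgClosed k] [Field M] [Algebra k M]
    [CommRing R] [IsDomain R] [IsDiscreteValuationRing R] [Field F] [Algebra R F]
    [IsFractionRing R F] [Algebra F M] [Algebra R M] [IsScalarTower R F M]
    [FiniteDimensional F M] [Algebra.IsSeparable F M] [Algebra k R] [IsScalarTower k R M]
    (hres : ∀ r : R, ∃ c : k, r - algebraMap k R c ∈ maximalIdeal R)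
    {ϖ : R} (hϖ : Irreducible ϖ) :
    ∃ W : Finset (ValuationSubring M),
      (∀ w, w ∈ W ↔ IsPl k w ∧
        (∀ r : R, algebraMap R M r ∈ w) ∧ ∀ r ∈ maximalIdeal R, algebraMap R M r ∈ w.nonunits) ∧
      ∀ a : M, (∀ w ∈ W, a ∈ w) → ∃ r : R, algebraMap R F r = Algebra.trace F M a ∧
        r - algebraMap k R (∑ w ∈ W, (ow w (algebraMap R M ϖ) : k) * ev k w a) ∈
          maximalIdeal R := by
  classical
  have hded : IsDedekindDomain (integralClosure R M) := integralClosure.isDedekindDomain R F M
  have hfin : Module.Finite R (integralClosure R M) := IsIntegralClosure.finite R F M _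
  have hinjF : Function.Injective (algebraMap R F) := IsFractionRing.injective R F
  have hinj : Function.Injective (algebraMap R M) := by
    rw [IsScalarTower.algebraMap_eq R F M]
    exact (algebraMap F M).injective.comp hinjF
  have hfaith : FaithfulSMul R M := (faithfulSMul_iff_algebraMap_injective R M).2 hinj
  have hfaithS : FaithfulSMul R (integralClosure R M) := by
    rw [faithfulSMul_iff_algebraMap_injective]
    intro a b hab
    exact hinj (congrArg (Subtype.val) hab)
  have htower : IsScalarTower k R (integralClosure R M) := inferInstance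
  obtain ⟨hfinite, e, he1, he2, he3⟩ := places_over (k := k) (R := R) (F := F) (M := M) hres
  have := Fintype.ofFinite (MaximalSpectrum (integralClosure R M))
  have hϖ0 : algebraMap R M ϖ ≠ 0 := by
    intro h0
    exact hϖ.ne_zero (hinj (by rw [h0, map_zero]))
  have how : ∀ n, 0 ≤ ow (e n).1 (algebraMap R M ϖ) := fun n =>
    (mem_iff (e n).2.1 hϖ0).1 ((e n).2.2.1 ϖ)
  refine ⟨Finset.univ.image (fun n => (e n).1), ?_, ?_⟩
  · intro w
    rw [Finset.mem_image]
    constructor
    · rintro ⟨n, -, rfl⟩
      exact (e n).2
    · intro hw
      exact ⟨e.symm ⟨w, hw⟩, Finset.mem_univ _, by rw [e.apply_symm_apply]⟩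
  · intro a ha
    have haS : a ∈ integralClosure R M :=
      he2 a fun n => ha _ (Finset.mem_image.2 ⟨n, Finset.mem_univ _, rfl⟩)
    have key := trace_mod (k := k) (R := R) (S := integralClosure R M) hres hϖ
      (fun n s => ev k (e n).1 (s : M)) (fun n s => by
        have h1 := ev_spec (k := k) (e n).2.1 (he1 n s).1
        have h2 := (he1 n (s - algebraMap k (integralClosure R M) (ev k (e n).1 (s : M)))).2
        exact h2.1 h1)
      (fun n => (ow (e n).1 (algebraMap R M ϖ)).toNat)
      (fun n m => by
        have h1 := he3 n (algebraMap R (integralClosure R M) ϖ) m (by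
          intro h0
          exact hϖ0 (congrArg Subtype.val h0))
        rw [Int.le_toNat (how n)]
        exact h1) ⟨a, haS⟩
    refine ⟨Algebra.trace R (integralClosure R M) ⟨a, haS⟩, ?_, ?_⟩
    · have : IsFractionRing (integralClosure R M) M :=
        integralClosure.isFractionRing_of_finite_extension F M
      rw [← Algebra.intTrace_eq_trace]
      exact Algebra.algebraMap_intTrace (A := R) (K := F) (L := M) (B := integralClosure R M) _
    · have hsum : ∑ w ∈ Finset.univ.image (fun n => (e n).1),
          (ow w (algebraMap R M ϖ) : k) * ev k w a =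
          ∑ n : MaximalSpectrum (integralClosure R M),
            (((ow (e n).1 (algebraMap R M ϖ)).toNat : ℕ) : k) * ev k (e n).1 a := by
        rw [Finset.sum_image (fun x _ y _ hxy => e.injective (Subtype.ext hxy))]
        refine Finset.sum_congr rfl fun n _ => ?_
        congr 1
        rw [← Int.cast_natCast, Int.toNat_of_nonneg (how n)]
      rw [hsum]
      exact key

end HB.Pl
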