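import Pool.Agent.HB.Pl.TraceLoc
import Pool.Agent.HB.Pl.RatPl

/-!
# PL-TraceRat: the trace over `k(h)` of an element which is integral at the zeros of `h`

Plan. `R := V` of `rat_pl`, with `R → F → M`; `hres` from the residue statement; `trace_loc` with `ϖ = h`.
The places in `W` contain `k` and `h ∈ w.nonunits`; conversely if `IsPl k w` and `0 < ow w h`, then `w`
contains `p(h) / q(h)` whenever `q(0) ≠ 0` (`ev k w (aeval h q) = q.eval 0`, a unit), and the nonunits of `V`
go to nonunits. So `W = {w | IsPl k w ∧ 0 < ow w h}`. The result `r ∈ V` with `r - c ∈ m_V`,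
`c = ∑ ...`: write `r - c = p(h)/q(h)` with `p(0) = 0`, so `r = (p + c q)(h) / q(h)`.
-/

set_option autoImplicit false

open IsLocalRing Polynomial IntermediateField

namespace HB.Pl

universe u

/-- Values of polynomials in an element of a place. -/
private theorem aeval_mem_ev {k M : Type u} [Field k] [Field M] [Algebra k M]
    {w : ValuationSubring M} (hw : IsPl k w) {h : M} (hh : h ∈ w.nonunits) (f : k[X]) :
    aeval h f ∈ w ∧ ev k w (aeval h f) = f.eval 0 := by
  have hhw : h ∈ w := w.nonunits_subset hh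
  have hmem : ∀ f : k[X], aeval h f ∈ w := by
    intro f
    induction f using Polynomial.induction_on' with
    | add p q hp hq => rw [map_add]; exact w.add_mem _ _ hp hq
    | monomial n c =>
      rw [aeval_monomial]
      exact w.mul_mem _ _ (hw.alg c) (pow_mem hhw n)
  refine ⟨hmem f, ?_⟩
  apply ev_unique hw
  have h1 : aeval h f - algebraMap k M (f.eval 0) = h * aeval h f.divX := by
    conv_lhs => rw [← divX_mul_X_add f]
    rw [map_add, map_mul, aeval_X, aeval_C, eval_add, eval_mul, eval_X, mul_zero, zero_add,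
      eval_C]
    ring
  rw [h1]
  exact nonunits_mul hw hh (hmem _)

theorem trace_rat {k M : Type u} [Field k] [IsAlgClosed k] [CharZero k] [Field M] [Algebra k M]
    (F : IntermediateField k M) [FiniteDimensional F M] (h : M)
    (hF : F = IntermediateField.adjoin k ({h} : Set M)) (ht : Transcendental k h) :
    ∃ W : Finset (ValuationSubring M), (∀ w, w ∈ W ↔ IsPl k w ∧ 0 < ow w h) ∧
      ∀ a : M, (∀ w ∈ W, a ∈ w) → ∃ p q : k[X], q.eval 0 ≠ 0 ∧
        ((Algebra.trace F M a : F) : M) * aeval h q = aeval h p ∧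
        p.eval 0 = q.eval 0 * ∑ w ∈ W, (ow w h : k) * ev k w a := by
  have hm : h ∈ F := by
    rw [hF]
    exact IntermediateField.mem_adjoin_simple_self k h
  have hh0 : h ≠ 0 := by
    rintro rfl
    exact ht isAlgebraic_zero
  have hinj : Function.Injective (aeval h : k[X] →ₐ[k] M) := transcendental_iff_injective.1 ht
  have hq0 : ∀ q : k[X], q.eval 0 ≠ 0 → aeval h q ≠ 0 := by
    intro q hq h0
    apply hq
    have : q = 0 := hinj (by rw [h0, map_zero])
    rw [this, eval_zero]
  obtain ⟨V, hdvr, hmem, halg, hres, ⟨hV, hirr⟩, hnon⟩ := rat_pl F h hF ht hm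
  let ι : k →+* V := RingHom.codRestrict (algebraMap k F) V halg
  let _ : Algebra k V := ι.toAlgebra
  have hι : ∀ c : k, ((algebraMap k V c : V) : F) = algebraMap k F c := fun c => rfl
  have htow : IsScalarTower k V M := IsScalarTower.of_algebraMap_eq fun c => rfl
  have hres' : ∀ r : V, ∃ c : k, r - algebraMap k V c ∈ maximalIdeal V := by
    intro r
    obtain ⟨c, hc⟩ := hres r r.2
    refine ⟨c, ?_⟩
    rw [← ValuationSubring.coe_mem_nonunits_iff]
    exact hc
  obtain ⟨W, hW1, hW2⟩ := trace_loc (k := k) (R := V) (F := F) (M := M) hres' hirr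
  have hϖ : algebraMap V M ⟨⟨h, hm⟩, hV⟩ = h := rfl
  refine ⟨W, ?_, ?_⟩
  · intro w
    rw [hW1]
    constructor
    · rintro ⟨hw, -, h2⟩
      refine ⟨hw, ?_⟩
      have h3 := h2 ⟨⟨h, hm⟩, hV⟩ ((IsLocalRing.mem_maximalIdeal _).2 hirr.not_isUnit)
      rw [hϖ] at h3
      exact (nonunit_iff hw hh0).1 h3
    · rintro ⟨hw, h1⟩
      have hn : h ∈ w.nonunits := (nonunit_iff hw hh0).2 h1
      have hfrac : ∀ (r : V) (p q : k[X]), q.eval 0 ≠ 0 →
          ((r : F) : M) * aeval h q = aeval h p →
          ((r : F) : M) ∈ w ∧ ev k w ((r : F) : M) = p.eval 0 / q.eval 0 := by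
        intro r p q hq hpq
        have h2 : ((r : F) : M) = aeval h p / aeval h q := by
          rw [← hpq, mul_div_assoc, div_self (hq0 q hq), mul_one]
        have hp1 := aeval_mem_ev hw hn p
        have hq1 := aeval_mem_ev hw hn q
        have h3 := ev_div hw hp1.1 hq1.1 (by rw [hq1.2]; exact hq)
        rw [h2, ← hp1.2, ← hq1.2]
        exact h3
      refine ⟨hw, ?_, ?_⟩
      · intro r
        obtain ⟨p, q, hq, hpq⟩ := (hmem r).1 r.2
        exact (hfrac r p q hq hpq).1
      · intro r hr
        rw [← ValuationSubring.coe_mem_nonunits_iff] at hr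
        obtain ⟨p, q, hq, hp, hpq⟩ := (hnon r).1 hr
        have h4 := hfrac r p q hq hpq
        have h5 : ev k w ((r : F) : M) = 0 := by rw [h4.2, hp, zero_div]
        exact (ev_eq_zero_iff hw h4.1).1 h5
  · intro a ha
    obtain ⟨r, hr1, hr2⟩ := hW2 a ha
    rw [hϖ] at hr2
    set c := ∑ w ∈ W, (ow w h : k) * ev k w a with hc
    rw [← ValuationSubring.coe_mem_nonunits_iff] at hr2
    obtain ⟨p, q, hq, hp, hpq⟩ := (hnon _).1 hr2
    refine ⟨p + C c * q, q, hq, ?_, ?_⟩
    · rw [← hr1, map_add, ← hpq, map_mul, aeval_C]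
      have h6 : (((r - algebraMap k V c : V) : F) : M) =
          ((algebraMap V F r : F) : M) - algebraMap k M c := rfl
      rw [h6]
      ring
    · rw [eval_add, hp, zero_add, eval_mul, eval_C, mul_comm]

end HB.Pl
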